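import Pool.Agent.MP_d347ac_co.Defs

set_option autoImplicit false

namespace Pool.Agent.MP_d347ac_co

universe u
variable {V : Type u}

@[simp] theorem cons_nil (a b : V) : ¬ Cons ([] : List V) a b := by simp [Cons]
@[simp] theorem cons_single (x a b : V) : ¬ Cons [x] a b := by simp [Cons]
@[simp] theorem cons_cons (x y : V) (l : List V) (a b : V) :
    Cons (x :: y :: l) a b ↔ (x = a ∧ y = b) ∨ Cons (y :: l) a b := by simp [Cons]

theorem cons_append_cons (L : List V) (y : V) (R : List V) (a b : V) :
    Cons (L ++ y :: R) a b ↔ Cons (L ++ [y]) a b ∨ Cons (y :: R) a b := by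
  induction L with
  | nil => simp
  | cons x L ih =>
    cases L with
    | nil => simp
    | cons z L =>
      simp only [List.cons_append, cons_cons] at ih ⊢
      rw [ih]; tauto

theorem cons_iff (l : List V) (a b : V) : Cons l a b ↔ ∃ L R, l = L ++ a :: b :: R := by
  constructor
  · intro h
    induction l with
    | nil => simp at h
    | cons x l ih =>
      cases l with
      | nil => simp at h
      | cons y l =>
        rcases (cons_cons _ _ _ _ _).1 h with ⟨rfl, rfl⟩ | h
        · exact ⟨[], l, rfl⟩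
        · obtain ⟨L, R, e⟩ := ih h
          exact ⟨x :: L, R, by simp [e]⟩
  · rintro ⟨L, R, rfl⟩
    rw [cons_append_cons]; right; simp

theorem cons_reverse (l : List V) (a b : V) : Cons l.reverse a b ↔ Cons l b a := by
  rw [cons_iff, cons_iff]
  constructor
  · rintro ⟨L, R, e⟩
    refine ⟨R.reverse, L.reverse, ?_⟩
    have := congrArg List.reverse e
    simpa using this
  · rintro ⟨L, R, rfl⟩
    exact ⟨R.reverse, L.reverse, by simp⟩

theorem Cons.mem_left {l : List V} {a b : V} (h : Cons l a b) : a ∈ l := by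
  obtain ⟨L, R, rfl⟩ := (cons_iff _ _ _).1 h; simp

theorem Cons.mem_right {l : List V} {a b : V} (h : Cons l a b) : b ∈ l := by
  obtain ⟨L, R, rfl⟩ := (cons_iff _ _ _).1 h; simp

theorem Cons.left_mem_init {l : List V} {e a b : V} (h : Cons (l ++ [e]) a b) : a ∈ l := by
  induction l with
  | nil => simp at h
  | cons x l ih =>
    cases l with
    | nil => simp at h; simp [h.1]
    | cons y l =>
      simp only [List.cons_append, cons_cons] at h ih
      rcases h with ⟨rfl, rfl⟩ | h
      · simp
      · exact List.mem_cons_of_mem _ (ih h)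

theorem Cons.right_mem_tail {l : List V} {s a b : V} (h : Cons (s :: l) a b) : b ∈ l := by
  cases l with
  | nil => simp at h
  | cons y l =>
    rcases (cons_cons _ _ _ _ _).1 h with ⟨_, rfl⟩ | h
    · simp
    · exact h.mem_right

theorem Cons.append_left {l : List V} {a b : V} (h : Cons l a b) (L : List V) :
    Cons (L ++ l) a b := by
  obtain ⟨L', R, rfl⟩ := (cons_iff _ _ _).1 h
  exact (cons_iff _ _ _).2 ⟨L ++ L', R, by simp⟩

theorem Cons.append_right {l : List V} {a b : V} (h : Cons l a b) (R : List V) :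
    Cons (l ++ R) a b := by
  obtain ⟨L', R', rfl⟩ := (cons_iff _ _ _).1 h
  exact (cons_iff _ _ _).2 ⟨L', R' ++ R, by simp⟩

theorem cons_append_iff (L R : List V) (a b : V) :
    Cons (L ++ R) a b ↔ Cons L a b ∨ Cons R a b ∨
      ((∃ L', L = L' ++ [a]) ∧ ∃ R', R = b :: R') := by
  cases R with
  | nil => simp
  | cons y R =>
    rw [cons_append_cons]
    rcases List.eq_nil_or_concat L with rfl | ⟨L', x, rfl⟩
    · simp
    · have : L'.concat x ++ [y] = L' ++ x :: [y] := by simp
      rw [this, cons_append_cons]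
      simp only [List.concat_eq_append, cons_cons, cons_single, or_false, List.cons.injEq]
      constructor
      · rintro ((h | ⟨rfl, rfl⟩) | h)
        · exact Or.inl h
        · exact Or.inr (Or.inr ⟨⟨L', rfl⟩, R, rfl, rfl⟩)
        · exact Or.inr (Or.inl h)
      · rintro (h | h | ⟨⟨L'', e⟩, R', rfl, rfl⟩)
        · exact Or.inl (Or.inl h)
        · exact Or.inr h
        · have := List.append_inj_right' e rfl
          simp at this
          exact Or.inl (Or.inr ⟨this, rfl⟩)

theorem exists_cons_succ {l : List V} {e a : V} (h : a ∈ l) : ∃ b, Cons (l ++ [e]) a b := by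
  obtain ⟨L, R, rfl⟩ := List.append_of_mem h
  cases R with
  | nil => exact ⟨e, (cons_iff _ _ _).2 ⟨L, [], by simp⟩⟩
  | cons b R => exact ⟨b, (cons_iff _ _ _).2 ⟨L, R ++ [e], by simp⟩⟩

theorem exists_cons_pred {l : List V} {s b : V} (h : b ∈ l) : ∃ a, Cons (s :: l) a b := by
  obtain ⟨L, R, rfl⟩ := List.append_of_mem h
  rcases List.eq_nil_or_concat L with rfl | ⟨L', a, rfl⟩
  · exact ⟨s, by simp⟩
  · exact ⟨a, (cons_iff _ _ _).2 ⟨s :: L', R, by simp⟩⟩

theorem cons_all {P : V → Prop} {x : V} {l : List V} (hx : P x)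
    (h : ∀ a b, Cons (x :: l) a b → P a → P b) : ∀ v ∈ x :: l, P v := by
  induction l generalizing x with
  | nil => simpa using hx
  | cons y l ih =>
    intro v hv
    rcases List.mem_cons.1 hv with rfl | hv
    · exact hx
    · exact ih (h x y (by simp) hx) (fun a b hab => h a b (by simp [hab])) v hv

theorem cons_all_rev {P : V → Prop} {x : V} {l : List V} (hx : P x)
    (h : ∀ a b, Cons (l ++ [x]) a b → P b → P a) : ∀ v ∈ l ++ [x], P v := by
  have := cons_all (P := P) (x := x) (l := l.reverse) hx (fun a b hab => by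
    have e : x :: l.reverse = (l ++ [x]).reverse := by simp
    rw [e, cons_reverse] at hab
    exact h b a hab)
  intro v hv
  apply this
  simp at hv ⊢; tauto

section idx
variable [DecidableEq V]

theorem Cons.idx {l : List V} (hn : l.Nodup) {a b : V} (h : Cons l a b) :
    l.idxOf a + 1 = l.idxOf b := by
  obtain ⟨L, R, rfl⟩ := (cons_iff _ _ _).1 h
  have h1 : a ∉ L := fun h => by
    have := List.disjoint_of_nodup_append hn h; simp at this
  have h2 : b ∉ L := fun h => by
    have := List.disjoint_of_nodup_append hn h; simp at this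
  have h3 : a ≠ b := by
    have := (List.nodup_append.1 hn).2.1; simp at this; tauto
  rw [List.idxOf_append_of_notMem h1, List.idxOf_append_of_notMem h2]
  simp [h3]

theorem cons_of_idx {l : List V} {a b : V} (ha : a ∈ l) (hb : b ∈ l)
    (h : l.idxOf a + 1 = l.idxOf b) : Cons l a b := by
  induction l with
  | nil => simp at ha
  | cons x l ih =>
    by_cases hxb : x = b
    · subst hxb; simp at h
    have hb' : b ∈ l := by simpa [Ne.symm hxb] using hb
    cases l with
    | nil => simp at hb'
    | cons y l =>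
      by_cases hxa : x = a
      · subst hxa
        left; refine ⟨rfl, ?_⟩
        by_contra hyb
        simp [hxb, hyb] at h
      · right
        have ha' : a ∈ y :: l := by simpa [Ne.symm hxa] using ha
        apply ih ha' hb'
        rw [List.idxOf_cons_ne _ hxa, List.idxOf_cons_ne _ hxb] at h
        omega

theorem idx_inj {l : List V} {a b : V} (ha : a ∈ l) (h : l.idxOf a = l.idxOf b) : a = b :=
  (List.idxOf_inj ha).1 h

end idx

theorem Cons.ne {l : List V} (hn : l.Nodup) {a b : V} (h : Cons l a b) : a ≠ b := by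
  classical
  have := h.idx hn
  rintro rfl; omega

theorem Cons.succ_uniq {l : List V} (hn : l.Nodup) {a b c : V} (h : Cons l a b) (h' : Cons l a c) :
    b = c := by
  classical
  exact idx_inj h.mem_right (by rw [← h.idx hn, ← h'.idx hn])

theorem Cons.pred_uniq {l : List V} (hn : l.Nodup) {a b c : V} (h : Cons l a c) (h' : Cons l b c) :
    a = b := by
  classical
  have h1 := h.idx hn
  have h2 := h'.idx hn
  exact idx_inj h.mem_left (by omega)

theorem Cons.asymm {l : List V} (hn : l.Nodup) {a b : V} (h : Cons l a b) : ¬ Cons l b a := by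
  classical
  intro h'
  have h1 := h.idx hn
  have h2 := h'.idx hn
  omega

@[simp] theorem nx_nil (a b : V) : ¬ Nx ([] : List V) a b := by simp [Nx]
theorem nx_cons (x : V) (l : List V) (a b : V) : Nx (x :: l) a b ↔ Cons (x :: l ++ [x]) a b := by
  simp [Nx]

theorem nx_split (x y : V) (A B : List V) (a b : V) :
    Nx (x :: A ++ y :: B) a b ↔ Cons (x :: A ++ [y]) a b ∨ Cons (y :: B ++ [x]) a b := by
  have : Nx (x :: A ++ y :: B) a b ↔ Cons ((x :: A) ++ y :: (B ++ [x])) a b := by
    rw [List.cons_append, nx_cons]; simp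
  rw [this, cons_append_cons]; simp

theorem nx_rot (A B : List V) (a b : V) : Nx (A ++ B) a b ↔ Nx (B ++ A) a b := by
  cases A with
  | nil => simp
  | cons x A =>
    cases B with
    | nil => simp
    | cons y B =>
      have h1 := nx_split x y A B a b
      have h2 := nx_split y x B A a b
      simp only [List.cons_append] at h1 h2 ⊢
      rw [h1, h2]; tauto

theorem nx_iff (C : List V) (a b : V) :
    Nx C a b ↔ Cons C a b ∨ ((∃ L, C = L ++ [a]) ∧ ∃ R, C = b :: R) := by
  cases C with
  | nil => simp
  | cons x l =>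
    rw [nx_cons, cons_append_iff]
    simp [eq_comm]

theorem Cons.nx {C : List V} {a b : V} (h : Cons C a b) : Nx C a b := (nx_iff _ _ _).2 (Or.inl h)

theorem Nx.mem_left {C : List V} {a b : V} (h : Nx C a b) : a ∈ C := by
  rcases (nx_iff _ _ _).1 h with h | ⟨⟨L, rfl⟩, _⟩
  · exact h.mem_left
  · simp

theorem Nx.mem_right {C : List V} {a b : V} (h : Nx C a b) : b ∈ C := by
  rcases (nx_iff _ _ _).1 h with h | ⟨_, R, rfl⟩
  · exact h.mem_right
  · simp

theorem nx_succ {C : List V} {a : V} (h : a ∈ C) : ∃ b, Nx C a b := by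
  cases C with
  | nil => simp at h
  | cons x l => exact exists_cons_succ (e := x) h

theorem nx_pred {C : List V} {b : V} (h : b ∈ C) : ∃ a, Nx C a b := by
  cases C with
  | nil => simp at h
  | cons x l =>
    have : b ∈ l ++ [x] := by simp at h ⊢; tauto
    exact exists_cons_pred (s := x) this

theorem nx_idx [DecidableEq V] {C : List V} (hn : C.Nodup) {a b : V} (h : Nx C a b) :
    C.idxOf a + 1 = C.idxOf b ∨ (C.idxOf a + 1 = C.length ∧ C.idxOf b = 0) := by
  rcases (nx_iff _ _ _).1 h with h | ⟨⟨L, e⟩, R, e'⟩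
  · exact Or.inl (h.idx hn)
  · right
    constructor
    · subst e
      have h1 : a ∉ L := fun h => by
        have := List.disjoint_of_nodup_append hn h; simp at this
      rw [List.idxOf_append_of_notMem h1]; simp
    · rw [e']; simp

theorem Nx.succ_uniq {C : List V} (hn : C.Nodup) {a b c : V} (h : Nx C a b) (h' : Nx C a c) :
    b = c := by
  classical
  have h1 := nx_idx hn h
  have h2 := nx_idx hn h'
  have h3 := List.idxOf_lt_length_of_mem h.mem_right
  have h4 := List.idxOf_lt_length_of_mem h'.mem_right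
  exact idx_inj h.mem_right (by omega)

theorem Nx.pred_uniq {C : List V} (hn : C.Nodup) {a b c : V} (h : Nx C a c) (h' : Nx C b c) :
    a = b := by
  classical
  have h1 := nx_idx hn h
  have h2 := nx_idx hn h'
  exact idx_inj h.mem_left (by omega)

theorem Nx.asymm {C : List V} (hn : C.Nodup) (hl : 3 ≤ C.length) {a b : V} (h : Nx C a b) :
    ¬ Nx C b a := by
  classical
  intro h'
  have h1 := nx_idx hn h
  have h2 := nx_idx hn h'
  omega

theorem Nx.ne {C : List V} (hn : C.Nodup) (hl : 2 ≤ C.length) {a b : V} (h : Nx C a b) :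
    a ≠ b := by
  classical
  rintro rfl
  have h1 := nx_idx hn h
  omega

theorem nx_all {P : V → Prop} {C : List V} {v : V} (hv : v ∈ C) (hP : P v)
    (h : ∀ a b, Nx C a b → P a → P b) : ∀ w ∈ C, P w := by
  obtain ⟨L, R, rfl⟩ := List.append_of_mem hv
  have := cons_all (P := P) (x := v) (l := R ++ L) hP (fun a b hab => by
    apply h
    rw [nx_rot]
    exact Cons.nx (by simpa using hab))
  intro w hw
  apply this
  simp at hw ⊢; tauto

theorem nx_three (a b c x y : V) :
    Nx [a, b, c] x y ↔ (a = x ∧ b = y) ∨ (b = x ∧ c = y) ∨ (c = x ∧ a = y) := by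
  simp [nx_cons]

theorem pair_sublist {l : List V} {a b : V} (h : [a, b].Sublist l) :
    ∃ L M R, l = L ++ a :: M ++ b :: R := by
  obtain ⟨r1, r2, rfl, ha, hb⟩ := List.cons_sublist_iff.1 h
  obtain ⟨L, M1, rfl⟩ := List.append_of_mem ha
  obtain ⟨M2, R, rfl⟩ := List.append_of_mem (List.singleton_sublist.1 hb)
  exact ⟨L, M1 ++ M2, R, by simp⟩

theorem two_mem {l : List V} {a b : V} (ha : a ∈ l) (hb : b ∈ l) (hab : a ≠ b) :
    (∃ L M R, l = L ++ a :: M ++ b :: R) ∨ ∃ L M R, l = L ++ b :: M ++ a :: R := by
  obtain ⟨L, R, rfl⟩ := List.append_of_mem ha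
  have : b ∈ L ∨ b ∈ R := by simpa [hab.symm] using hb
  rcases this with h | h
  · obtain ⟨L1, M, rfl⟩ := List.append_of_mem h
    exact Or.inr ⟨L1, M, R, by simp⟩
  · obtain ⟨M, R1, rfl⟩ := List.append_of_mem h
    exact Or.inl ⟨L, M, R1, by simp⟩

end Pool.Agent.MP_d347ac_co
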