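import Mathlib

set_option autoImplicit false

namespace Pool.Agent.MP_d347ac_co.H31

open List

variable {V : Type}

/-- Data of a canonical ordering. -/
structure Dat (V : Type) where
  b : V
  t : V
  lo : V → V
  hi : V → V
  mid : V → List V

/-- The earlier neighbours of `v`, bottom to top. -/
def Dat.N (d : Dat V) (v : V) : List V := d.lo v :: (d.mid v ++ [d.hi v])

/-- Canonical ordering: `ord` lists the added vertices (latest first), the second list is the
current contour from bottom to top. -/
inductive Build (d : Dat V) : List V → List V → Prop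
  | base : d.b ≠ d.t → Build d [] [d.b, d.t]
  | step {ord A B : List V} {v : V} :
      Build d ord (A ++ d.lo v :: (d.mid v ++ d.hi v :: B)) → v ∉ ord → v ≠ d.b → v ≠ d.t →
      Build d (v :: ord) (A ++ d.lo v :: v :: d.hi v :: B)

theorem chain_sub {R : V → V → Prop} {l l₁ : List V} (h : IsChain R l) (h' : l₁ <:+: l) :
    IsChain R l₁ := by
  rcases h' with ⟨l₂, l₃, rfl⟩
  exact h.left_of_append.right_of_append

theorem chain3 {R : V → V → Prop} {A M B : List V} {l r : V} :
    IsChain R (A ++ l :: (M ++ r :: B)) ↔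
      IsChain R (A ++ [l]) ∧ IsChain R (l :: (M ++ [r])) ∧ IsChain R (r :: B) := by
  have h1 : IsChain R (A ++ l :: (M ++ r :: B)) ↔
      IsChain R (A ++ [l]) ∧ IsChain R (l :: (M ++ r :: B)) := isChain_split
  have h2 : IsChain R ((l :: M) ++ r :: B) ↔
      IsChain R ((l :: M) ++ [r]) ∧ IsChain R (r :: B) := isChain_split
  rw [h1]
  exact and_congr Iff.rfl h2

theorem chain3' {R : V → V → Prop} {A B : List V} {l v r : V} :
    IsChain R (A ++ l :: v :: r :: B) ↔
      IsChain R (A ++ [l]) ∧ R l v ∧ R v r ∧ IsChain R (r :: B) := by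
  rw [isChain_split]
  simp [isChain_cons_cons]

/-- vertices present -/
def In (d : Dat V) (ord : List V) (y : V) : Prop := y ∈ ord ∨ y = d.b ∨ y = d.t

theorem In.mono {d : Dat V} {ord : List V} {y v : V} (h : In d ord y) : In d (v :: ord) y := by
  rcases h with h | h | h
  · exact Or.inl (mem_cons_of_mem _ h)
  · exact Or.inr (Or.inl h)
  · exact Or.inr (Or.inr h)

theorem mem_N_sub {d : Dat V} {A B : List V} {v w : V} (h : w ∈ d.N v) :
    w ∈ A ++ d.lo v :: (d.mid v ++ d.hi v :: B) := by
  simp only [Dat.N, mem_cons, mem_append, not_mem_nil, or_false] at h ⊢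
  tauto

theorem Build.ne {d : Dat V} {ord C : List V} (h : Build d ord C) : d.b ≠ d.t := by
  induction h with
  | base h => exact h
  | step _ _ _ _ ih => exact ih

theorem Build.mem {d : Dat V} {ord C : List V} (h : Build d ord C) : ∀ y ∈ C, In d ord y := by
  induction h with
  | base h => intro y hy; simp only [mem_cons, not_mem_nil, or_false] at hy; exact Or.inr hy
  | @step ord A B v _ _ _ _ ih =>
    intro y hy
    by_cases hv : y = v
    · exact Or.inl (hv ▸ mem_cons_self)
    · apply In.mono
      apply ih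
      simp only [mem_cons, mem_append] at hy ⊢
      tauto

theorem not_in_of {d : Dat V} {ord : List V} {v : V} (h1 : v ∉ ord) (h2 : v ≠ d.b)
    (h3 : v ≠ d.t) : ¬ In d ord v := by
  rintro (h | h | h) <;> contradiction

theorem Build.memN {d : Dat V} {ord C : List V} (h : Build d ord C) :
    ∀ v ∈ ord, ∀ w ∈ d.N v, In d ord w := by
  induction h with
  | base h => intro v hv; simp at hv
  | @step ord A B v hB _ _ _ ih =>
    intro u hu w hw
    rcases mem_cons.1 hu with rfl | hu
    · exact (hB.mem w (mem_N_sub hw)).mono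
    · exact (ih u hu w hw).mono

theorem Build.base_notMem {d : Dat V} {ord C : List V} (h : Build d ord C) :
    d.b ∉ ord ∧ d.t ∉ ord := by
  induction h with
  | base h => simp
  | step _ _ h2 h3 ih =>
    simp only [mem_cons, not_or]
    exact ⟨⟨h2.symm, ih.1⟩, ⟨h3.symm, ih.2⟩⟩

theorem Build.nodup {d : Dat V} {ord C : List V} (h : Build d ord C) : C.Nodup := by
  induction h with
  | base h => simp [h]
  | @step ord A B v hB h1 h2 h3 ih =>
    have hv : v ∉ A ++ d.lo v :: (d.mid v ++ d.hi v :: B) :=
      fun hm => not_in_of h1 h2 h3 (hB.mem v hm)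
    have hsub : (A ++ d.lo v :: d.hi v :: B).Nodup := by
      refine Nodup.sublist ?_ ih
      refine Sublist.append_left ?_ _
      refine Sublist.cons_cons _ ?_
      exact sublist_append_right _ _
    have hperm : (A ++ d.lo v :: v :: d.hi v :: B).Perm (v :: (A ++ d.lo v :: d.hi v :: B)) := by
      have : A ++ d.lo v :: v :: d.hi v :: B = (A ++ [d.lo v]) ++ v :: (d.hi v :: B) := by simp
      rw [this]
      refine perm_middle.trans ?_
      simp
    rw [hperm.nodup_iff, nodup_cons]
    refine ⟨?_, hsub⟩
    intro hm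
    apply hv
    simp only [mem_append, mem_cons] at hm ⊢
    tauto

theorem Build.covered {d : Dat V} {ord C : List V} (h : Build d ord C) :
    ∀ y, In d ord y → y ∈ C ∨ ∃ c ∈ ord, y ∈ d.mid c := by
  induction h with
  | base h =>
    rintro y (hy | hy | hy)
    · simp at hy
    · left; simp [hy]
    · left; simp [hy]
  | @step ord A B v hB h1 h2 h3 ih =>
    intro y hy
    by_cases hv : y = v
    · left; simp [hv]
    · have hy' : In d ord y := by
        rcases hy with hy | hy
        · rcases mem_cons.1 hy with hy | hy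
          · exact absurd hy hv
          · exact Or.inl hy
        · exact Or.inr hy
      rcases ih y hy' with hC | ⟨c, hc, hyc⟩
      · by_cases hm : y ∈ d.mid v
        · exact Or.inr ⟨v, mem_cons_self, hm⟩
        · left
          simp only [mem_append, mem_cons] at hC ⊢
          tauto
      · exact Or.inr ⟨c, mem_cons_of_mem _ hc, hyc⟩

theorem Build.time [DecidableEq V] {d : Dat V} {ord C : List V} (h : Build d ord C) :
    ∃ τ : V → ℕ, (∀ y, τ y ≤ ord.length) ∧ ∀ v ∈ ord, ∀ w ∈ d.N v, τ w < τ v := by
  induction h with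
  | base h => exact ⟨fun _ => 0, by simp, by simp⟩
  | @step ord A B v hB h1 h2 h3 ih =>
    obtain ⟨τ, hτ0, hτ⟩ := ih
    refine ⟨Function.update τ v (ord.length + 1), ?_, ?_⟩
    · intro y
      by_cases hy : y = v
      · subst hy; simp
      · rw [Function.update_of_ne hy]; have := hτ0 y; simp; omega
    · intro u hu w hw
      rcases mem_cons.1 hu with rfl | hu
      · have hw' : w ≠ u := fun e => not_in_of h1 h2 h3 (e ▸ hB.mem w (mem_N_sub hw))
        rw [Function.update_of_ne hw', Function.update_self]
        have := hτ0 w; omega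
      · have hw' : w ≠ v := fun e => not_in_of h1 h2 h3 (e ▸ hB.memN u hu w hw)
        have hu' : u ≠ v := fun e => h1 (e ▸ hu)
        rw [Function.update_of_ne hw', Function.update_of_ne hu']
        exact hτ u hu w hw

/-- admissible heights -/
def Mono (d : Dat V) (ord : List V) (h : V → ℝ) : Prop :=
  h d.b < h d.t ∧ ∀ v ∈ ord, h (d.lo v) < h v ∧ h v < h (d.hi v)

theorem Mono.tail {d : Dat V} {ord : List V} {v : V} {h : V → ℝ} (H : Mono d (v :: ord) h) :
    Mono d ord h := ⟨H.1, fun u hu => H.2 u (mem_cons_of_mem _ hu)⟩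

/-- the three kinds of contour edges -/
def E (d : Dat V) (ord : List V) (w w' : V) : Prop :=
  (w' ∈ ord ∧ w = d.lo w') ∨ (w ∈ ord ∧ w' = d.hi w) ∨ (w = d.b ∧ w' = d.t)

theorem E.mono {d : Dat V} {ord : List V} {v w w' : V} (h : E d ord w w') :
    E d (v :: ord) w w' := by
  rcases h with ⟨h, h'⟩ | ⟨h, h'⟩ | h
  · exact Or.inl ⟨mem_cons_of_mem _ h, h'⟩
  · exact Or.inr (Or.inl ⟨mem_cons_of_mem _ h, h'⟩)
  · exact Or.inr (Or.inr h)

theorem Build.chainE {d : Dat V} {ord C : List V} (h : Build d ord C) :
    IsChain (E d ord) C ∧ ∀ v ∈ ord, IsChain (E d ord) (d.N v) := by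
  induction h with
  | base h =>
    refine ⟨?_, by simp⟩
    simp only [isChain_pair]
    exact Or.inr (Or.inr ⟨rfl, rfl⟩)
  | @step ord A B v hB h1 h2 h3 ih =>
    obtain ⟨ih1, ih2⟩ := ih
    rw [chain3] at ih1
    refine ⟨?_, ?_⟩
    · rw [chain3']
      exact ⟨ih1.1.imp fun _ _ => E.mono, Or.inl ⟨mem_cons_self, rfl⟩,
        Or.inr (Or.inl ⟨mem_cons_self, rfl⟩), ih1.2.2.imp fun _ _ => E.mono⟩
    · intro u hu
      rcases mem_cons.1 hu with rfl | hu
      · exact ih1.2.1.imp fun _ _ => E.mono
      · exact (ih2 u hu).imp fun _ _ => E.mono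

theorem E.lt {d : Dat V} {ord : List V} {h : V → ℝ} (H : Mono d ord h) {w w' : V}
    (e : E d ord w w') : h w < h w' := by
  rcases e with ⟨e, rfl⟩ | ⟨e, rfl⟩ | ⟨rfl, rfl⟩
  · exact (H.2 _ e).1
  · exact (H.2 _ e).2
  · exact H.1

theorem Build.sorted {d : Dat V} {ord C : List V} (hB : Build d ord C) {h : V → ℝ}
    (H : Mono d ord h) : C.Pairwise (fun a b => h a < h b) := by
  have hc : IsChain (fun a b => h a < h b) C := hB.chainE.1.imp fun _ _ e => e.lt H
  have : Trans (fun a b => h a < h b) (fun a b => h a < h b) (fun a b => h a < h b) :=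
    ⟨fun h1 h2 => lt_trans h1 h2⟩
  exact isChain_iff_pairwise.1 hc

theorem Build.sortedN {d : Dat V} {ord C : List V} (hB : Build d ord C) {h : V → ℝ}
    (H : Mono d ord h) {v : V} (hv : v ∈ ord) : (d.N v).Pairwise (fun a b => h a < h b) := by
  have hc : IsChain (fun a b => h a < h b) (d.N v) := (hB.chainE.2 v hv).imp fun _ _ e => e.lt H
  have : Trans (fun a b => h a < h b) (fun a b => h a < h b) (fun a b => h a < h b) :=
    ⟨fun h1 h2 => lt_trans h1 h2⟩
  exact isChain_iff_pairwise.1 hc

theorem Build.exists_mono [DecidableEq V] {d : Dat V} {ord C : List V} (hB : Build d ord C) :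
    ∃ h : V → ℝ, Mono d ord h ∧ ∀ y, 0 < h y ∧ h y < 1 := by
  induction hB with
  | base h =>
    refine ⟨fun y => if y = d.b then 1 / 3 else 2 / 3, ⟨?_, by simp⟩, ?_⟩
    · simp [h.symm]; norm_num
    · intro y; dsimp only; split_ifs <;> norm_num
  | @step ord A B v hB h1 h2 h3 ih =>
    obtain ⟨h, H, hr⟩ := ih
    have hs := hB.sorted H
    have hlt : h (d.lo v) < h (d.hi v) := by
      have h' := (pairwise_append.1 hs).2.1
      exact (pairwise_cons.1 h').1 _ (by simp)
    have hlo : d.lo v ≠ v := fun e => not_in_of h1 h2 h3 (e ▸ hB.mem _ (by simp))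
    have hhi : d.hi v ≠ v := fun e => not_in_of h1 h2 h3 (e ▸ hB.mem _ (by simp))
    refine ⟨Function.update h v ((h (d.lo v) + h (d.hi v)) / 2), ⟨?_, ?_⟩, ?_⟩
    · rw [Function.update_of_ne h2.symm, Function.update_of_ne h3.symm]; exact H.1
    · intro u hu
      rcases mem_cons.1 hu with rfl | hu
      · rw [Function.update_of_ne hlo, Function.update_of_ne hhi, Function.update_self]
        constructor <;> linarith
      · have e1 : d.lo u ≠ v := fun e =>
          not_in_of h1 h2 h3 (e ▸ hB.memN u hu _ (by simp [Dat.N]))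
        have e2 : d.hi u ≠ v := fun e =>
          not_in_of h1 h2 h3 (e ▸ hB.memN u hu _ (by simp [Dat.N]))
        have e3 : u ≠ v := fun e => h1 (e ▸ hu)
        rw [Function.update_of_ne e1, Function.update_of_ne e2, Function.update_of_ne e3]
        exact H.2 u hu
    · intro y
      by_cases hy : y = v
      · subst hy
        rw [Function.update_self]
        have := hr (d.lo y); have := hr (d.hi y)
        constructor <;> linarith
      · rw [Function.update_of_ne hy]; exact hr y

theorem pair_infix_split {c c' l : V} {A B : List V} :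
    [c, c'] <:+: (A ++ l :: B) → [c, c'] <:+: (A ++ [l]) ∨ [c, c'] <:+: (l :: B) := by
  intro h
  by_contra hn
  push Not at hn
  have h1 : IsChain (fun x y => ¬ (x = c ∧ y = c')) (A ++ [l]) := by
    refine (isChain_isInfix (A ++ [l])).imp ?_
    rintro x y hxy ⟨rfl, rfl⟩
    exact hn.1 hxy
  have h2 : IsChain (fun x y => ¬ (x = c ∧ y = c')) (l :: B) := by
    refine (isChain_isInfix (l :: B)).imp ?_
    rintro x y hxy ⟨rfl, rfl⟩
    exact hn.2 hxy
  have h3 := chain_sub (isChain_split.2 ⟨h1, h2⟩) h
  simp at h3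

theorem pair_infix_mem {c c' l : V} {A : List V} (h : [c, c'] <:+: (A ++ [l])) : c ∈ A := by
  obtain ⟨P, Q, h⟩ := h
  have : (P ++ [c, c'] ++ Q).dropLast = A := by rw [h]; simp
  rw [← this]
  rcases Q.eq_nil_or_concat with rfl | ⟨Q', q, rfl⟩
  · have : P ++ [c, c'] ++ [] = (P ++ [c]) ++ [c'] := by simp
    rw [this, dropLast_concat]; simp
  · have : P ++ [c, c'] ++ Q'.concat q = (P ++ [c, c'] ++ Q') ++ [q] := by simp
    rw [this, dropLast_concat]; simp

theorem pair_infix_mem' {c c' l : V} {B : List V} (h : [c, c'] <:+: (l :: B)) : c' ∈ B := by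
  obtain ⟨P, Q, h⟩ := h
  cases P with
  | nil => simp at h; rw [← h.2]; simp
  | cons p P => simp at h; rw [← h.2]; simp

theorem infix_of_chain {C : List V} (hC : C.Nodup) :
    ∀ (L : List V) (x y : V), IsChain (fun c c' => [c, c'] <:+: C) (x :: y :: L) →
      (x :: y :: L) <:+: C := by
  intro L
  induction L with
  | nil => intro x y h; simpa using h
  | cons z L ih =>
    intro x y h
    rw [isChain_cons_cons] at h
    obtain ⟨P, Q, h1⟩ := h.1
    obtain ⟨P', Q', h2⟩ := ih y z h.2
    have e1 : C = (P ++ [x]) ++ y :: Q := by rw [← h1]; simp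
    have e2 : C = P' ++ y :: (z :: L ++ Q') := by rw [← h2]; simp
    have n1 : y ∉ P ++ [x] := by
      rw [e1] at hC
      intro hm
      exact (nodup_append.1 hC).2.2 y hm y (by simp) rfl
    have n2 : y ∉ Q := by
      rw [e1] at hC
      exact (nodup_cons.1 (nodup_append.1 hC).2.1).1
    have := (append_cons_inj_of_notMem n1 n2).1 (e1.symm.trans e2)
    refine ⟨P, Q', ?_⟩
    rw [e2, ← this.1]; simp

theorem Build.filter {d : Dat V} {ord C : List V} (hB : Build d ord C) (D : V → Prop)
    [DecidablePred D] (hD : ∀ v ∈ ord, D v → ∀ w ∈ d.N v, D w) :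
    ∃ C', Build d (ord.filter (fun y => D y)) C' ∧
      IsChain (fun c c' => D c → D c' → [c, c'] <:+: C') C := by
  induction hB with
  | base h => exact ⟨[d.b, d.t], Build.base h, by simp⟩
  | @step ord A B v hB h1 h2 h3 ih =>
    obtain ⟨C', hB', hch⟩ := ih fun u hu => hD u (mem_cons_of_mem _ hu)
    rw [chain3] at hch
    by_cases hv : D v
    · have hN := hD v mem_cons_self hv
      have hinf : d.N v <:+: C' := by
        have hc : IsChain (fun c c' => [c, c'] <:+: C') (d.N v) := by
          refine IsChain.imp_of_mem_imp ?_ hch.2.1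
          intro a b ha hb hab
          exact hab (hN a ha) (hN b hb)
        unfold Dat.N at hc ⊢
        cases hm : d.mid v ++ [d.hi v] with
        | nil => simp at hm
        | cons y L => rw [hm] at hc; exact infix_of_chain hB'.nodup L _ _ hc
      obtain ⟨A', B', hC'⟩ := hinf
      have hC'' : C' = A' ++ d.lo v :: (d.mid v ++ d.hi v :: B') := by
        rw [← hC']; simp [Dat.N]
      rw [hC''] at hB'
      have hnd := hB.nodup
      refine ⟨A' ++ d.lo v :: v :: d.hi v :: B', ?_, ?_⟩
      · rw [filter_cons_of_pos (by simpa using hv)]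
        exact Build.step hB' (fun hm => h1 (mem_filter.1 hm).1) h2 h3
      · have key : ∀ c c', [c, c'] <:+: C' → ¬ [c, c'] <:+: d.N v →
            [c, c'] <:+: A' ++ d.lo v :: v :: d.hi v :: B' := by
          intro c c' hc hn
          rw [hC''] at hc
          rcases pair_infix_split hc with hc | hc
          · exact hc.trans ⟨[], v :: d.hi v :: B', by simp⟩
          · have : d.lo v :: (d.mid v ++ d.hi v :: B') = (d.lo v :: d.mid v) ++ d.hi v :: B' :=
              rfl
            rw [this] at hc
            rcases pair_infix_split hc with hc | hc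
            · exact absurd hc hn
            · exact hc.trans ⟨A' ++ [d.lo v, v], [], by simp⟩
        rw [chain3']
        refine ⟨?_, fun _ _ => ⟨A', d.hi v :: B', by simp⟩,
          fun _ _ => ⟨A' ++ [d.lo v], B', by simp⟩, ?_⟩
        · have h4 := (isChain_isInfix (A ++ [d.lo v]))
          have h5 := (IsChain.iff_mem (R := fun c c' => D c → D c' → [c, c'] <:+: C')
            (l := A ++ [d.lo v]))
          rw [isChain_iff_forall_rel_of_append_cons_cons]
          intro a b P Q hPQ ha hb
          have hab := (isChain_iff_forall_rel_of_append_cons_cons.1 hch.1) hPQ ha hb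
          refine key a b hab ?_
          intro hn
          have m1 : a ∈ A := pair_infix_mem (c' := b) (l := d.lo v) ⟨P, Q, by rw [hPQ]; simp⟩
          have m2 : a ∈ d.lo v :: d.mid v := pair_infix_mem (l := d.hi v) hn
          refine (nodup_append.1 hnd).2.2 a m1 a ?_ rfl
          simp only [mem_cons, mem_append] at m2 ⊢
          tauto
        · rw [isChain_iff_forall_rel_of_append_cons_cons]
          intro a b P Q hPQ ha hb
          have hab := (isChain_iff_forall_rel_of_append_cons_cons.1 hch.2.2) hPQ ha hb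
          refine key a b hab ?_
          intro hn
          have m1 : b ∈ B := pair_infix_mem' (c := a) (l := d.hi v) ⟨P, Q, by rw [hPQ]; simp⟩
          have m2 : b ∈ d.mid v ++ [d.hi v] := pair_infix_mem' hn
          have e : A ++ d.lo v :: (d.mid v ++ d.hi v :: B) =
              (A ++ d.lo v :: (d.mid v ++ [d.hi v])) ++ B := by simp
          rw [e] at hnd
          refine (nodup_append.1 hnd).2.2 b ?_ b m1 rfl
          simp only [mem_cons, mem_append] at m2 ⊢
          tauto
    · refine ⟨C', ?_, ?_⟩
      · rw [filter_cons_of_neg (by simpa using hv)]; exact hB'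
      · rw [chain3']
        exact ⟨hch.1, fun _ h => absurd h hv, fun h => absurd h hv, hch.2.2⟩

end Pool.Agent.MP_d347ac_co.H31
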