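import Pool.Agent.MP_d347ac_co.Star
import Pool.Agent.MP_d347ac_co.H31Basic

set_option autoImplicit false

namespace Pool.Agent.MP_d347ac_co

open Relation H31

variable {V : Type}

theorem build_congr {d d' : Dat V} {ord C : List V} (h : Build d ord C) (hb : d'.b = d.b)
    (ht : d'.t = d.t)
    (e : ∀ v ∈ ord, d'.lo v = d.lo v ∧ d'.hi v = d.hi v ∧ d'.mid v = d.mid v) :
    Build d' ord C := by
  induction h with
  | base h => rw [← hb, ← ht]; exact Build.base (by rw [hb, ht]; exact h)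
  | @step ord A B v _ h1 h2 h3 ih =>
    obtain ⟨e1, e2, e3⟩ := e v (by simp)
    have := ih (fun u hu => e u (List.mem_cons_of_mem _ hu))
    rw [← e1, ← e2, ← e3] at this
    rw [← e1, ← e2]
    exact Build.step this h1 (hb ▸ h2) (ht ▸ h3)

section
variable [Finite V] {T : Reg V} (hT : Amb T) {D : Reg V} (hle : Le D T) {C : List V}
  (hD : Cell D C)
include hT hle hD

theorem exists_free (n : ℕ) : ∀ (A : List V) (x : V) (M : List V) (y : V) (B : List V),
    M.length ≤ n → C = A ++ x :: M ++ y :: B → M ≠ [] → adj D x y →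
    ∃ A l v r B, C = A ++ l :: v :: r :: B ∧ ∀ w ∈ C, adj D v w → w = l ∨ w = r := by
  induction n with
  | zero => intro A x M y B h _ hM; exact absurd (List.length_eq_zero_iff.1 (by omega)) hM
  | succ n ih =>
    intro A x M y B hl hC hM hxy
    obtain ⟨v, M', rfl⟩ := List.exists_cons_of_ne_nil hM
    obtain ⟨r, R, hR⟩ := List.exists_cons_of_ne_nil (l := M' ++ [y]) (by simp)
    have hC' : C = A ++ x :: v :: r :: (R ++ B) := by
      rw [hC, show r :: (R ++ B) = (M' ++ [y]) ++ B by rw [hR]; rfl]; simp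
    by_cases hw : ∀ w ∈ C, adj D v w → w = x ∨ w = r
    · exact ⟨A, x, v, r, R ++ B, hC', hw⟩
    push Not at hw
    obtain ⟨w, hwC, hvw, hwx, hwr⟩ := hw
    have hwv : w ≠ v := (adj.ne hT hle hvw).symm
    by_cases hwR : w ∈ R
    · obtain ⟨R1, R2, rfl⟩ := List.append_of_mem hwR
      apply ih (A ++ [x]) v (r :: R1) w (R2 ++ B) _ (by rw [hC']; simp) (by simp) hvw
      have := congrArg List.length hR
      simp at this hl ⊢; omega
    exfalso
    have hwBA : w ∈ B ++ A := by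
      rw [hC'] at hwC
      simp [hwx, hwr, hwv, hwR] at hwC ⊢; tauto
    have hD' : Cell D (x :: (v :: M') ++ y :: (B ++ A)) := by
      have := Cell.rotate (A := A) (B := x :: (v :: M') ++ y :: B) (by simpa [hC] using hD)
      simpa using this
    obtain ⟨D1, D2, hor, hdis, h1, h2⟩ := split hT hle (P := []) hD' (by simp) (by simp)
      (fun a b h => by simp at h; obtain ⟨rfl, rfl⟩ := h; exact hxy)
    have c1 := h1.cell (by simp)
    have c2 := h2.cell (by have := List.length_pos_of_mem hwBA; simp at this ⊢; omega)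
    have hn := hD'.nodup
    have hn' : ((x :: v :: M' ++ [y]) ++ (B ++ A)).Nodup := by simpa using hn
    have nw : w ∉ x :: (v :: M') ++ y :: ([] : List V).reverse := fun h =>
      List.disjoint_of_nodup_append hn' (by simpa using h) hwBA
    have nv : v ∉ y :: (B ++ A) ++ [x] := by
      intro h
      simp only [List.cons_append, List.nodup_cons, List.mem_cons, List.mem_append] at hn h
      simp at h
      tauto
    have : adj D1 v w ∨ adj D2 v w := by
      rcases hvw with ⟨c, h⟩ | ⟨c, h⟩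
      · exact ((hor _ _ _).1 h).imp (fun h => Or.inl ⟨c, h⟩) (fun h => Or.inl ⟨c, h⟩)
      · exact ((hor _ _ _).1 h).imp (fun h => Or.inr ⟨c, h⟩) (fun h => Or.inr ⟨c, h⟩)
    rcases this with h | h
    · exact nw (common_mem hT hle hD' h1 h2 hor hdis (h.vx_right c1.rot)
        (c2.vx_of_mem (by simp at hwBA ⊢; tauto))).1
    · exact nv (common_mem hT hle hD' h1 h2 hor hdis (c1.vx_of_mem (by simp))
        (h.vx_left c2.rot)).2

theorem link_path {l v r : V} (h1 : Nx C l v) (h2 : Nx C v r) :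
    ∃ M : List V, (r :: M ++ [l]).Nodup ∧ ∀ a b, D v a b ↔ Cons (r :: M ++ [l]) a b := by
  have b1 := (hD.bdry _ _).2 h1
  have b2 := (hD.bdry _ _).2 h2
  have hlr : l ≠ r := by
    rintro rfl
    exact h1.asymm hD.nodup hD.len h2
  let S : Reg V := fun a b c => D a b c ∧ (a = v ∨ b = v ∨ c = v)
  have hS : Rot S := fun a b c h => ⟨hD.rot _ _ _ h.1, by tauto⟩
  have hSD : Le S D := fun a b c h => h.1
  have ne1 : ∀ a b, D v a b → a ≠ v ∧ b ≠ v := fun a b h =>
    ⟨(hT.ne _ _ _ (hle _ _ _ h)).symm, hT.ne _ _ _ (hle _ _ _ (hD.rot.two h))⟩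
  have hv : ∀ u, ReflTransGen (D v) r u → u ≠ v := by
    intro u hu
    induction hu with
    | refl => exact (he.ne hT hle b2.1).symm
    | tail _ h _ => exact (ne1 _ _ h).2
  have hr : ReflTransGen (D v) r l := by
    obtain ⟨c0, hc0⟩ := b2.1
    obtain ⟨c, d, ⟨⟨e, h3, h4⟩, h5⟩, hc, hd⟩ := flow hT hS (hSD.trans hle)
      {u | ReflTransGen (D v) r u} (a := v) (b := r)
      ⟨⟨c0, hc0, Or.inl rfl⟩, fun x => b2.2 (x.mono hSD)⟩ (fun x => hv v x rfl) ReflTransGen.refl
    rcases h4 with h4 | h4 | h4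
    · exact absurd h4 (hv c hc)
    · subst h4
      have : bd D c d := ⟨⟨e, h3⟩, fun ⟨f, hf⟩ => h5 ⟨f, hf, Or.inl rfl⟩⟩
      rw [← ((hD.bdry _ _).1 this).pred_uniq hD.nodup h1]
      exact hc
    · subst h4
      exact absurd (ReflTransGen.tail hc (hD.rot.two h3)) hd
  obtain ⟨s, m, hs, hn, hc, ⟨i, hi⟩, -⟩ := exists_path {r} (x := r) rfl hr
  have hs : s = r := hs
  subst hs
  obtain ⟨M, rfl⟩ : ∃ M, i = s :: M := by
    cases i with
    | nil => simp at hi; exact absurd hi.1.symm hlr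
    | cons a i => simp at hi; exact ⟨i, by rw [hi.1]⟩
  rw [hi] at hn hc
  refine ⟨M, hn, fun a b => ⟨fun hab => ?_, hc a b⟩⟩
  by_contra hnot
  set pth := s :: M ++ [l] with hpth
  let E : Reg V := fun a b c => D a b c ∧
    ((a = v ∧ ¬ Cons pth b c) ∨ (b = v ∧ ¬ Cons pth c a) ∨ (c = v ∧ ¬ Cons pth a b))
  have hE : Rot E := fun a b c h => ⟨hD.rot _ _ _ h.1, by tauto⟩
  have hED : Le E D := fun a b c h => h.1
  have eE : ∀ a b, E v a b ↔ D v a b ∧ ¬ Cons pth a b := fun a b => by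
    constructor
    · rintro ⟨h, h'⟩
      have := ne1 _ _ h
      exact ⟨h, by tauto⟩
    · rintro ⟨h, h'⟩
      exact ⟨h, Or.inl ⟨rfl, h'⟩⟩
  obtain ⟨s', hs'⟩ := exists_cons_succ (l := s :: M) (e := l) (a := s) (by simp)
  have key := star_closed hT hle hD hE hED (v := v) ⟨a, b, (eE _ _).2 ⟨hab, hnot⟩⟩ (by
    rintro w ⟨⟨c, h3⟩, h4⟩
    obtain ⟨h3, h5⟩ := (eE _ _).1 h3
    have nos : ∀ w', ¬ Cons pth w w' := fun w' h =>
      h5 (hT.uniq _ _ _ _ (hle _ _ _ (hc _ _ h)) (hle _ _ _ h3) ▸ h)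
    have : he D w v := by
      by_contra hn'
      have := ((hD.bdry _ _).1 ⟨⟨c, h3⟩, hn'⟩).succ_uniq hD.nodup h2
      exact nos s' (this ▸ hs')
    obtain ⟨c', hc'⟩ := this
    refine h4 ⟨c', hE.two ((eE _ _).2 ⟨hD.rot _ _ _ hc', fun h => ?_⟩)⟩
    have : w ∈ (s :: M) ++ [l] := h.mem_right
    rcases List.mem_append.1 this with h' | h'
    · obtain ⟨w', hw'⟩ := exists_cons_succ (e := l) h'
      exact nos w' hw'
    · simp at h'
      exact b1.2 (h' ▸ ⟨c, h3⟩)) (by
    rintro w ⟨⟨c, h3⟩, h4⟩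
    obtain ⟨h3, h5⟩ := (eE _ _).1 (hE _ _ _ h3)
    have nop : ∀ w', ¬ Cons pth w' w := fun w' h =>
      h5 (hT.uniq _ _ _ _ (hle _ _ _ (hD.rot.two (hc _ _ h))) (hle _ _ _ (hD.rot.two h3)) ▸ h)
    obtain ⟨l', hl'⟩ := exists_cons_pred (s := s) (l := M ++ [l]) (b := l) (by simp)
    have : he D v w := by
      by_contra hn'
      have := ((hD.bdry _ _).1 ⟨⟨c, hD.rot.two h3⟩, hn'⟩).pred_uniq hD.nodup h1
      exact nop l' (this ▸ hl')
    obtain ⟨c', hc'⟩ := this
    refine h4 ⟨c', (eE _ _).2 ⟨hc', fun h => ?_⟩⟩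
    have : w ∈ s :: (M ++ [l]) := h.mem_left
    rcases List.mem_cons.1 this with h' | h'
    · exact b2.2 (h' ▸ ⟨c, hD.rot.two h3⟩)
    · obtain ⟨w', hw'⟩ := exists_cons_pred (s := s) h'
      exact nop w' hw')
  exact ((eE _ _).1 (key _ _ (hc _ _ hs'))).2 hs'

end

/-- edges of a canonical ordering -/
def EE (d : Dat V) (ord : List V) (u w : V) : Prop :=
  (w ∈ ord ∧ u ∈ d.N w) ∨ (u ∈ ord ∧ w ∈ d.N u) ∨ (u = d.b ∧ w = d.t) ∨ (u = d.t ∧ w = d.b)

theorem cell_build [Finite V] {T : Reg V} (hT : Amb T) (b t : V) (hbt : b ≠ t) (n : ℕ) :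
    ∀ (D : Reg V) (m : List V), {u | vx D u}.ncard ≤ n → Le D T → WCell D (b :: m ++ [t]) →
    ∃ (d : Dat V) (ord : List V), d.b = b ∧ d.t = t ∧ Build d ord (b :: m ++ [t]) ∧
      (∀ v ∈ ord, vx D v) ∧ (∀ v, vx D v → In d ord v) ∧
      ∀ u w, adj D u w ∨ Cons (b :: m ++ [t]) u w → EE d ord u w := by
  classical
  induction n using Nat.strong_induction_on with
  | _ n ih =>
  intro D m hn hle hW
  rcases hW with hW | hD
  · have : m = [] := List.length_eq_zero_iff.1 (by have := hW.1; simpa using this)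
    subst this
    refine ⟨⟨b, t, id, id, fun _ => []⟩, [], rfl, rfl, Build.base hbt, by simp,
      fun v ⟨x, y, h⟩ => absurd h (hW.2 _ _ _), ?_⟩
    rintro u w ((⟨c, h⟩ | ⟨c, h⟩) | h)
    · exact absurd h (hW.2 _ _ _)
    · exact absurd h (hW.2 _ _ _)
    · simp at h
      exact Or.inr (Or.inr (Or.inl ⟨h.1.symm, h.2.symm⟩))
  have hm : m ≠ [] := by rintro rfl; have := hD.len; simp at this
  obtain ⟨A, l, v, r, B, hC, hfree⟩ := exists_free hT hle hD m.length [] b m t [] le_rfl (by simp) hm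
    (hD.adj_of_nx ((nx_iff _ _ _).2 (Or.inr ⟨⟨b :: m, rfl⟩, _, rfl⟩))).symm
  have n1 : Nx (b :: m ++ [t]) l v := Cons.nx ((cons_iff _ _ _).2 ⟨A, r :: B, hC⟩)
  have n2 : Nx (b :: m ++ [t]) v r := Cons.nx ((cons_iff _ _ _).2 ⟨A ++ [l], B, by simp [hC]⟩)
  obtain ⟨M, hMn, hM⟩ := link_path hT hle hD n1 n2
  have hD' : Cell D (l :: [v] ++ r :: (B ++ A)) := by
    have := Cell.rotate (A := A) (B := l :: v :: r :: B) (hC ▸ hD)
    simpa using this
  have hMadj : ∀ u ∈ r :: M ++ [l], adj D v u := by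
    intro u hu
    rcases List.mem_append.1 hu with h | h
    · obtain ⟨w, hw⟩ := exists_cons_succ (e := l) h
      exact Or.inl ⟨w, (hM _ _).2 hw⟩
    · simp at h; subst h
      exact (hD.adj_of_nx n1).symm
  have hMC : ∀ u ∈ M, u ∉ b :: m ++ [t] := by
    intro u hu huC
    simp only [List.cons_append, List.nodup_cons, List.mem_append, List.nodup_append] at hMn
    rcases hfree u huC (hMadj u (by simp [hu])) with e | e
    · exact hMn.2.2.2 u hu l (by simp) e
    · exact hMn.1 (Or.inl (e ▸ hu))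
  obtain ⟨D1, D2, hor, hdis, h1, h2⟩ := split hT hle (P := M.reverse) hD'
    (List.nodup_reverse.2 (hMn.sublist (by simp)))
    (fun u hu h => hMC u (List.mem_reverse.1 hu) (by rw [hC]; simp at h ⊢; tauto))
    (fun a b h => by
      have e : l :: M.reverse ++ [r] = (r :: M ++ [l]).reverse := by simp
      rw [e, cons_reverse] at h
      exact Or.inr ⟨v, hD.rot _ _ _ ((hM _ _).2 h)⟩)
  have c1 := h1.cell (by simp)
  have l1 : Le D1 D := fun a b c x => (hor a b c).2 (Or.inl x)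
  have l2 : Le D2 D := fun a b c x => (hor a b c).2 (Or.inr x)
  have hnC := hD'.nodup
  have hv2 : ¬ vx D2 v := by
    intro h
    have := (common_mem hT hle hD' h1 h2 hor hdis (c1.vx_of_mem (by simp)) h).2
    have hvM : v ∉ M := fun h => hMC v h n2.mem_left
    simp only [List.cons_append, List.nodup_cons, List.mem_cons, List.mem_append] at hnC this
    simp [hvM] at this
    tauto
  have g1 : ∀ a b, Nx (l :: [v] ++ r :: M.reverse.reverse) a b ↔
      (l = a ∧ v = b) ∨ (v = a ∧ r = b) ∨ Cons (r :: M ++ [l]) a b := fun a b => by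
    rw [nx_split]; simp [or_assoc]
  have star : ∀ a b c, D1 a b c → a = v ∨ b = v ∨ c = v := by
    intro a b c h
    by_contra hcon
    let W : Reg V := fun a b c => D1 a b c ∧ ¬ (a = v ∨ b = v ∨ c = v)
    have hW : Rot W := fun a b c h => ⟨c1.rot _ _ _ h.1, by tauto⟩
    obtain ⟨x, y, ⟨z, h3, h4⟩, h5⟩ := hT.nz W hW (fun a b c h => hle _ _ _ (l1 _ _ _ h.1))
      ⟨a, b, c, h, hcon⟩
    by_cases hr : he D1 y x
    · obtain ⟨z', hz'⟩ := hr
      by_cases e : z' = v
      · subst e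
        have := (hM _ _).1 (hD.rot.two (l1 _ _ _ hz'))
        exact ((c1.bdry _ _).2 ((g1 _ _).2 (Or.inr (Or.inr this)))).2 ⟨z, h3⟩
      · exact h5 ⟨z', hz', by tauto⟩
    · rcases (g1 _ _).1 ((c1.bdry _ _).1 ⟨⟨z, h3⟩, hr⟩) with e | e | e
      · exact h4 (Or.inr (Or.inl e.2.symm))
      · exact h4 (Or.inl e.1.symm)
      · have := hD.rot _ _ _ ((hM _ _).2 e)
        exact h4 (Or.inr (Or.inr (hT.uniq _ _ _ _ (hle _ _ _ (l1 _ _ _ h3)) (hle _ _ _ this))))
  obtain ⟨m', hm'⟩ : ∃ m', A ++ l :: (M.reverse ++ r :: B) = b :: m' ++ [t] := by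
    have e1 : ∃ X, A ++ [l] = b :: X := by
      cases A with
      | nil => simp at hC; exact ⟨[], by simp [hC.1]⟩
      | cons a A => simp at hC; exact ⟨A ++ [l], by simp [hC.1]⟩
    have e2 : ∃ Y, r :: B = Y ++ [t] := by
      rcases List.eq_nil_or_concat B with rfl | ⟨B', z, rfl⟩
      · have : (b :: m) ++ [t] = (A ++ [l, v]) ++ [r] := by simpa using hC
        have := List.append_inj_right' this rfl
        simp at this
        exact ⟨[], by simp [this]⟩
      · have : (b :: m) ++ [t] = (A ++ l :: v :: r :: B') ++ [z] := by simpa using hC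
        have := List.append_inj_right' this rfl
        simp at this
        exact ⟨r :: B', by simp [this]⟩
    obtain ⟨X, hX⟩ := e1
    obtain ⟨Y, hY⟩ := e2
    refine ⟨X ++ M.reverse ++ Y, ?_⟩
    rw [hY, show A ++ l :: (M.reverse ++ (Y ++ [t])) = (A ++ [l]) ++ (M.reverse ++ (Y ++ [t])) by simp,
      hX]
    simp
  have h2' : WCell D2 (b :: m' ++ [t]) := by
    rw [← hm']
    rcases h2 with h2 | h2
    · exact Or.inl ⟨by have := h2.1; simp at this ⊢; omega, h2.2⟩
    · have := Cell.rotate (A := r :: B) (B := A ++ l :: M.reverse) (by simpa using h2)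
      exact Or.inr (by simpa using this)
  have hlt : {u | vx D2 u}.ncard < {u | vx D u}.ncard :=
    Set.ncard_lt_ncard ⟨fun u hu => vx.mono l2 hu, fun h => hv2 (h (hD.vx_of_mem n2.mem_left))⟩
      (Set.toFinite _)
  obtain ⟨d, ord, hb, ht, hB, o1, o2, o3⟩ := ih _ (lt_of_lt_of_le hlt hn) D2 m' le_rfl
    (l2.trans hle) h2'
  have hvo : v ∉ ord := fun h => hv2 (o1 v h)
  let d' : Dat V := ⟨b, t, Function.update d.lo v l, Function.update d.hi v r,
    Function.update d.mid v M.reverse⟩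
  have e : ∀ u ∈ ord, d'.lo u = d.lo u ∧ d'.hi u = d.hi u ∧ d'.mid u = d.mid u := fun u hu => by
    have : u ≠ v := fun e => hvo (e ▸ hu)
    simp [d', this]
  have eN : ∀ u ∈ ord, d'.N u = d.N u := fun u hu => by
    obtain ⟨e1, e2, e3⟩ := e u hu
    simp only [Dat.N, e1, e2, e3]
  have eNv : d'.N v = l :: (M.reverse ++ [r]) := by simp [Dat.N, d']
  have hB' : Build d' ord (b :: m' ++ [t]) := build_congr hB hb.symm ht.symm e
  have hnC' := hD.nodup
  have hvb : v ≠ b := by
    rintro rfl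
    have := n1.pred_uniq hnC' ((nx_iff _ _ _).2 (Or.inr ⟨⟨v :: m, rfl⟩, _, rfl⟩))
    subst this
    have i1 := (Cons.idx hnC' ((cons_iff _ _ _).2 ⟨A, r :: B, hC⟩))
    simp at i1
  have hvt : v ≠ t := by
    rintro rfl
    have i1 := (Cons.left_mem_init (l := b :: m) (e := v)
      ((cons_iff _ _ _).2 ⟨A ++ [l], B, by simpa using hC⟩ : Cons (b :: m ++ [v]) v r))
    exact List.disjoint_of_nodup_append hnC' i1 (by simp)
  have mono : ∀ u w, EE d ord u w → EE d' (v :: ord) u w := by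
    rintro u w (⟨x, y⟩ | ⟨x, y⟩ | x | x)
    · exact Or.inl ⟨by simp [x], eN w x ▸ y⟩
    · exact Or.inr (Or.inl ⟨by simp [x], eN u x ▸ y⟩)
    · exact Or.inr (Or.inr (Or.inl (by rw [hb, ht] at x; exact x)))
    · exact Or.inr (Or.inr (Or.inr (by rw [hb, ht] at x; exact x)))
  have symmE : ∀ u w, EE d' (v :: ord) u w → EE d' (v :: ord) w u := by
    intro u w h; unfold EE at h ⊢; tauto
  have nbr : ∀ a c, D v a c → a ∈ d'.N v ∧ c ∈ d'.N v := fun a c h => by
    have := (hM _ _).1 h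
    have m1 := this.mem_left
    have m2 := this.mem_right
    rw [eNv]
    simp at m1 m2 ⊢; tauto
  have heE : ∀ u w, he D u w → EE d' (v :: ord) u w := by
    rintro u w ⟨c, h⟩
    rcases (hor _ _ _).1 h with h' | h'
    · rcases star _ _ _ h' with x | x | x
      · subst x
        exact Or.inr (Or.inl ⟨by simp, (nbr _ _ h).1⟩)
      · subst x
        exact Or.inl ⟨by simp, (nbr _ _ (hD.rot _ _ _ h)).2⟩
      · subst x
        have := (hM _ _).1 (hD.rot.two h)
        apply symmE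
        apply mono
        apply o3
        right
        rw [← hm']
        have e : l :: M.reverse ++ [r] = (r :: M ++ [l]).reverse := by simp
        have := (cons_reverse _ _ _).2 this
        rw [← e] at this
        have := (this.append_left A).append_right B
        simpa using this
    · exact mono _ _ (o3 _ _ (Or.inl (Or.inl ⟨c, h'⟩)))
  refine ⟨d', v :: ord, rfl, rfl, ?_, ?_, ?_, ?_⟩
  · rw [hC]
    have e1 : d'.lo v = l := by simp [d']
    have e2 : d'.hi v = r := by simp [d']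
    have e3 : d'.mid v = M.reverse := by simp [d']
    rw [← e1, ← e2]
    apply Build.step _ hvo hvb hvt
    rw [e1, e2, e3, hm']
    exact hB'
  · intro u hu
    rcases List.mem_cons.1 hu with rfl | hu
    · exact hD.vx_of_mem n2.mem_left
    · exact (o1 u hu).mono l2
  · rintro u ⟨x, y, h⟩
    rcases heE u x ⟨y, h⟩ with ⟨p, q⟩ | ⟨p, _⟩ | p | p
    · have hB'' : Build d' (v :: ord) (A ++ d'.lo v :: v :: d'.hi v :: B) := by
        apply Build.step _ hvo hvb hvt
        have e1 : d'.lo v = l := by simp [d']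
        have e2 : d'.hi v = r := by simp [d']
        have e3 : d'.mid v = M.reverse := by simp [d']
        rw [e1, e2, e3, hm']
        exact hB'
      exact hB''.memN x p u q
    · exact Or.inl p
    · exact Or.inr (Or.inl p.1)
    · exact Or.inr (Or.inr p.1)
  · rintro u w (h | h)
    · exact h.elim (heE _ _) (fun h => symmE _ _ (heE _ _ h))
    · exact heE _ _ ((hD.bdry _ _).2 h.nx).1

theorem exists_build_of (hI : PartI) (n : ℕ) (G : SimpleGraph (Fin n)) (p : Fin n → ℝ × ℝ)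
    (h : Plane G p) :
    ∃ (K : ℕ) (d : H31.Dat (Fin K)) (ord ctr : List (Fin K)) (φ : Fin n → Fin K),
      H31.Build d ord ctr ∧ Function.Injective φ ∧ (∀ v, φ v ∈ ord) ∧
      ∀ u v, G.Adj u v → φ u ∈ d.N (φ v) ∨ φ v ∈ d.N (φ u) := by
  obtain ⟨N, T, a, b, c, φ, hT, hC, hinj, hφ, hE⟩ := hI n G p h
  have hac : a ≠ c := by have := hC.nodup; simp at this; tauto
  obtain ⟨d, ord, hb, ht, hB, -, o2, o3⟩ := cell_build hT a c hac _ T [b] le_rfl (Le.refl T)
    (Or.inr hC)
  have hn : ∀ v, φ v ≠ d.b ∧ φ v ≠ d.t := fun v => by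
    have := (hφ v).1
    rw [hb, ht]; simp at this; tauto
  refine ⟨N, d, ord, _, φ, hB, hinj, fun v => ?_, fun u v huv => ?_⟩
  · rcases o2 _ (hφ v).2 with x | x | x
    · exact x
    · exact absurd x (hn v).1
    · exact absurd x (hn v).2
  · rcases o3 _ _ (Or.inl (hE u v huv)) with x | x | x | x
    · exact Or.inl x.2
    · exact Or.inr x.2
    · exact absurd x.1 (hn u).1
    · exact absurd x.1 (hn u).2

end Pool.Agent.MP_d347ac_co
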