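import Pool.Agent.MP_d347ac_co.Basic

set_option autoImplicit false

namespace Pool.Agent.MP_d347ac_co

universe u
variable {V : Type u}

theorem Le.trans {A B C : Reg V} (h : Le A B) (h' : Le B C) : Le A C :=
  fun a b c x => h' a b c (h a b c x)

theorem Le.refl (A : Reg V) : Le A A := fun _ _ _ x => x

theorem he.mono {A B : Reg V} (h : Le A B) {a b : V} (x : he A a b) : he B a b :=
  let ⟨c, hc⟩ := x; ⟨c, h _ _ _ hc⟩

theorem adj.mono {A B : Reg V} (h : Le A B) {a b : V} (x : adj A a b) : adj B a b :=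
  x.imp (he.mono h) (he.mono h)

theorem adj.symm {A : Reg V} {a b : V} (x : adj A a b) : adj A b a := Or.symm x

theorem vx.mono {A B : Reg V} (h : Le A B) {a : V} (x : vx A a) : vx B a :=
  let ⟨b, c, hc⟩ := x; ⟨b, c, h _ _ _ hc⟩

theorem Rot.two {S : Reg V} (h : Rot S) {a b c : V} (x : S a b c) : S c a b :=
  h _ _ _ (h _ _ _ x)

theorem he.vx_left {S : Reg V} {a b : V} (x : he S a b) : vx S a :=
  let ⟨c, hc⟩ := x; ⟨b, c, hc⟩

theorem he.vx_right {S : Reg V} (h : Rot S) {a b : V} (x : he S a b) : vx S b :=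
  let ⟨c, hc⟩ := x; ⟨c, a, h _ _ _ hc⟩

theorem adj.vx_left {S : Reg V} (h : Rot S) {a b : V} (x : adj S a b) : vx S a :=
  x.elim he.vx_left (he.vx_right h)

theorem adj.vx_right {S : Reg V} (h : Rot S) {a b : V} (x : adj S a b) : vx S b :=
  x.symm.vx_left h

section amb
variable {T : Reg V} (hT : Amb T)
include hT

theorem he.ne {S : Reg V} (hle : Le S T) {a b : V} (x : he S a b) : a ≠ b :=
  let ⟨_, hc⟩ := x; hT.ne _ _ _ (hle _ _ _ hc)

theorem adj.ne {S : Reg V} (hle : Le S T) {a b : V} (x : adj S a b) : a ≠ b :=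
  x.elim (he.ne hT hle) (fun y => (he.ne hT hle y).symm)

/-- a triangle of the ambient on a half-edge of `S` is in `S` -/
theorem he.mem {S : Reg V} (hle : Le S T) {a b c : V} (x : he S a b) (y : T a b c) : S a b c := by
  obtain ⟨c', hc⟩ := x
  rwa [hT.uniq _ _ _ _ y (hle _ _ _ hc)]

theorem flow [Finite V] {S : Reg V} (hS : Rot S) (hle : Le S T) (G : Set V) {a b : V}
    (hb : bd S a b) (ha : a ∉ G) (hb' : b ∈ G) : ∃ c d, bd S c d ∧ c ∈ G ∧ d ∉ G := by
  classical
  cases nonempty_fintype V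
  by_contra hcon
  push Not at hcon
  let In : Finset (V × V) := Finset.univ.filter (fun e => he S e.1 e.2 ∧ e.1 ∉ G ∧ e.2 ∈ G)
  let Out : Finset (V × V) := Finset.univ.filter (fun e => he S e.1 e.2 ∧ e.1 ∈ G ∧ e.2 ∉ G)
  let th : V × V → V := fun e => if h : he S e.1 e.2 then h.choose else e.1
  have hth : ∀ e : V × V, he S e.1 e.2 → S e.1 e.2 (th e) := fun e h => by
    simp only [th, h, dif_pos]; exact h.choose_spec
  let f : V × V → V × V := fun e => if th e ∈ G then (th e, e.1) else (e.2, th e)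
  have h1 : In.card ≤ Out.card := by
    apply Finset.card_le_card_of_injOn f
    · intro e he'
      simp only [In, Finset.coe_filter, Finset.mem_univ, true_and, Set.mem_ofPred_eq] at he'
      have := hth e he'.1
      simp only [Out, Finset.coe_filter, Finset.mem_univ, true_and, Set.mem_ofPred_eq, f]
      split_ifs with h
      · exact ⟨⟨_, hS.two this⟩, h, he'.2.1⟩
      · exact ⟨⟨_, hS _ _ _ this⟩, he'.2.2, h⟩
    · intro e he' e' he'' hf
      simp only [In, Finset.coe_filter, Finset.mem_univ, true_and, Set.mem_ofPred_eq] at he' he''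
      have t1 := hth e he'.1
      have t2 := hth e' he''.1
      simp only [f] at hf
      split_ifs at hf with g1 g2 g2
      · simp only [Prod.mk.injEq] at hf
        have u1 := hS.two t1
        have u2 := hS.two t2
        rw [← hf.1, ← hf.2] at u2
        exact Prod.ext hf.2 (hT.uniq _ _ _ _ (hle _ _ _ u1) (hle _ _ _ u2))
      · simp only [Prod.mk.injEq] at hf
        have u1 := hS.two t1
        have u2 := hS _ _ _ t2
        rw [← hf.1, ← hf.2] at u2
        have := hT.uniq _ _ _ _ (hle _ _ _ u1) (hle _ _ _ u2)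
        exact absurd (this ▸ he'.2.2) he''.2.1
      · simp only [Prod.mk.injEq] at hf
        have u1 := hS _ _ _ t1
        have u2 := hS.two t2
        rw [← hf.1, ← hf.2] at u2
        have := hT.uniq _ _ _ _ (hle _ _ _ u1) (hle _ _ _ u2)
        exact absurd (this ▸ he''.2.2) he'.2.1
      · simp only [Prod.mk.injEq] at hf
        have u1 := hS _ _ _ t1
        have u2 := hS _ _ _ t2
        rw [← hf.1, ← hf.2] at u2
        exact Prod.ext (hT.uniq _ _ _ _ (hle _ _ _ u1) (hle _ _ _ u2)) hf.1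
  have h2 : Out.card ≤ (In.erase (a, b)).card := by
    apply Finset.card_le_card_of_injOn Prod.swap
    · intro e he'
      simp only [Out, Finset.coe_filter, Finset.mem_univ, true_and, Set.mem_ofPred_eq] at he'
      have hr : he S e.2 e.1 := by
        by_contra hn
        exact he'.2.2 (hcon e.1 e.2 ⟨he'.1, hn⟩ he'.2.1)
      simp only [Finset.coe_erase, In, Finset.coe_filter, Finset.mem_univ, true_and,
        Set.mem_sdiff, Set.mem_ofPred_eq, Set.mem_singleton_iff, Prod.fst_swap, Prod.snd_swap]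
      refine ⟨⟨hr, he'.2.2, he'.2.1⟩, fun h => ?_⟩
      have e1 : e.2 = a := congrArg Prod.fst h
      have e2 : e.1 = b := congrArg Prod.snd h
      exact hb.2 (e1 ▸ e2 ▸ he'.1)
    · exact fun _ _ _ _ h => Prod.swap_injective h
  have h3 : (a, b) ∈ In := by simp [In, hb.1, ha, hb']
  have h4 := Finset.card_erase_lt_of_mem h3
  omega

theorem bd_next [Finite V] {S : Reg V} (hS : Rot S) (hle : Le S T) {a b : V} (hb : bd S a b) :
    ∃ c, bd S b c := by
  obtain ⟨c, d, h, hc, _⟩ := flow hT hS hle {b} hb (by simpa using he.ne hT hle hb.1) rfl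
  exact ⟨d, hc ▸ h⟩

theorem bd_prev [Finite V] {S : Reg V} (hS : Rot S) (hle : Le S T) {a b : V} (hb : bd S a b) :
    ∃ c, bd S c a := by
  obtain ⟨c, d, h, _, hd⟩ := flow hT hS hle {a}ᶜ hb (by simp)
    (by simpa using (he.ne hT hle hb.1).symm)
  have : d = a := by simpa using hd
  exact ⟨c, this ▸ h⟩

theorem bd_full [Finite V] {S : Reg V} (hS : Rot S) (hle : Le S T) {C : List V} (hn : C.Nodup)
    (h : ∀ a b, bd S a b → Nx C a b) {a₀ b₀ : V} (h0 : bd S a₀ b₀) :
    ∀ a b, Nx C a b → bd S a b := by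
  have := nx_all (P := fun v => ∃ w, bd S v w) (h _ _ h0).mem_left ⟨_, h0⟩ (by
    rintro a b hab ⟨w, hw⟩
    have := (h _ _ hw).succ_uniq hn hab
    subst this
    exact bd_next hT hS hle hw)
  intro a b hab
  obtain ⟨w, hw⟩ := this a hab.mem_left
  rwa [← (h _ _ hw).succ_uniq hn hab]

theorem empty_of_bd [Finite V] {S : Reg V} (hS : Rot S) (hle : Le S T) {C : List V} (hn : C.Nodup)
    (h : ∀ a b, bd S a b → Nx C a b) {a b : V} (hab : Nx C a b) (hn' : ¬ bd S a b) :
    ∀ x y z, ¬ S x y z := by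
  intro x y z hx
  obtain ⟨a₀, b₀, h0⟩ := hT.nz S hS hle ⟨x, y, z, hx⟩
  exact hn' (bd_full hT hS hle hn h h0 a b hab)

/-- simple connectivity is inherited by a part -/
theorem sc_part [Finite V] {D D1 D2 : Reg V} (hle : Le D T) (hsc : SC D)
    (h2 : Rot D2) (hor : ∀ a b c, D a b c ↔ D1 a b c ∨ D2 a b c)
    (hdis : ∀ a b c, D1 a b c → ¬ D2 a b c) {C : List V} (hn : C.Nodup)
    (hb : ∀ a b, bd D2 a b ↔ Nx C a b) {a₀ b₀ : V} (h0 : Nx C a₀ b₀) (h0' : bd D a₀ b₀) :
    SC D1 := by
  have l1 : Le D1 D := fun a b c x => (hor a b c).2 (Or.inl x)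
  have l2 : Le D2 D := fun a b c x => (hor a b c).2 (Or.inr x)
  have nd : ∀ a b, he D1 a b → ¬ he D2 a b := fun a b ⟨c, hc⟩ x =>
    hdis _ _ _ hc (he.mem hT (l2.trans hle) x (hle _ _ _ (l1 _ _ _ hc)))
  intro g hg hl hadj
  obtain ⟨S, hS, hSD, hbd⟩ := hsc g hg hl (fun a b h => (hadj a b h).mono l1)
  have hbd' : ∀ a b, bd S a b → adj D1 a b := fun a b h => by
    rcases hbd with e | e
    · exact hadj _ _ ((e _ _).1 h)
    · exact (hadj _ _ ((e _ _).1 h)).symm
  refine ⟨S, hS, ?_, hbd⟩
  let W : Reg V := fun a b c => S a b c ∧ D2 a b c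
  have hW : Rot W := fun a b c x => ⟨hS _ _ _ x.1, h2 _ _ _ x.2⟩
  have hWT : Le W T := fun a b c x => hle _ _ _ (hSD _ _ _ x.1)
  have hWS : Le W S := fun a b c x => x.1
  have hW2 : Le W D2 := fun a b c x => x.2
  have key := empty_of_bd hT hW hWT hn (a := a₀) (b := b₀) (by
    intro a b hab
    by_cases hr : he D2 b a
    · exfalso
      have : bd S a b := ⟨hab.1.mono hWS, fun x => hab.2 (by
        obtain ⟨c, hc⟩ := hr
        exact ⟨c, he.mem hT (hSD.trans hle) x (hle _ _ _ (l2 _ _ _ hc)), hc⟩)⟩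
      rcases hbd' _ _ this with x | x
      · exact nd _ _ x (hab.1.mono hW2)
      · exact nd _ _ x hr
    · exact (hb _ _).1 ⟨hab.1.mono hW2, hr⟩) h0 (by
    intro hab
    have : bd S a₀ b₀ := ⟨hab.1.mono hWS, fun x => h0'.2 (x.mono hSD)⟩
    rcases hbd' _ _ this with x | x
    · exact nd _ _ x (hab.1.mono hW2)
    · exact h0'.2 (x.mono l1))
  intro a b c x
  rcases (hor a b c).1 (hSD _ _ _ x) with y | y
  · exact y
  · exact absurd ⟨x, y⟩ (key a b c)

end amb

/-- A cell or an empty region with a degenerate boundary. -/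
def WCell (D : Reg V) (C : List V) : Prop := (C.length ≤ 2 ∧ ∀ a b c, ¬ D a b c) ∨ Cell D C

theorem Cell.rotate {D : Reg V} {A B : List V} (h : Cell D (A ++ B)) : Cell D (B ++ A) :=
  ⟨h.rot, List.perm_append_comm.nodup_iff.1 h.nodup, by have := h.len; simp at this ⊢; omega,
    fun a b => by rw [h.bdry, nx_rot], h.sc⟩

theorem WCell.cell {D : Reg V} {C : List V} (h : WCell D C) (hl : 3 ≤ C.length) : Cell D C := by
  rcases h with h | h
  · omega
  · exact h

theorem WCell.rot {D : Reg V} {C : List V} (h : WCell D C) : Rot D := by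
  rcases h with h | h
  · exact fun a b c x => absurd x (h.2 _ _ _)
  · exact h.rot

theorem Cell.vx_of_mem {D : Reg V} {C : List V} (h : Cell D C) {v : V} (hv : v ∈ C) : vx D v := by
  obtain ⟨w, hw⟩ := nx_succ hv
  exact ((h.bdry _ _).2 hw).1.vx_left

theorem Cell.adj_of_nx {D : Reg V} {C : List V} (h : Cell D C) {a b : V} (hv : Nx C a b) :
    adj D a b := Or.inl ((h.bdry _ _).2 hv).1

theorem Cell.he_of_int {D : Reg V} {C : List V} (h : Cell D C) {a b : V} (hab : adj D a b)
    (hv : a ∉ C ∨ b ∉ C) : he D a b := by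
  rcases hab with x | x
  · exact x
  · by_contra hn
    have := (h.bdry _ _).1 ⟨x, hn⟩
    rcases hv with hv | hv
    · exact hv this.mem_right
    · exact hv this.mem_left

theorem split [Finite V] {T : Reg V} (hT : Amb T) {D : Reg V} (hle : Le D T) {x y : V}
    {A B P : List V} (hD : Cell D (x :: A ++ y :: B)) (hP : P.Nodup)
    (hPC : ∀ v ∈ P, v ∉ x :: A ++ y :: B)
    (hch : ∀ a b, Cons (x :: P ++ [y]) a b → adj D a b) :
    ∃ D1 D2 : Reg V, (∀ a b c, D a b c ↔ D1 a b c ∨ D2 a b c) ∧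
      (∀ a b c, D1 a b c → ¬ D2 a b c) ∧
      WCell D1 (x :: A ++ y :: P.reverse) ∧ WCell D2 (y :: B ++ x :: P) := by
  classical
  by_cases hA : P = [] ∧ A = []
  · obtain ⟨rfl, rfl⟩ := hA
    refine ⟨fun _ _ _ => False, D, by simp, by simp, Or.inl (by simp), Or.inr ?_⟩
    exact Cell.rotate (A := [x]) (B := y :: B) hD
  by_cases hB : P = [] ∧ B = []
  · obtain ⟨rfl, rfl⟩ := hB
    exact ⟨D, fun _ _ _ => False, by simp, by simp, Or.inr (by simpa using hD), Or.inl (by simp)⟩
  have hn := hD.nodup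
  have hn1 : (x :: A ++ y :: P.reverse).Nodup := by
    have e : x :: A ++ y :: P.reverse = (x :: A ++ [y]) ++ P.reverse := by simp
    rw [e, List.nodup_append]
    refine ⟨hn.sublist (by simp), List.nodup_reverse.2 hP, ?_⟩
    intro a ha b hb hab
    subst hab
    exact hPC a (List.mem_reverse.1 hb) (by simp at ha ⊢; tauto)
  have hn2 : (y :: B ++ x :: P).Nodup := by
    have e : y :: B ++ x :: P = (y :: B ++ [x]) ++ P := by simp
    rw [e, List.nodup_append]
    have hn' : (y :: B ++ x :: A).Nodup := List.perm_append_comm.nodup_iff.1 hn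
    refine ⟨hn'.sublist (by simp), hP, ?_⟩
    intro a ha b hb hab
    subst hab
    exact hPC a hb (by simp at ha ⊢; tauto)
  have hl1 : 3 ≤ (x :: A ++ y :: P.reverse).length := by
    cases A <;> cases P <;> simp at hA ⊢ <;> omega
  have hl2 : 3 ≤ (y :: B ++ x :: P).length := by
    cases B <;> cases P <;> simp at hB ⊢ <;> omega
  set a1 : V → V → Prop := fun a b => Cons (x :: A ++ [y]) a b with ha1
  set a2 : V → V → Prop := fun a b => Cons (y :: B ++ [x]) a b with ha2
  set pe : V → V → Prop := fun a b => Cons (x :: P ++ [y]) a b with hpe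
  have n0 : ∀ a b, bd D a b ↔ a1 a b ∨ a2 a b := fun a b => by rw [hD.bdry, nx_split]
  have n1 : ∀ a b, Nx (x :: A ++ y :: P.reverse) a b ↔ a1 a b ∨ pe b a := fun a b => by
    rw [nx_split]
    have e : y :: P.reverse ++ [x] = (x :: P ++ [y]).reverse := by simp
    rw [e, cons_reverse]
  have n2 : ∀ a b, Nx (y :: B ++ x :: P) a b ↔ a2 a b ∨ pe a b := fun a b => by
    rw [nx_split]
  have d12 : ∀ a b, a1 a b → ¬ a2 a b := fun a b h1 h2 => by
    have m1 : a ∈ x :: A := h1.left_mem_init
    have m2 : a ∈ y :: B := h2.left_mem_init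
    exact List.disjoint_of_nodup_append hn m1 m2
  have pnb : ∀ a b, pe a b → ¬ bd D a b ∧ ¬ bd D b a := fun a b h => by
    by_cases hP0 : P = []
    · subst hP0
      have : x = a ∧ y = b := by simpa [hpe] using h
      obtain ⟨rfl, rfl⟩ := this
      have hA' : A ≠ [] := fun e => hA ⟨rfl, e⟩
      have hB' : B ≠ [] := fun e => hB ⟨rfl, e⟩
      have hyA : y ∉ x :: A := fun h => List.disjoint_of_nodup_append hn h (by simp)
      have i1 : (x :: A ++ y :: B).idxOf y = A.length + 1 := by
        rw [List.idxOf_append_of_notMem hyA]; simp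
      have i0 : (x :: A ++ y :: B).idxOf x = 0 := by simp
      have lA := List.length_pos_iff.2 hA'
      have lB := List.length_pos_iff.2 hB'
      constructor
      · intro hb
        have := nx_idx hn ((hD.bdry _ _).1 hb)
        rw [i0, i1] at this
        simp only [List.length_append, List.length_cons] at this; omega
      · intro hb
        have := nx_idx hn ((hD.bdry _ _).1 hb)
        rw [i0, i1] at this
        simp only [List.length_append, List.length_cons] at this; omega
    · have : a ∈ P ∨ b ∈ P := by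
        by_contra hc
        push Not at hc
        have m1 : a ∈ x :: P := h.left_mem_init
        have m2 : b ∈ P ++ [y] := Cons.right_mem_tail (s := x) h
        have e1 : a = x := by simpa [hc.1] using m1
        have e2 : b = y := by simpa [hc.2] using m2
        subst e1 e2
        obtain ⟨z, P', rfl⟩ := List.exists_cons_of_ne_nil hP0
        have hnn : (a :: (z :: P') ++ [b]).Nodup := by
          have := List.perm_append_comm.nodup_iff.1 hn2
          exact this.sublist (by simp)
        have := Cons.succ_uniq hnn h (c := z) (by simp)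
        exact hc.2 (by simp [this])
      constructor
      · intro hb
        have hb := (hD.bdry _ _).1 hb
        rcases this with h | h
        · exact hPC _ h hb.mem_left
        · exact hPC _ h hb.mem_right
      · intro hb
        have hb := (hD.bdry _ _).1 hb
        rcases this with h | h
        · exact hPC _ h hb.mem_right
        · exact hPC _ h hb.mem_left
  obtain ⟨p1, q1, e1⟩ : ∃ a b, a1 a b := by
    obtain ⟨b, hb⟩ := exists_cons_succ (l := x :: A) (e := y) (a := x) (by simp)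
    exact ⟨x, b, hb⟩
  obtain ⟨p2, q2, e2⟩ : ∃ a b, a2 a b := by
    obtain ⟨b, hb⟩ := exists_cons_succ (l := y :: B) (e := x) (a := y) (by simp)
    exact ⟨y, b, hb⟩
  obtain ⟨S, hS, hSD, hbd⟩ := hD.sc _ hn1 hl1 (fun a b h => by
    rcases (n1 _ _).1 h with h | h
    · exact Or.inl ((n0 _ _).2 (Or.inl h)).1
    · exact (hch _ _ h).symm)
  have hbd : ∀ a b, bd S a b ↔ Nx (x :: A ++ y :: P.reverse) a b := by
    rcases hbd with h | h
    · exact h
    · exfalso
      have := (h q1 p1).2 ((n1 _ _).2 (Or.inl e1))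
      exact ((n0 _ _).2 (Or.inl e1)).2 (this.1.mono hSD)
  let D2 : Reg V := fun a b c => D a b c ∧ ¬ S a b c
  have hD2 : Rot D2 := fun a b c h => ⟨hD.rot _ _ _ h.1, fun s => h.2 (hS.two s)⟩
  have hST := hSD.trans hle
  have hor : ∀ a b c, D a b c ↔ S a b c ∨ D2 a b c := fun a b c => by
    constructor
    · intro h; by_cases s : S a b c
      · exact Or.inl s
      · exact Or.inr ⟨h, s⟩
    · rintro (h | h)
      · exact hSD _ _ _ h
      · exact h.1
  have he2 : ∀ a b, he D2 a b ↔ he D a b ∧ ¬ he S a b := fun a b => by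
    constructor
    · rintro ⟨c, h1, h2⟩
      exact ⟨⟨c, h1⟩, fun s => h2 (he.mem hT hST s (hle _ _ _ h1))⟩
    · rintro ⟨⟨c, h1⟩, h2⟩
      exact ⟨c, h1, fun s => h2 ⟨c, s⟩⟩
  have hbd2 : ∀ a b, bd D2 a b ↔ Nx (y :: B ++ x :: P) a b := fun a b => by
    rw [n2]
    simp only [bd, he2]
    constructor
    · rintro ⟨⟨h1, h2⟩, h3⟩
      by_cases hr : he D b a
      · have s : he S b a := by by_contra s; exact h3 ⟨hr, s⟩
        rcases (n1 _ _).1 ((hbd _ _).1 ⟨s, h2⟩) with h | h
        · exact absurd h1 ((n0 _ _).2 (Or.inl h)).2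
        · exact Or.inr h
      · rcases (n0 _ _).1 ⟨h1, hr⟩ with h | h
        · exact absurd ((hbd _ _).2 ((n1 _ _).2 (Or.inl h))).1 h2
        · exact Or.inl h
    · rintro (h | h)
      · have hb := (n0 _ _).2 (Or.inr h)
        refine ⟨⟨hb.1, fun s => ?_⟩, fun r => hb.2 r.1⟩
        rcases (n1 _ _).1 ((hbd _ _).1 ⟨s, fun r => hb.2 (r.mono hSD)⟩) with h' | h'
        · exact d12 _ _ h' h
        · exact (pnb _ _ h').2 hb
      · have hb := (hbd _ _).2 ((n1 b a).2 (Or.inr h))
        refine ⟨⟨?_, hb.2⟩, fun r => r.2 hb.1⟩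
        by_contra hn'
        exact (pnb _ _ h).2 ⟨hb.1.mono hSD, hn'⟩
  refine ⟨S, D2, hor, fun a b c s d => d.2 s, Or.inr ⟨hS, hn1, hl1, hbd, ?_⟩,
    Or.inr ⟨hD2, hn2, hl2, hbd2, ?_⟩⟩
  · exact sc_part hT hle hD.sc hD2 hor (fun a b c s d => d.2 s) hn2 hbd2
      ((n2 _ _).2 (Or.inl e2)) ((n0 _ _).2 (Or.inr e2))
  · exact sc_part hT hle hD.sc hS (fun a b c => by rw [hor]; tauto) (fun a b c d s => d.2 s) hn1 hbd
      ((n1 _ _).2 (Or.inl e1)) ((n0 _ _).2 (Or.inl e1))

end Pool.Agent.MP_d347ac_co
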