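import Pool.Agent.MP_d347ac_co.Cell

set_option autoImplicit false

namespace Pool.Agent.MP_d347ac_co

/-- list of consecutive pairs -/
def prs : List ℕ → List (ℕ × ℕ)
  | x :: y :: l => (x, y) :: prs (y :: l)
  | _ => []

theorem mem_prs (l : List ℕ) (a b : ℕ) : (a, b) ∈ prs l ↔ Cons l a b := by
  induction l with
  | nil => simp [prs]
  | cons x l ih =>
    cases l with
    | nil => simp [prs]
    | cons y l => simp [prs, ih, eq_comm]

theorem prs_append (L : List ℕ) (y : ℕ) (R : List ℕ) :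
    prs (L ++ y :: R) = prs (L ++ [y]) ++ prs (y :: R) := by
  induction L with
  | nil => simp [prs]
  | cons x L ih =>
    cases L with
    | nil => simp [prs]
    | cons z L => simp only [List.cons_append, prs] at ih ⊢; rw [ih]

/-- State of the incremental construction; `G` is the closed frontier walk. -/
structure St (T : Reg ℕ) (E : ℕ → ℕ → Prop) (G : List ℕ) : Prop where
  amb : Amb T
  tE : ∀ a b c, T a b c → E a b
  symm : ∀ a b, E a b → E b a
  irr : ∀ a, ¬ E a a
  pE : ∀ a b, Cons G a b → E a b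
  free : ∀ a b, E a b → (he T a b ↔ ¬ Cons G b a)
  nd : (prs G).Nodup
  sc : ∀ K : ℕ, (∀ a b, E a b → b < K) → ∀ φ : ℕ → ℕ → ZMod 2, (∀ a b, φ a b = φ b a) →
    (∀ a b, ¬ E a b → φ a b = 0) → (∀ a, ∑ b ∈ Finset.range K, φ a b = 0) →
    ∃ χ : ℕ → ℕ → ZMod 2, (∀ a b, ¬ he T a b → χ a b = 0) ∧ (∀ a b c, T a b c → χ a b = χ b c) ∧
      ∀ a b, φ a b = χ a b + χ b a
  fin : ∃ K, ∀ a b, E a b → b < K

def addE (E : ℕ → ℕ → Prop) (u w : ℕ) : ℕ → ℕ → Prop :=
  fun x y => E x y ∨ (x = u ∧ y = w) ∨ (x = w ∧ y = u)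

theorem St.init (b t : ℕ) (h : b ≠ t) :
    St (fun _ _ _ => False) (addE (fun _ _ => False) b t) [b, t, b] := by
  refine ⟨⟨by simp [Rot], by simp, by simp, fun S _ hle ⟨a, b, c, h⟩ => (hle _ _ _ h).elim⟩,
    by simp, ?_, ?_, ?_, ?_, ?_, ?_, ⟨b + t + 1, ?_⟩⟩
  · simp only [addE]; tauto
  · intro a; simp only [addE, false_or]; omega
  · intro x y; simp only [addE, cons_cons, cons_single, false_or, or_false]; omega
  · intro x y; simp only [addE, cons_cons, cons_single, he]; simp; omega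
  · simp [prs, h]
  · intro K hK φ hs h0 hd
    refine ⟨fun _ _ => 0, by simp, by simp, fun x y => ?_⟩
    have : φ b t = 0 := by
      rw [← hd b, Finset.sum_eq_single t]
      · intro y _ hy; apply h0; simp only [addE, false_or]; omega
      · intro ht; exact absurd (Finset.mem_range.2 (hK b t (by simp [addE]))) ht
    by_cases e : addE (fun _ _ => False) b t x y
    · rcases e with e | ⟨rfl, rfl⟩ | ⟨rfl, rfl⟩
      · exact e.elim
      · simpa using this
      · simpa [hs x y] using this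
    · simpa using h0 _ _ e
  · intro x y; simp only [addE, false_or]; omega

theorem St.pend {T : Reg ℕ} {E : ℕ → ℕ → Prop} {L R : List ℕ} {a w : ℕ}
    (h : St T E (L ++ a :: R)) (hw : ∀ x, ¬ E w x) (hwa : w ≠ a) :
    St T (addE E a w) (L ++ a :: w :: a :: R) := by
  have hw' : ∀ x, ¬ E x w := fun x e => hw x (h.symm _ _ e)
  have ec : ∀ x y, Cons (L ++ a :: w :: a :: R) x y ↔
      Cons (L ++ a :: R) x y ∨ (a = x ∧ w = y) ∨ (w = x ∧ a = y) := fun x y => by
    rw [cons_append_cons, cons_append_cons L a R]; simp only [cons_cons]; tauto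
  refine ⟨h.amb, fun x y z t => Or.inl (h.tE _ _ _ t), ?_, ?_, ?_, ?_, ?_, ?_, ?_⟩
  · rintro x y (e | e | e)
    · exact Or.inl (h.symm _ _ e)
    · exact Or.inr (Or.inr e.symm)
    · exact Or.inr (Or.inl e.symm)
  · rintro x (e | e | e)
    · exact h.irr _ e
    · omega
    · omega
  · intro x y c
    rcases (ec _ _).1 c with c | c | c
    · exact Or.inl (h.pE _ _ c)
    · exact Or.inr (Or.inl ⟨c.1.symm, c.2.symm⟩)
    · exact Or.inr (Or.inr ⟨c.1.symm, c.2.symm⟩)
  · rintro x y (e | ⟨rfl, rfl⟩ | ⟨rfl, rfl⟩)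
    · rw [h.free _ _ e, ec]
      have h1 : w ≠ x := fun q => hw y (q ▸ e)
      have h2 : w ≠ y := fun q => hw' x (q ▸ e)
      tauto
    · rw [ec]
      exact ⟨fun ⟨c, t⟩ => absurd (h.tE _ _ _ t) (hw' _), fun q => absurd (by tauto) q⟩
    · rw [ec]
      exact ⟨fun ⟨c, t⟩ => absurd (h.tE _ _ _ t) (hw _), fun q => absurd (by tauto) q⟩
  · have nd := h.nd
    have n1 : (a, w) ∉ prs (L ++ a :: R) := fun q => hw' _ (h.pE _ _ ((mem_prs _ _ _).1 q))
    have n2 : (w, a) ∉ prs (L ++ a :: R) := fun q => hw _ (h.pE _ _ ((mem_prs _ _ _).1 q))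
    rw [prs_append] at nd n1 n2 ⊢
    have : (prs (L ++ [a]) ++ prs (a :: w :: a :: R)).Perm
        ((a, w) :: (w, a) :: (prs (L ++ [a]) ++ prs (a :: R))) := by
      simp only [prs]
      exact List.perm_middle.trans (List.Perm.cons _ List.perm_middle)
    rw [this.nodup_iff, List.nodup_cons, List.nodup_cons]
    refine ⟨?_, n2, nd⟩
    rw [List.mem_cons]
    rintro (q | q)
    · simp at q; omega
    · exact n1 q
  · intro K hK φ hs h0 hd
    have z : φ w a = 0 := by
      rw [← hd w, Finset.sum_eq_single a]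
      · intro y _ hy
        apply h0
        rintro (e | e | e)
        · exact hw _ e
        · exact hwa e.1
        · exact hy e.2
      · intro ht; exact absurd (Finset.mem_range.2 (hK w a (by simp [addE]))) ht
    refine h.sc K (fun x y e => hK x y (Or.inl e)) φ hs (fun x y e => ?_) hd
    by_cases q : addE E a w x y
    · rcases q with q | ⟨rfl, rfl⟩ | ⟨rfl, rfl⟩
      · exact absurd q e
      · rw [hs]; exact z
      · exact z
    · exact h0 _ _ q
  · obtain ⟨K, hK⟩ := h.fin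
    refine ⟨K + a + w + 1, ?_⟩
    rintro x y (e | e | e)
    · have := hK _ _ e; omega
    · omega
    · omega

def tri (p q r : ℕ) : Reg ℕ := fun x y z =>
  (x = p ∧ y = q ∧ z = r) ∨ (x = q ∧ y = r ∧ z = p) ∨ (x = r ∧ y = p ∧ z = q)

theorem St.ear {T : Reg ℕ} {E : ℕ → ℕ → Prop} {L R : List ℕ} {w a b : ℕ}
    (h : St T E (L ++ w :: a :: b :: R)) (hwb : w ≠ b) (hE : ¬ E w b) :
    St (fun x y z => T x y z ∨ tri b a w x y z) (addE E w b) (L ++ w :: b :: R) := by
  classical
  have c1 : Cons (L ++ w :: a :: b :: R) w a := (cons_iff _ _ _).2 ⟨L, b :: R, rfl⟩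
  have c2 : Cons (L ++ w :: a :: b :: R) a b := (cons_iff _ _ _).2 ⟨L ++ [w], R, by simp⟩
  have e1 := h.pE _ _ c1
  have e2 := h.pE _ _ c2
  have hwa : w ≠ a := fun q => h.irr a (q ▸ e1)
  have hab : a ≠ b := fun q => h.irr a (q ▸ e2)
  have f1 : ¬ he T a w := fun q => (h.free _ _ (h.symm _ _ e1)).1 q c1
  have f2 : ¬ he T b a := fun q => (h.free _ _ (h.symm _ _ e2)).1 q c2
  have f3 : ¬ he T w b := fun ⟨c, t⟩ => hE (h.tE _ _ _ t)
  have f4 : ¬ he T b w := fun ⟨c, t⟩ => hE (h.symm _ _ (h.tE _ _ _ t))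
  have nd := h.nd
  rw [prs_append] at nd
  have pm : (prs (L ++ [w]) ++ prs (w :: a :: b :: R)).Perm
      ((w, a) :: (a, b) :: (prs (L ++ [w]) ++ prs (b :: R))) := by
    simp only [prs]
    exact List.perm_middle.trans (List.Perm.cons _ List.perm_middle)
  rw [pm.nodup_iff, List.nodup_cons, List.nodup_cons] at nd
  obtain ⟨nd1, nd2, nd3⟩ := nd
  simp only [List.mem_cons, List.mem_append, mem_prs, not_or] at nd1 nd2
  have eo : ∀ x y, Cons (L ++ w :: a :: b :: R) x y ↔
      Cons (L ++ [w]) x y ∨ (w = x ∧ a = y) ∨ (a = x ∧ b = y) ∨ Cons (b :: R) x y := fun x y => by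
    rw [cons_append_cons]; simp only [cons_cons]
  have en : ∀ x y, Cons (L ++ w :: b :: R) x y ↔
      Cons (L ++ [w]) x y ∨ (w = x ∧ b = y) ∨ Cons (b :: R) x y := fun x y => by
    rw [cons_append_cons]; simp only [cons_cons]
  have heN : ∀ x y, he (fun x y z => T x y z ∨ tri b a w x y z) x y ↔
      he T x y ∨ (x = b ∧ y = a) ∨ (x = a ∧ y = w) ∨ (x = w ∧ y = b) := fun x y => by
    simp only [he, tri, exists_or]
    constructor
    · rintro (q | ⟨c, q⟩ | ⟨c, q⟩ | ⟨c, q⟩) <;> tauto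
    · rintro (q | q | q | q)
      · exact Or.inl q
      · exact Or.inr (Or.inl ⟨w, q.1, q.2, rfl⟩)
      · exact Or.inr (Or.inr (Or.inl ⟨b, q.1, q.2, rfl⟩))
      · exact Or.inr (Or.inr (Or.inr ⟨a, q.1, q.2, rfl⟩))
  have ntri : ∀ x y z, tri b a w x y z → ¬ he T x y := by
    rintro x y z (⟨rfl, rfl, rfl⟩ | ⟨rfl, rfl, rfl⟩ | ⟨rfl, rfl, rfl⟩) <;> assumption
  refine ⟨⟨?_, ?_, ?_, ?_⟩, ?_, ?_, ?_, ?_, ?_, ?_, ?_, ?_⟩
  · rintro x y z (t | t)
    · exact Or.inl (h.amb.rot _ _ _ t)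
    · right; unfold tri at t ⊢; tauto
  · rintro x y z (t | t)
    · exact h.amb.ne _ _ _ t
    · unfold tri at t; omega
  · rintro x y z z' (t | t) (t' | t')
    · exact h.amb.uniq _ _ _ _ t t'
    · exact absurd ⟨z, t⟩ (ntri _ _ _ t')
    · exact absurd ⟨z', t'⟩ (ntri _ _ _ t)
    · unfold tri at t t'; omega
  · intro S hS hle hne
    by_cases q : S w b a
    · refine ⟨w, b, ⟨a, q⟩, fun r => ?_⟩
      rcases (heN _ _).1 (r.mono hle) with r | r | r | r
      · exact f4 r
      · exact hwa r.2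
      · exact hab r.1.symm
      · exact hwb r.2
    · refine h.amb.nz S hS (fun x y z s => ?_) hne
      rcases hle _ _ _ s with t | (⟨rfl, rfl, rfl⟩ | ⟨rfl, rfl, rfl⟩ | ⟨rfl, rfl, rfl⟩)
      · exact t
      · exact absurd (hS.two s) q
      · exact absurd (hS _ _ _ s) q
      · exact absurd s q
  · rintro x y z (t | (⟨rfl, rfl, rfl⟩ | ⟨rfl, rfl, rfl⟩ | ⟨rfl, rfl, rfl⟩))
    · exact Or.inl (h.tE _ _ _ t)
    · exact Or.inl (h.symm _ _ e2)
    · exact Or.inl (h.symm _ _ e1)
    · exact Or.inr (Or.inl ⟨rfl, rfl⟩)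
  · rintro x y (e | e | e)
    · exact Or.inl (h.symm _ _ e)
    · exact Or.inr (Or.inr e.symm)
    · exact Or.inr (Or.inl e.symm)
  · rintro x (e | e | e)
    · exact h.irr _ e
    · omega
    · omega
  · intro x y c
    rcases (en _ _).1 c with c | c | c
    · exact Or.inl (h.pE _ _ ((eo _ _).2 (Or.inl c)))
    · exact Or.inr (Or.inl ⟨c.1.symm, c.2.symm⟩)
    · exact Or.inl (h.pE _ _ ((eo _ _).2 (Or.inr (Or.inr (Or.inr c)))))
  · rintro x y (e | ⟨rfl, rfl⟩ | ⟨rfl, rfl⟩)
    · rw [heN, h.free _ _ e, en, eo]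
      have q1 : ¬ (x = w ∧ y = b) := by rintro ⟨rfl, rfl⟩; exact hE e
      have q2 : ¬ (w = y ∧ b = x) := by rintro ⟨rfl, rfl⟩; exact hE (h.symm _ _ e)
      by_cases p1 : x = b ∧ y = a
      · obtain ⟨rfl, rfl⟩ := p1
        refine ⟨fun _ => ?_, fun _ => Or.inr (Or.inl ⟨rfl, rfl⟩)⟩
        rintro (q | q | q)
        · exact nd2.1 q
        · exact q2 q
        · exact nd2.2 q
      by_cases p2 : x = a ∧ y = w
      · obtain ⟨rfl, rfl⟩ := p2
        refine ⟨fun _ => ?_, fun _ => Or.inr (Or.inr (Or.inl ⟨rfl, rfl⟩))⟩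
        rintro (q | q | q)
        · exact nd1.2.1 q
        · exact q2 q
        · exact nd1.2.2 q
      have p1' : ¬ (a = y ∧ b = x) := fun q => p1 ⟨q.2.symm, q.1.symm⟩
      have p2' : ¬ (w = y ∧ a = x) := fun q => p2 ⟨q.2.symm, q.1.symm⟩
      simp only [p1, p2, q1, q2, p1', p2', or_false, false_or]
    · rw [heN, en]
      have q1 : ¬ Cons (L ++ [x]) y x := fun q =>
        hE (h.symm _ _ (h.pE _ _ ((eo _ _).2 (Or.inl q))))
      have q2 : ¬ Cons (y :: R) y x := fun q =>
        hE (h.symm _ _ (h.pE _ _ ((eo _ _).2 (Or.inr (Or.inr (Or.inr q))))))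
      refine ⟨fun _ => ?_, fun _ => Or.inr (Or.inr (Or.inr ⟨rfl, rfl⟩))⟩
      rintro (q | q | q)
      · exact q1 q
      · exact hwb q.1
      · exact q2 q
    · rw [heN, en]
      refine ⟨?_, fun q => absurd (Or.inr (Or.inl ⟨rfl, rfl⟩)) q⟩
      rintro (q | q | q | q)
      · exact absurd q f4
      · exact absurd q.2 hwa
      · exact absurd q.1.symm hab
      · exact absurd q.2 hwb
  · rw [prs_append]
    have : (prs (L ++ [w]) ++ prs (w :: b :: R)).Perm
        ((w, b) :: (prs (L ++ [w]) ++ prs (b :: R))) := by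
      simp only [prs]
      exact List.perm_middle
    rw [this.nodup_iff, List.nodup_cons]
    refine ⟨?_, nd3⟩
    simp only [List.mem_append, mem_prs]
    rintro (q | q)
    · exact hE (h.pE _ _ ((eo _ _).2 (Or.inl q)))
    · exact hE (h.pE _ _ ((eo _ _).2 (Or.inr (Or.inr (Or.inr q)))))
  · intro K hK φ hs h0 hd
    let k := φ w b
    let ι : ℕ → ℕ → ZMod 2 := fun x y =>
      if (x = b ∧ y = a) ∨ (x = a ∧ y = w) ∨ (x = w ∧ y = b) then k else 0
    have hKa : a < K := hK _ _ (Or.inl e1)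
    have hKb : b < K := hK _ _ (Or.inl e2)
    have hKw : w < K := hK _ _ (Or.inl (h.symm _ _ e1))
    have two : ∀ t : ZMod 2, t + t = 0 := by decide
    obtain ⟨χ, x1, x2, x3⟩ := h.sc K (fun x y e => hK x y (Or.inl e))
      (fun x y => φ x y + ι x y + ι y x) (fun x y => by rw [hs x y]; ring) (fun x y e => by
        have q1 : ¬ (x = b ∧ y = a) := by rintro ⟨rfl, rfl⟩; exact e (h.symm _ _ e2)
        have q2 : ¬ (x = a ∧ y = w) := by rintro ⟨rfl, rfl⟩; exact e (h.symm _ _ e1)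
        have q3 : ¬ (y = b ∧ x = a) := by rintro ⟨rfl, rfl⟩; exact e e2
        have q4 : ¬ (y = a ∧ x = w) := by rintro ⟨rfl, rfl⟩; exact e e1
        by_cases p1 : x = w ∧ y = b
        · obtain ⟨rfl, rfl⟩ := p1
          simp [ι, hwb, hwa, hab.symm, hwb.symm, k, two]
        by_cases p2 : y = w ∧ x = b
        · obtain ⟨rfl, rfl⟩ := p2
          simp [ι, hwb, hwa, hab.symm, hwb.symm, k, two, hs x y]
        have : φ x y = 0 := h0 _ _ (by
          rintro (q | q | q)
          · exact e q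
          · exact p1 q
          · exact p2 q.symm)
        simp [ι, q1, q2, q3, q4, p1, p2, this]) (fun x => by
        rw [Finset.sum_add_distrib, Finset.sum_add_distrib, hd, zero_add]
        by_cases p1 : x = b
        · subst p1
          rw [Finset.sum_eq_single a, Finset.sum_eq_single w]
          · simp [ι, two]
          · intro y _ hy; simp [ι, hy, hab.symm, hwb.symm]
          · intro q; exact absurd (Finset.mem_range.2 hKw) q
          · intro y _ hy; simp [ι, hy, hab.symm, hwb.symm]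
          · intro q; exact absurd (Finset.mem_range.2 hKa) q
        by_cases p2 : x = a
        · subst p2
          rw [Finset.sum_eq_single w, Finset.sum_eq_single b]
          · simp [ι, two]
          · intro y _ hy; simp [ι, hy, hab, hwa.symm]
          · intro q; exact absurd (Finset.mem_range.2 hKb) q
          · intro y _ hy; simp [ι, hy, hab, hwa.symm]
          · intro q; exact absurd (Finset.mem_range.2 hKw) q
        by_cases p3 : x = w
        · subst p3
          rw [Finset.sum_eq_single b, Finset.sum_eq_single a]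
          · simp [ι, two]
          · intro y _ hy; simp [ι, hy, hwa, hwb]
          · intro q; exact absurd (Finset.mem_range.2 hKa) q
          · intro y _ hy; simp [ι, hy, hwa, hwb]
          · intro q; exact absurd (Finset.mem_range.2 hKb) q
        simp [ι, p1, p2, p3])
    refine ⟨fun x y => χ x y + ι x y, fun x y q => ?_, ?_, fun x y => ?_⟩
    · rw [heN] at q
      show χ x y + ι x y = 0
      rw [x1 _ _ (fun r => q (Or.inl r))]
      simp only [ι]
      rw [if_neg (fun r => q (Or.inr r))]; simp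
    · rintro x y z (t | t)
      · have n1 : ¬ ((x = b ∧ y = a) ∨ (x = a ∧ y = w) ∨ (x = w ∧ y = b)) := by
          rintro (⟨rfl, rfl⟩ | ⟨rfl, rfl⟩ | ⟨rfl, rfl⟩)
          · exact f2 ⟨_, t⟩
          · exact f1 ⟨_, t⟩
          · exact f3 ⟨_, t⟩
        have t' := h.amb.rot _ _ _ t
        have n2 : ¬ ((y = b ∧ z = a) ∨ (y = a ∧ z = w) ∨ (y = w ∧ z = b)) := by
          rintro (⟨rfl, rfl⟩ | ⟨rfl, rfl⟩ | ⟨rfl, rfl⟩)
          · exact f2 ⟨_, t'⟩
          · exact f1 ⟨_, t'⟩
          · exact f3 ⟨_, t'⟩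
        simp only [ι, if_neg n1, if_neg n2, x2 _ _ _ t]
      · have t' : tri b a w y z x := by unfold tri at t ⊢; tauto
        simp only [x1 _ _ (ntri _ _ _ t), x1 _ _ (ntri _ _ _ t'), ι]
        rw [if_pos (by unfold tri at t; tauto), if_pos (by unfold tri at t; tauto)]
    · have := x3 x y
      have e : φ x y = (φ x y + ι x y + ι y x) + ι x y + ι y x := by
        have := two (ι x y); have := two (ι y x); grind
      rw [e, this]; ring
  · obtain ⟨K, hK⟩ := h.fin
    refine ⟨K + w + b + 1, ?_⟩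
    rintro x y (e | e | e)
    · have := hK _ _ e; omega
    · omega
    · omega

theorem St.ears {L R : List ℕ} {w z : ℕ} (M : List ℕ) :
    ∀ {T : Reg ℕ} {E : ℕ → ℕ → Prop} {a : ℕ}, St T E (L ++ w :: a :: (M ++ z :: R)) →
    (M ++ [z]).Nodup → (∀ x ∈ M ++ [z], ¬ E w x ∧ x ≠ w) →
    ∃ T' E', St T' E' (L ++ w :: z :: R) ∧
      ∀ x y, E' x y ↔ E x y ∨ (x = w ∧ y ∈ M ++ [z]) ∨ (y = w ∧ x ∈ M ++ [z]) := by
  induction M with
  | nil =>
    intro T E a h _ hx
    have := hx z (by simp)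
    exact ⟨_, _, h.ear this.2.symm this.1, fun x y => by simp only [addE]; simp; tauto⟩
  | cons m M ih =>
    intro T E a h hn hx
    have := hx m (by simp)
    have hn' : m ∉ M ++ [z] ∧ (M ++ [z]).Nodup := List.nodup_cons.1 hn
    obtain ⟨T', E', h', e⟩ := ih (h.ear this.2.symm this.1) hn'.2 (fun x hx' => by
      have := hx x (List.mem_cons_of_mem _ hx')
      refine ⟨?_, this.2⟩
      rintro (q | q | q)
      · exact this.1 q
      · exact hn'.1 (q.2 ▸ hx')
      · exact this.2 q.2)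
    refine ⟨T', E', h', fun x y => ?_⟩
    rw [e]; simp only [addE, List.cons_append, List.mem_cons]; tauto

theorem St.cone {T : Reg ℕ} {E : ℕ → ℕ → Prop} {L M R : List ℕ} {g z w : ℕ}
    (h : St T E (L ++ g :: (M ++ z :: R))) (hn : (g :: (M ++ [z])).Nodup) (hw : ∀ x, ¬ E w x) :
    (∀ x ∈ g :: (M ++ [z]), ∃ y, E x y) ∧ ∃ T' E', St T' E' (L ++ g :: w :: z :: R) ∧
      ∀ x y, E' x y ↔ E x y ∨ (x = w ∧ y ∈ g :: (M ++ [z])) ∨ (y = w ∧ x ∈ g :: (M ++ [z])) := by
  have us : ∀ x ∈ g :: (M ++ [z]), ∃ y, E x y := by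
    have sub : ∀ a b, Cons (g :: (M ++ [z])) a b → E a b := fun a b c => h.pE a b (by
      have := (c.append_left L).append_right R
      simpa using this)
    intro x hx
    rcases List.mem_cons.1 hx with rfl | hx
    · obtain ⟨y, hy⟩ := exists_cons_succ (l := x :: M) (e := z) (a := x) (by simp)
      exact ⟨y, sub _ _ hy⟩
    · obtain ⟨y, hy⟩ := exists_cons_pred (s := g) hx
      exact ⟨y, h.symm _ _ (sub _ _ hy)⟩
  have ne : ∀ x ∈ g :: (M ++ [z]), x ≠ w := fun x hx q => by
    obtain ⟨y, hy⟩ := us x hx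
    exact hw y (q ▸ hy)
  refine ⟨us, ?_⟩
  have h1 := h.pend hw (ne g (by simp)).symm
  have hn' := List.nodup_cons.1 hn
  obtain ⟨T', E', h', e⟩ := St.ears (L := L ++ [g]) (R := R) (w := w) (z := z) M (a := g)
    (by simpa using h1) hn'.2 (fun x hx => by
      refine ⟨?_, ne x (List.mem_cons_of_mem _ hx)⟩
      rintro (q | q | q)
      · exact hw _ q
      · exact ne g (by simp) q.1.symm
      · exact hn'.1 (q.2 ▸ hx))
  refine ⟨T', E', by simpa using h', fun x y => ?_⟩
  rw [e]; simp only [addE, List.mem_cons]; tauto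

end Pool.Agent.MP_d347ac_co
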