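import Pool.Agent.MP_d347ac_co.Cone

set_option autoImplicit false

namespace Pool.Agent.MP_d347ac_co

/-- restriction of a region on the naturals to `Fin K` -/
def res (K : ℕ) (T : Reg ℕ) : Reg (Fin K) := fun a b c => T a.val b.val c.val

section
variable {T : Reg ℕ} {E : ℕ → ℕ → Prop} {G : List ℕ} {K : ℕ}

theorem St.he_res (h : St T E G) (hK : ∀ a b, E a b → b < K) (a b : Fin K) :
    he (res K T) a b ↔ he T a.val b.val := by
  constructor
  · rintro ⟨c, t⟩; exact ⟨_, t⟩
  · rintro ⟨c, t⟩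
    exact ⟨⟨c, hK _ _ (h.tE _ _ _ (h.amb.rot _ _ _ t))⟩, t⟩

theorem St.amb_res (h : St T E G) : Amb (res K T) := by
  refine ⟨fun a b c t => h.amb.rot _ _ _ t, fun a b c t q => h.amb.ne _ _ _ t (congrArg _ q),
    fun a b c c' t t' => Fin.ext (h.amb.uniq _ _ _ _ t t'), ?_⟩
  rintro S hS hle ⟨a, b, c, s⟩
  let S' : Reg ℕ := fun x y z => ∃ a b c : Fin K, a.val = x ∧ b.val = y ∧ c.val = z ∧ S a b c
  obtain ⟨x, y, ⟨z, a, b, c, rfl, rfl, rfl, s⟩, q⟩ := h.amb.nz S'
    (by rintro _ _ _ ⟨a, b, c, rfl, rfl, rfl, s⟩; exact ⟨b, c, a, rfl, rfl, rfl, hS _ _ _ s⟩)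
    (by rintro _ _ _ ⟨a, b, c, rfl, rfl, rfl, s⟩; exact hle _ _ _ s)
    ⟨_, _, _, a, b, c, rfl, rfl, rfl, s⟩
  exact ⟨a, b, ⟨c, s⟩, fun ⟨d, s'⟩ => q ⟨_, b, a, d, rfl, rfl, rfl, s'⟩⟩

theorem St.sc_res (h : St T E G) (hK : ∀ a b, E a b → b < K) : SC (res K T) := by
  classical
  intro g hn hl hadj
  have hA : Amb (res K T) := h.amb_res
  let P : ℕ → ℕ → Prop := fun x y =>
    ∃ a b : Fin K, a.val = x ∧ b.val = y ∧ (Nx g a b ∨ Nx g b a)
  have hP : ∀ a b : Fin K, P a.val b.val ↔ (Nx g a b ∨ Nx g b a) := fun a b => by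
    constructor
    · rintro ⟨a', b', e1, e2, q⟩
      rwa [Fin.ext e1, Fin.ext e2] at q
    · exact fun q => ⟨a, b, rfl, rfl, q⟩
  have aE : ∀ a b : Fin K, adj (res K T) a b → E a.val b.val := by
    rintro a b (⟨c, t⟩ | ⟨c, t⟩)
    · exact h.tE _ _ _ t
    · exact h.symm _ _ (h.tE _ _ _ t)
  obtain ⟨χ, x1, x2, x3⟩ := h.sc K hK (fun x y => if P x y then 1 else 0)
    (fun x y => by
      have : P x y ↔ P y x := by
        constructor <;> rintro ⟨a, b, e1, e2, q⟩ <;> exact ⟨b, a, e2, e1, q.symm⟩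
      simp only [this])
    (fun x y e => by
      rw [if_neg]
      rintro ⟨a, b, rfl, rfl, q | q⟩
      · exact e (aE _ _ (hadj _ _ q))
      · exact e (h.symm _ _ (aE _ _ (hadj _ _ q))))
    (fun x => by
      by_cases hx : ∃ a ∈ g, a.val = x
      · obtain ⟨a, ha, rfl⟩ := hx
        obtain ⟨s, hs⟩ := nx_succ ha
        obtain ⟨r, hr⟩ := nx_pred ha
        have hsr : s ≠ r := fun q => hs.asymm hn hl (q ▸ hr)
        have : ∀ y ∈ Finset.range K, (if P a.val y then (1 : ZMod 2) else 0) =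
            (if s.val = y then 1 else 0) + (if r.val = y then 1 else 0) := fun y hy => by
          obtain ⟨b, rfl⟩ : ∃ b : Fin K, b.val = y := ⟨⟨y, Finset.mem_range.1 hy⟩, rfl⟩
          simp only [hP, Fin.val_inj]
          by_cases q1 : s = b
          · subst q1
            simp [hs, hsr.symm]
          by_cases q2 : r = b
          · subst q2
            simp [hr, hsr]
          rw [if_neg, if_neg q1, if_neg q2, add_zero]
          rintro (q | q)
          · exact q1 (hs.succ_uniq hn q)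
          · exact q2 (hr.pred_uniq hn q)
        rw [Finset.sum_congr rfl this, Finset.sum_add_distrib, Finset.sum_ite_eq,
          Finset.sum_ite_eq]
        simp only [Finset.mem_range, Fin.is_lt, if_true]
        decide
      · refine Finset.sum_eq_zero fun y _ => ?_
        rw [if_neg]
        rintro ⟨a, b, rfl, rfl, q | q⟩
        · exact hx ⟨a, q.mem_left, rfl⟩
        · exact hx ⟨a, q.mem_right, rfl⟩)
  let S : Reg (Fin K) := fun a b c => res K T a b c ∧ χ a.val b.val = 1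
  have hS : Rot S := fun a b c s => ⟨hA.rot _ _ _ s.1, by rw [← x2 _ _ _ s.1]; exact s.2⟩
  have hle : Le S (res K T) := fun a b c s => s.1
  have hh : ∀ a b : Fin K, he S a b ↔ χ a.val b.val = 1 := fun a b => by
    constructor
    · rintro ⟨c, s⟩; exact s.2
    · intro q
      by_cases r : he T a.val b.val
      · obtain ⟨c, t⟩ := (h.he_res hK a b).2 r
        exact ⟨c, t, q⟩
      · rw [x1 _ _ r] at q; exact absurd q (by decide)
  have z1 : ∀ s t : ZMod 2, s = 1 → ¬ t = 1 → s + t ≠ 0 := by decide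
  have z2 : ∀ s t : ZMod 2, 1 = s + t → (s = 1 ∧ ¬ t = 1) ∨ (t = 1 ∧ ¬ s = 1) := by decide
  have b1 : ∀ a b, bd S a b → Nx g a b ∨ Nx g b a := fun a b q => by
    have q1 := (hh _ _).1 q.1
    have q2 := fun r => q.2 ((hh _ _).2 r)
    have := x3 a.val b.val
    rw [← hP]
    by_contra r
    simp only [if_neg r] at this
    exact z1 _ _ q1 q2 this.symm
  have b2 : ∀ a b, Nx g a b → bd S a b ∨ bd S b a := fun a b q => by
    have := x3 a.val b.val
    simp only [if_pos ((hP a b).2 (Or.inl q))] at this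
    simpa only [bd, hh] using z2 _ _ this
  refine ⟨S, hS, hle, ?_⟩
  by_cases c : ∃ a b, Nx g a b ∧ bd S a b
  · obtain ⟨a₀, b₀, c1, c2⟩ := c
    have := nx_all (P := fun v => ∃ w, Nx g v w ∧ bd S v w) c1.mem_left ⟨_, c1, c2⟩ (by
      rintro a b hab ⟨w, hw, hw'⟩
      obtain rfl := hw.succ_uniq hn hab
      obtain ⟨c, hc⟩ := bd_next hA hS hle hw'
      rcases b1 _ _ hc with q | q
      · exact ⟨c, q, hc⟩
      · obtain rfl := q.pred_uniq hn hab
        exact absurd hc.1 hw'.2)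
    have f : ∀ a b, Nx g a b → bd S a b := fun a b q => by
      obtain ⟨w, hw, hw'⟩ := this a q.mem_left
      rwa [← hw.succ_uniq hn q]
    refine Or.inl fun a b => ⟨fun q => ?_, f a b⟩
    rcases b1 _ _ q with r | r
    · exact r
    · exact absurd (f _ _ r).1 q.2
  · push Not at c
    refine Or.inr fun a b => ⟨fun q => ?_, fun q => (b2 _ _ q).resolve_left (c _ _ q)⟩
    exact (b1 _ _ q).resolve_left (fun r => c _ _ r q)

theorem St.final {a b c : Fin K} (h : St T E [a.val, b.val, c.val, a.val])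
    (hK : ∀ a b, E a b → b < K) (hab : a ≠ b) (hbc : b ≠ c) (hca : c ≠ a) :
    Cell (res K T) [a, b, c] ∧ ∀ x y : Fin K, E x.val y.val → adj (res K T) x y := by
  have e : ∀ x y : Fin K, Cons [a.val, b.val, c.val, a.val] x.val y.val ↔ Nx [a, b, c] x y :=
    fun x y => by simp [nx_three, Fin.val_inj]
  have hn : [a, b, c].Nodup := by simp [hab, hbc, hca.symm]
  refine ⟨⟨h.amb_res.rot, hn, by simp, fun x y => ?_, h.sc_res hK⟩, fun x y q => ?_⟩
  · simp only [bd, h.he_res hK, ← e]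
    constructor
    · rintro ⟨⟨z, t⟩, q⟩
      by_contra r
      exact q ((h.free _ _ (h.symm _ _ (h.tE _ _ _ t))).2 r)
    · intro q
      have e1 := h.pE _ _ q
      refine ⟨(h.free _ _ e1).2 fun r => ?_, fun r => (h.free _ _ (h.symm _ _ e1)).1 r q⟩
      exact ((e _ _).1 q).asymm hn (by simp) ((e _ _).1 r)
  · simp only [adj, h.he_res hK]
    rw [h.free _ _ q, h.free _ _ (h.symm _ _ q), e, e]
    by_contra r
    push Not at r
    exact r.1.asymm hn (by simp) r.2

end

end Pool.Agent.MP_d347ac_co
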