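import Mathlib

set_option autoImplicit false

namespace Pool.Agent.MP_d347ac_co

universe u
variable {V : Type u}

/-- `a, b` are consecutive (in this order) in the list. -/
def Cons : List V → V → V → Prop
  | x :: y :: l, a, b => (x = a ∧ y = b) ∨ Cons (y :: l) a b
  | _, _, _ => False

/-- `b` follows `a` cyclically in the list. -/
def Nx : List V → V → V → Prop
  | [], _, _ => False
  | x :: l, a, b => Cons (x :: l ++ [x]) a b

/-- A set of oriented triangles. -/
abbrev Reg (V : Type u) := V → V → V → Prop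

def Rot (S : Reg V) : Prop := ∀ a b c, S a b c → S b c a
def Le (S T : Reg V) : Prop := ∀ a b c, S a b c → T a b c
/-- half-edge -/
def he (S : Reg V) (a b : V) : Prop := ∃ c, S a b c
/-- boundary half-edge -/
def bd (S : Reg V) (a b : V) : Prop := he S a b ∧ ¬ he S b a
def adj (S : Reg V) (a b : V) : Prop := he S a b ∨ he S b a
def vx (S : Reg V) (v : V) : Prop := ∃ b c, S v b c

/-- Ambient axioms. -/
structure Amb (T : Reg V) : Prop where
  rot : Rot T
  ne : ∀ a b c, T a b c → a ≠ b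
  uniq : ∀ a b c c', T a b c → T a b c' → c = c'
  nz : ∀ S : Reg V, Rot S → Le S T → (∃ a b c, S a b c) → ∃ a b, bd S a b

/-- every simple cycle bounds -/
def SC (D : Reg V) : Prop :=
  ∀ g : List V, g.Nodup → 3 ≤ g.length → (∀ a b, Nx g a b → adj D a b) →
    ∃ S : Reg V, Rot S ∧ Le S D ∧
      ((∀ a b, bd S a b ↔ Nx g a b) ∨ (∀ a b, bd S a b ↔ Nx g b a))

/-- A triangulated disc with counterclockwise boundary cycle `C`. -/
structure Cell (D : Reg V) (C : List V) : Prop where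
  rot : Rot D
  nodup : C.Nodup
  len : 3 ≤ C.length
  bdry : ∀ a b, bd D a b ↔ Nx C a b
  sc : SC D

def orient (p q r : ℝ × ℝ) : ℝ :=
  (q.1 - p.1) * (r.2 - p.2) - (q.2 - p.2) * (r.1 - p.1)

/-- crossing-free straight-line drawing, literally as in the frozen statement -/
def Plane {n : ℕ} (G : SimpleGraph (Fin n)) (p : Fin n → ℝ × ℝ) : Prop :=
  Function.Injective p ∧
    (∀ u v w : Fin n, G.Adj u v → w ≠ u → w ≠ v → p w ∉ segment ℝ (p u) (p v)) ∧
    (∀ u v x y : Fin n, G.Adj u v → G.Adj x y → s(u, v) ≠ s(x, y) →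
      ∀ z ∈ segment ℝ (p u) (p v), z ∈ segment ℝ (p x) (p y) →
        ∃ w : Fin n, (w = u ∨ w = v) ∧ (w = x ∨ w = y) ∧ z = p w)

/-- Part I: a plane drawing embeds in an abstract triangulated triangle. -/
def PartI : Prop :=
  ∀ (n : ℕ) (G : SimpleGraph (Fin n)) (p : Fin n → ℝ × ℝ), Plane G p →
    ∃ (N : ℕ) (T : Reg (Fin N)) (a b c : Fin N) (φ : Fin n → Fin N),
      Amb T ∧ Cell T [a, b, c] ∧ Function.Injective φ ∧
      (∀ v, φ v ∉ [a, b, c] ∧ vx T (φ v)) ∧ ∀ u v, G.Adj u v → adj T (φ u) (φ v)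

/-- Part II: positively oriented faces give a plane drawing of every graph sitting inside. -/
def PartII : Prop :=
  ∀ (N : ℕ) (T : Reg (Fin N)) (a b c : Fin N) (q : Fin N → ℝ × ℝ),
    Amb T → Cell T [a, b, c] → (∀ x y z, T x y z → 0 < orient (q x) (q y) (q z)) →
    ∀ (n : ℕ) (G : SimpleGraph (Fin n)) (φ : Fin n → Fin N), Function.Injective φ →
      (∀ v, φ v ∉ [a, b, c] ∧ vx T (φ v)) → (∀ u v, G.Adj u v → adj T (φ u) (φ v)) →
      Plane G (fun v => q (φ v))

/-- Part III: the main drawing theorem (only the vertices of `R` have to be covered). -/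
def PartIII : Prop :=
  ∀ ε : ℝ, 0 < ε → ∃ K : ℝ, ∀ (N : ℕ) (T : Reg (Fin N)) (a b c : Fin N) (R : Finset (Fin N)),
    Amb T → Cell T [a, b, c] →
    ∃ q : Fin N → ℝ × ℝ, (∀ x y z, T x y z → 0 < orient (q x) (q y) (q z)) ∧
      ∃ L : Finset (ℝ × ℝ × ℝ), (L.card : ℝ) ≤ ε * R.card + K ∧
        (∀ l ∈ L, l.1 ≠ 0 ∨ l.2.1 ≠ 0) ∧
        ∀ v ∈ R, vx T v → v ∉ [a, b, c] →
          ∃ l ∈ L, l.1 * (q v).1 + l.2.1 * (q v).2 = l.2.2

/-- A directed `A`-`B` path for the relation `r`. -/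
def IsPath (r : V → V → Prop) (A B : Set V) (l : List V) : Prop :=
  l.IsChain r ∧ (∃ a ∈ A, l.head? = some a) ∧ (∃ b ∈ B, l.getLast? = some b)

/-- Menger's theorem (directed, vertex version). -/
def Menger : Prop :=
  ∀ (W : Type) [Fintype W] [DecidableEq W] (r : W → W → Prop) (A B : Set W) (k : ℕ),
    (∀ S : Finset W, (∀ l, IsPath r A B l → ∃ s ∈ S, s ∈ l) → k ≤ S.card) →
    ∃ f : Fin k → List W, (∀ i, IsPath r A B (f i) ∧ (f i).Nodup) ∧
      ∀ i j, i ≠ j → List.Disjoint (f i) (f j)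

end Pool.Agent.MP_d347ac_co
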