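import Pool.Agent.MP_d347ac_co.Sweep

set_option autoImplicit false

namespace Pool.Agent.MP_d347ac_co

section
variable {n : ℕ} (p : Fin n → ℝ × ℝ)

/-- slope of a directed edge -/
noncomputable def slp (e : Fin n × Fin n) : ℝ :=
  ((p e.2).2 - (p e.1).2) / ((p e.2).1 - (p e.1).1)

/-- height of the line through a directed edge at abscissa `s` -/
noncomputable def ht (e : Fin n × Fin n) (s : ℝ) : ℝ := (p e.1).2 + (s - (p e.1).1) * slp p e

def Below (e f : Fin n × Fin n) : Prop :=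
  ∀ s, (p e.1).1 < s → (p f.1).1 < s → s < (p e.2).1 → s < (p f.2).1 → ht p e s < ht p f s

theorem ht_left (e : Fin n × Fin n) : ht p e (p e.1).1 = (p e.1).2 := by simp [ht]

theorem ht_right {e : Fin n × Fin n} (h : (p e.1).1 < (p e.2).1) :
    ht p e (p e.2).1 = (p e.2).2 := by
  have : (p e.2).1 - (p e.1).1 ≠ 0 := by linarith [sub_pos.2 h] |> fun (q : 0 < _) => q.ne'
  simp only [ht, slp]; field_simp; ring

theorem ht_seg {e : Fin n × Fin n} {s : ℝ} (h : (p e.1).1 < (p e.2).1) (h1 : (p e.1).1 ≤ s)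
    (h2 : s ≤ (p e.2).1) : (s, ht p e s) ∈ segment ℝ (p e.1) (p e.2) := by
  have hd : 0 < (p e.2).1 - (p e.1).1 := sub_pos.2 h
  refine ⟨((p e.2).1 - s) / ((p e.2).1 - (p e.1).1), (s - (p e.1).1) / ((p e.2).1 - (p e.1).1),
    div_nonneg (by linarith) hd.le, div_nonneg (by linarith) hd.le, by field_simp; ring, ?_⟩
  ext
  · simp only [Prod.fst_add, Prod.smul_fst, smul_eq_mul]; field_simp; ring
  · simp only [Prod.snd_add, Prod.smul_snd, smul_eq_mul, ht, slp]; field_simp; ring

theorem ht_ivt (e f : Fin n × Fin n) {a b : ℝ} (ha : ht p e a < ht p f a)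
    (hb : ht p f b < ht p e b) :
    ∃ t, 0 < t ∧ t < 1 ∧ ht p e (a + t * (b - a)) = ht p f (a + t * (b - a)) := by
  have hd : 0 < (ht p f a - ht p e a) + (ht p e b - ht p f b) := by linarith
  refine ⟨(ht p f a - ht p e a) / ((ht p f a - ht p e a) + (ht p e b - ht p f b)),
    div_pos (by linarith) hd, (div_lt_one hd).2 (by linarith), ?_⟩
  have e1 : ∀ (e : Fin n × Fin n) (t : ℝ),
      ht p e (a + t * (b - a)) = ht p e a + t * (ht p e b - ht p e a) := fun e t => by
    simp only [ht]; ring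
  rw [e1, e1]
  field_simp
  ring

variable {p} {G : SimpleGraph (Fin n)}

theorem nocross (h : Plane G p) {e f : Fin n × Fin n} (he : G.Adj e.1 e.2) (hf : G.Adj f.1 f.2)
    (hne : s(e.1, e.2) ≠ s(f.1, f.2)) {s : ℝ} (h1 : (p e.1).1 < s) (h2 : (p f.1).1 < s)
    (h3 : s < (p e.2).1) (h4 : s < (p f.2).1) : ht p e s ≠ ht p f s := by
  intro q
  obtain ⟨w, hw, _, hz⟩ := h.2.2 _ _ _ _ he hf hne _ (ht_seg p (h1.trans h3) h1.le h3.le)
    (q ▸ ht_seg p (h2.trans h4) h2.le h4.le)
  have := congrArg Prod.fst hz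
  rcases hw with rfl | rfl <;> simp only at this <;> linarith

theorem below_of (h : Plane G p) {e f : Fin n × Fin n} (he : G.Adj e.1 e.2) (hf : G.Adj f.1 f.2)
    (hne : s(e.1, e.2) ≠ s(f.1, f.2)) {a : ℝ} (h1 : (p e.1).1 ≤ a) (h2 : (p f.1).1 ≤ a)
    (h3 : a ≤ (p e.2).1) (h4 : a ≤ (p f.2).1) (ha : ht p e a < ht p f a) : Below p e f := by
  intro s k1 k2 k3 k4
  by_contra q
  have q' : ht p f s < ht p e s :=
    lt_of_le_of_ne (not_lt.1 q) (nocross h he hf hne k1 k2 k3 k4).symm
  obtain ⟨t, t0, t1, ht'⟩ := ht_ivt p e f ha q'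
  refine nocross h he hf hne ?_ ?_ ?_ ?_ ht' <;> nlinarith

theorem Below.le {e f : Fin n × Fin n} (h : Below p e f) {a : ℝ} (h1 : (p e.1).1 < a)
    (h2 : (p f.1).1 < a) (h3 : a ≤ (p e.2).1) (h4 : a ≤ (p f.2).1) : ht p e a ≤ ht p f a := by
  by_contra q
  obtain ⟨s, s1, s2⟩ := exists_between (max_lt h1 h2)
  obtain ⟨s3, s4⟩ := max_lt_iff.1 s1
  obtain ⟨t, t0, t1, ht'⟩ := ht_ivt p e f (h s s3 s4 (by linarith) (by linarith)) (not_le.1 q)
  refine (h _ ?_ ?_ ?_ ?_).ne ht' <;> nlinarith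

end

theorem three_split {α : Type} (g : α → ℝ) (y : ℝ) (A : List α)
    (h : A.Pairwise (fun e f => g e ≤ g f)) :
    ∃ L I R, A = L ++ (I ++ R) ∧ (∀ e ∈ L, g e < y) ∧ (∀ e ∈ I, g e = y) ∧ ∀ e ∈ R, y < g e := by
  induction A with
  | nil => exact ⟨[], [], [], rfl, by simp, by simp, by simp⟩
  | cons a A ih =>
    obtain ⟨h1, h2⟩ := List.pairwise_cons.1 h
    obtain ⟨L, I, R, rfl, hL, hI, hR⟩ := ih h2
    rcases lt_trichotomy (g a) y with q | q | q
    · exact ⟨a :: L, I, R, rfl, by simpa [q] using hL, hI, hR⟩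
    · obtain rfl : L = [] := List.eq_nil_iff_forall_not_mem.2 fun e he => by
        have := hL e he; have := h1 e (by simp [he]); linarith
      exact ⟨[], a :: I, R, rfl, by simp, by simpa [q] using hI, hR⟩
    · refine ⟨[], [], a :: (L ++ (I ++ R)), rfl, by simp, by simp, fun e he => ?_⟩
      rcases List.mem_cons.1 he with rfl | he
      · exact q
      · exact q.trans_le (h1 e he)

theorem exists_sorted {α : Type} (O : Finset α) (m : α → ℝ)
    (hm : ∀ a ∈ O, ∀ b ∈ O, m a = m b → a = b) :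
    ∃ l : List α, (∀ e, e ∈ l ↔ e ∈ O) ∧ l.Pairwise (fun a b => m a < m b) := by
  classical
  have pm := List.mergeSort_perm O.toList (fun a b => decide (m a ≤ m b))
  have mem : ∀ e, e ∈ O.toList.mergeSort (fun a b => decide (m a ≤ m b)) ↔ e ∈ O := fun e => by
    rw [pm.mem_iff, Finset.mem_toList]
  refine ⟨_, mem, ?_⟩
  have s := List.pairwise_mergeSort (le := fun a b => decide (m a ≤ m b))
    (fun a b c h1 h2 => by simp only [decide_eq_true_eq] at *; exact h1.trans h2)
    (fun a b => by simpa using le_total (m a) (m b)) O.toList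
  have nd := pm.nodup_iff.2 O.nodup_toList
  refine (s.and nd).imp_of_mem fun {a b} ha hb q => ?_
  exact lt_of_le_of_ne (by simpa using q.1) fun r => q.2 (hm a ((mem _).1 ha) b ((mem _).1 hb) r)

theorem sweep_of_plane {n : ℕ} {G : SimpleGraph (Fin n)} {p : Fin n → ℝ × ℝ} (h : Plane G p)
    (hx : Function.Injective fun v => (p v).1) (D : Finset (Fin n)) :
    (∀ u ∈ D, ∀ w, w ∉ D → (p u).1 < (p w).1) →
    ∃ A : List (Fin n × Fin n), (∀ e, e ∈ A ↔ G.Adj e.1 e.2 ∧ e.1 ∈ D ∧ e.2 ∉ D) ∧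
      A.Pairwise (Below p) ∧ Sweep G D (A.map Prod.fst) := by
  classical
  induction D using Finset.induction_on_max_value (fun v => (p v).1) with
  | empty => exact fun _ => ⟨[], by simp, by simp, Sweep.nil⟩
  | insert v D hv hmax ih =>
    intro hD
    have lt1 : ∀ u ∈ D, (p u).1 < (p v).1 := fun u hu =>
      lt_of_le_of_ne (hmax u hu) fun q => hv (hx q ▸ hu)
    have lt2 : ∀ w, w ∉ D → w ≠ v → (p v).1 < (p w).1 := fun w hw hw' =>
      hD v (by simp) w (by simp [hw, hw'])
    have le2 : ∀ w, w ∉ D → (p v).1 ≤ (p w).1 := fun w hw => by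
      by_cases q : w = v
      · rw [q]
      · exact (lt2 w hw q).le
    obtain ⟨A, mA, pA, sA⟩ := ih fun u hu w hw => (lt1 u hu).trans_le (le2 w hw)
    have hg : ∀ e ∈ A, (ht p e (p v).1 = (p v).2 ↔ e.2 = v) := fun e he => by
      obtain ⟨a, e1, e2⟩ := (mA e).1 he
      have l1 := lt1 _ e1
      have l2 := le2 _ e2
      constructor
      · intro q
        by_contra r
        have := ht_seg p (l1.trans_le l2) l1.le l2
        rw [q] at this
        exact h.2.1 _ _ v a (fun r => hv (r ▸ e1)) (Ne.symm r) this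
      · intro q
        rw [← q]
        exact ht_right p (l1.trans_le l2)
    have ndA : A.Nodup := pA.imp_of_mem fun {e f} he _ q r => by
      subst r
      obtain ⟨a, e1, e2⟩ := (mA e).1 he
      obtain ⟨s, s1, s2⟩ := exists_between ((lt1 _ e1).trans_le (le2 _ e2))
      exact lt_irrefl _ (q s s1 s1 s2 s2)
    obtain ⟨L, I, R, rfl, hL, hI, hR⟩ := three_split (fun e => ht p e (p v).1) (p v).2 A
      (pA.imp_of_mem fun {e f} he hf q => q.le (lt1 _ ((mA e).1 he).2.1)
        (lt1 _ ((mA f).1 hf).2.1) (le2 _ ((mA e).1 he).2.2) (le2 _ ((mA f).1 hf).2.2))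
    obtain ⟨O, mO, pO⟩ := exists_sorted
      (Finset.univ.filter fun e : Fin n × Fin n => G.Adj e.1 e.2 ∧ e.1 = v ∧ e.2 ∉ D) (slp p) (by
        have key : ∀ e f : Fin n × Fin n, G.Adj e.1 e.2 → G.Adj f.1 f.2 → e.1 = v → f.1 = v →
            e.2 ∉ D → slp p e = slp p f → ¬ (p e.2).1 < (p f.2).1 := by
          intro e f a b e1 f1 e2 q r
          have l1 : (p e.1).1 < (p e.2).1 := e1 ▸ lt2 _ e2 (e1 ▸ a.ne.symm)
          have l2 : (p f.1).1 < (p e.2).1 := by rw [f1, ← e1]; exact l1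
          have := ht_seg p (l2.trans r) l2.le r.le
          have e3 : ht p f (p e.2).1 = (p e.2).2 := by
            rw [← ht_right p l1]; simp only [ht, e1, f1, q]
          rw [e3] at this
          exact h.2.1 _ _ e.2 b (fun k => by rw [k] at l2; exact lt_irrefl _ l2)
            (fun k => by rw [k] at r; exact lt_irrefl _ r) this
        intro e he f hf q
        simp only [Finset.mem_filter, Finset.mem_univ, true_and] at he hf
        have k1 := key e f he.1 hf.1 he.2.1 hf.2.1 he.2.2 q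
        have k2 := key f e hf.1 he.1 hf.2.1 he.2.1 hf.2.2 q.symm
        exact Prod.ext (he.2.1.trans hf.2.1.symm) (hx (le_antisymm (not_lt.1 k2) (not_lt.1 k1))))
    simp only [Finset.mem_filter, Finset.mem_univ, true_and] at mO
    have nv : ∀ e ∈ L ++ (I ++ R), e ∈ L ∨ e ∈ R → e.2 ≠ v := fun e he q r => by
      have := (hg e he).2 r
      rcases q with q | q
      · exact (hL e q).ne this
      · exact (hR e q).ne' this
    have sne : ∀ e ∈ L ++ (I ++ R), e ∈ L ∨ e ∈ R → ∀ f ∈ O, s(e.1, e.2) ≠ s(f.1, f.2) := by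
      intro e he q f hf r
      have f1 := ((mO f).1 hf).2.1
      have e1 := ((mA e).1 he).2.1
      rcases Sym2.eq_iff.1 r with r | r
      · exact hv (f1 ▸ r.1 ▸ e1)
      · exact nv e he q (r.2.trans f1)
    have hO : ∀ f ∈ O, ht p f (p v).1 = (p v).2 := fun f hf => by
      rw [← ((mO f).1 hf).2.1]; exact ht_left p f
    refine ⟨L ++ (O ++ R), fun e => ?_, ?_, ?_⟩
    · simp only [List.mem_append, Finset.mem_insert, not_or]
      constructor
      · rintro (q | q | q)
        · have he : e ∈ L ++ (I ++ R) := by simp [q]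
          exact ⟨((mA e).1 he).1, Or.inr ((mA e).1 he).2.1, nv e he (Or.inl q), ((mA e).1 he).2.2⟩
        · obtain ⟨a, e1, e2⟩ := (mO e).1 q
          exact ⟨a, Or.inl e1, e1 ▸ a.ne.symm, e2⟩
        · have he : e ∈ L ++ (I ++ R) := by simp [q]
          exact ⟨((mA e).1 he).1, Or.inr ((mA e).1 he).2.1, nv e he (Or.inr q), ((mA e).1 he).2.2⟩
      · rintro ⟨a, e1 | e1, e2, e3⟩
        · exact Or.inr (Or.inl ((mO e).2 ⟨a, e1, e3⟩))
        · have he := (mA e).2 ⟨a, e1, e3⟩
          have := he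
          simp only [List.mem_append] at this
          rcases this with q | q | q
          · exact Or.inl q
          · exact absurd ((hg e he).1 (hI e q)) e2
          · exact Or.inr (Or.inr q)
    · simp only [List.pairwise_append, List.mem_append] at pA ⊢
      obtain ⟨p1, ⟨_, p3, _⟩, p5⟩ := pA
      refine ⟨p1, ⟨pO.imp_of_mem fun {e f} he hf q s s1 _ _ _ => ?_, p3, fun f hf e q => ?_⟩, ?_⟩
      · have e1 := ((mO e).1 he).2.1
        have f1 := ((mO f).1 hf).2.1
        simp only [ht, e1, f1] at s1 ⊢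
        nlinarith
      · have he : e ∈ L ++ (I ++ R) := by simp [q]
        obtain ⟨a, e1, e2⟩ := (mA e).1 he
        obtain ⟨b, f1, f2⟩ := (mO f).1 hf
        exact below_of h b a (sne e he (Or.inr q) f hf).symm (a := (p v).1) (f1 ▸ le_rfl)
          (lt1 _ e1).le (le2 _ f2) (le2 _ e2) (hO f hf ▸ hR e q)
      · rintro e q f (hf | hf)
        · have he : e ∈ L ++ (I ++ R) := by simp [q]
          obtain ⟨a, e1, e2⟩ := (mA e).1 he
          obtain ⟨b, f1, f2⟩ := (mO f).1 hf
          exact below_of h a b (sne e he (Or.inl q) f hf) (a := (p v).1) (lt1 _ e1).le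
            (f1 ▸ le_rfl) (le2 _ e2) (le2 _ f2) (hO f hf ▸ hL e q)
        · exact p5 e q f (Or.inr hf)
    · have eO : O.map Prod.fst = List.replicate O.length v := by
        rw [List.eq_replicate_iff]
        refine ⟨by simp, fun b hb => ?_⟩
        obtain ⟨f, hf, rfl⟩ := List.mem_map.1 hb
        exact ((mO f).1 hf).2.1
      simp only [List.map_append] at sA ⊢
      rw [eO]
      refine Sweep.step D _ _ _ v _ sA hv ?_ fun u hu a => ?_
      · refine List.Nodup.map_on (fun e he f hf q => Prod.ext q ?_)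
          (List.nodup_append.1 (List.nodup_append.1 ndA).2.1).1
        rw [(hg e (by simp [he])).1 (hI e he), (hg f (by simp [hf])).1 (hI f hf)]
      · have he := (mA (u, v)).2 ⟨a, hu, hv⟩
        have := he
        simp only [List.mem_append] at this
        rcases this with q | q | q
        · exact absurd rfl (nv _ he (Or.inl q))
        · exact List.mem_map.2 ⟨_, q, rfl⟩
        · exact absurd rfl (nv _ he (Or.inr q))

theorem plane_shear {n : ℕ} {G : SimpleGraph (Fin n)} {p : Fin n → ℝ × ℝ} (h : Plane G p) :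
    ∃ q : Fin n → ℝ × ℝ, Plane G q ∧ Function.Injective fun v => (q v).1 := by
  classical
  obtain ⟨τ, hτ⟩ := Infinite.exists_notMem_finset (Finset.univ.image
    fun e : Fin n × Fin n => ((p e.2).1 - (p e.1).1) / ((p e.1).2 - (p e.2).2))
  let f : ℝ × ℝ → ℝ × ℝ := fun z => (z.1 + τ * z.2, z.2)
  have finj : Function.Injective f := fun a b q => by
    simp only [f, Prod.mk.injEq] at q
    exact Prod.ext (by rw [q.2] at q; linarith [q.1]) q.2
  have fseg : ∀ a b z, z ∈ segment ℝ (f a) (f b) → ∃ y ∈ segment ℝ a b, f y = z := by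
    rintro a b z ⟨s, t, hs, ht, hst, rfl⟩
    refine ⟨s • a + t • b, ⟨s, t, hs, ht, hst, rfl⟩, ?_⟩
    simp only [f]
    ext <;> simp
    ring
  refine ⟨fun v => f (p v), ⟨finj.comp h.1, fun u v w a h1 h2 q => ?_, ?_⟩, fun u w q => ?_⟩
  · obtain ⟨y, hy, e⟩ := fseg _ _ _ q
    exact h.2.1 u v w a h1 h2 (finj e ▸ hy)
  · intro u v x y a b hne z z1 z2
    obtain ⟨y1, hy1, rfl⟩ := fseg _ _ _ z1
    obtain ⟨y2, hy2, e⟩ := fseg _ _ _ z2
    obtain ⟨w, w1, w2, rfl⟩ := h.2.2 u v x y a b hne y1 hy1 (finj e ▸ hy2)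
    exact ⟨w, w1, w2, rfl⟩
  · simp only [f] at q
    by_cases r : (p u).2 = (p w).2
    · exact h.1 (Prod.ext (by rw [r] at q; linarith) r)
    · exfalso
      apply hτ
      refine Finset.mem_image.2 ⟨(u, w), Finset.mem_univ _, ?_⟩
      have : (p u).2 - (p w).2 ≠ 0 := sub_ne_zero.2 r
      field_simp
      linarith

theorem partI : PartI := by
  intro n G p h
  obtain ⟨q, hq, hx⟩ := plane_shear h
  obtain ⟨A, mA, _, sA⟩ := sweep_of_plane hq hx Finset.univ (by simp)
  obtain rfl : A = [] := List.eq_nil_iff_forall_not_mem.2 fun e he => by simpa using (mA e).1 he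
  exact Sweep.cell sA

end Pool.Agent.MP_d347ac_co
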