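import Pool.Agent.MP_d347ac_co.H31Cover
import Pool.Agent.MP_d347ac_co.Defs

set_option autoImplicit false

namespace Pool.Agent.MP_d347ac_co.H31

open List

variable {V : Type}

def QChain (d : Dat V) (ord : List V) (C : Finset V) : Prop :=
  ∀ y ∈ C, ∀ y' ∈ C, QLe d ord y y' ∨ QLe d ord y' y

theorem QLe.refl (d : Dat V) (ord : List V) (u : V) : QLe d ord u u := fun _ _ h => h

theorem QLe.trans {d : Dat V} {ord : List V} {u v w : V} (h1 : QLe d ord u v)
    (h2 : QLe d ord v w) : QLe d ord u w := fun g hg h => h2 g hg (h1 g hg h)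

theorem greedy [DecidableEq V] (d : Dat V) (ord : List V) (s : ℕ) (U : Finset V) :
    ∃ (S : Finset V) (l : ℕ) (col : V → ℕ), S ⊆ U ∧ l * (s + 1) ≤ U.card ∧
      (∀ y ∈ S, col y < l) ∧
      (∀ y ∈ S, ∀ y' ∈ S, col y = col y' → QLe d ord y y' ∨ QLe d ord y' y) ∧
      ∀ C ⊆ U \ S, QChain d ord C → C.card ≤ s := by
  induction U using Finset.strongInduction with
  | H U ih =>
    by_cases hex : ∀ C ⊆ U, QChain d ord C → C.card ≤ s
    · exact ⟨∅, 0, fun _ => 0, by simp, by simp, by simp, by simp, by simpa using hex⟩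
    · push Not at hex
      obtain ⟨C, hCU, hC, hs⟩ := hex
      have hne : C.Nonempty := Finset.card_pos.1 (by omega)
      obtain ⟨S, l, col, a1, a2, a3, a4, a5⟩ := ih (U \ C) (Finset.sdiff_ssubset hCU hne)
      refine ⟨S ∪ C, l + 1, fun y => if y ∈ C then l else col y, ?_, ?_, ?_, ?_, ?_⟩
      · exact Finset.union_subset (a1.trans Finset.sdiff_subset) hCU
      · have := Finset.card_sdiff_add_card_eq_card hCU
        rw [add_mul]; omega
      · intro y hy
        dsimp only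
        split_ifs with h
        · omega
        · have := a3 y ((Finset.mem_union.1 hy).resolve_right h); omega
      · intro y hy y' hy' e
        dsimp only at e
        split_ifs at e with h h' h'
        · exact hC y h y' h'
        · have := a3 y' ((Finset.mem_union.1 hy').resolve_right h'); omega
        · have := a3 y ((Finset.mem_union.1 hy).resolve_right h); omega
        · exact a4 y ((Finset.mem_union.1 hy).resolve_right h) y'
            ((Finset.mem_union.1 hy').resolve_right h') e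
      · intro C' hC'
        apply a5
        intro y hy
        have := hC' hy
        simp only [Finset.mem_sdiff, Finset.mem_union, not_or] at this ⊢
        tauto

theorem heights [DecidableEq V] {d : Dat V} {ord C : List V} (hB : Build d ord C) (s : ℕ)
    (A : Finset V) (hA : ∀ C ⊆ A, QChain d ord C → C.card ≤ s) :
    ∃ h : V → ℝ, Mono d ord h ∧ ∀ y ∈ A, ∃ j ≤ s, h y = (j : ℝ) := by
  classical
  obtain ⟨h0, H0, hr⟩ := hB.exists_mono
  set F : V → Finset (Finset V) := fun v =>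
    A.powerset.filter (fun C => QChain d ord C ∧ ∀ y ∈ C, QLe d ord y v) with hF
  set r : V → ℕ := fun v => (F v).sup Finset.card with hr'
  have rs : ∀ v, r v ≤ s := by
    intro v
    refine Finset.sup_le ?_
    intro C hC
    rw [Finset.mem_filter, Finset.mem_powerset] at hC
    exact hA C hC.1 hC.2.1
  have hq : ∀ u v, QLe d ord u v → h0 u ≤ h0 v := by
    intro u v huv
    refine huv (fun y => h0 u ≤ h0 y) ⟨fun w hw => ⟨fun q => q.trans (H0.2 w hw).1.le,
      fun q => q.trans (H0.2 w hw).2.le⟩, fun q => q.trans H0.1.le⟩ le_rfl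
  have step : ∀ u v, QLe d ord u v → h0 u < h0 v →
      (r u : ℝ) + (if u ∈ A then 0 else h0 u) < (r v : ℝ) + (if v ∈ A then 0 else h0 v) := by
    intro u v huv hlt
    have r1 : r u ≤ r v := by
      refine Finset.sup_mono ?_
      intro C hC
      rw [Finset.mem_filter] at hC ⊢
      exact ⟨hC.1, hC.2.1, fun y hy => (hC.2.2 y hy).trans huv⟩
    have u1 : (if u ∈ A then 0 else h0 u) ≤ h0 u := by
      split_ifs
      · exact (hr u).1.le
      · exact le_rfl
    by_cases hv : v ∈ A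
    · have r2 : r u + 1 ≤ r v := by
        have hne : (F u).Nonempty := ⟨∅, by simp [hF, QChain]⟩
        obtain ⟨C, hC, e⟩ := Finset.exists_mem_eq_sup _ hne Finset.card
        rw [Finset.mem_filter, Finset.mem_powerset] at hC
        have hvC : v ∉ C := fun hm => by have := hq _ _ (hC.2.2 v hm); linarith
        have : insert v C ∈ F v := by
          rw [Finset.mem_filter, Finset.mem_powerset]
          refine ⟨Finset.insert_subset hv hC.1, ?_, ?_⟩
          · intro y hy y' hy'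
            rcases Finset.mem_insert.1 hy with e1 | e1 <;>
              rcases Finset.mem_insert.1 hy' with e2 | e2
            · rw [e1, e2]; exact Or.inl (QLe.refl _ _ _)
            · rw [e1]; exact Or.inr ((hC.2.2 _ e2).trans huv)
            · rw [e2]; exact Or.inl ((hC.2.2 _ e1).trans huv)
            · exact hC.2.1 y e1 y' e2
          · intro y hy
            rcases Finset.mem_insert.1 hy with e1 | e1
            · rw [e1]; exact QLe.refl _ _ _
            · exact (hC.2.2 _ e1).trans huv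
        have h2 : (insert v C).card ≤ r v := Finset.le_sup (f := Finset.card) this
        rw [Finset.card_insert_of_notMem hvC] at h2
        have : r u = C.card := e
        omega
      have r3 : (r u : ℝ) + 1 ≤ r v := by exact_mod_cast r2
      rw [if_pos hv]
      have := (hr u).2
      linarith
    · rw [if_neg hv]
      have r3 : (r u : ℝ) ≤ r v := by exact_mod_cast r1
      linarith
  refine ⟨fun v => (r v : ℝ) + (if v ∈ A then 0 else h0 v), ⟨?_, fun v hv => ⟨?_, ?_⟩⟩, ?_⟩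
  · exact step _ _ (fun g hg => hg.2) H0.1
  · exact step _ _ (fun g hg => (hg.1 v hv).1) (H0.2 v hv).1
  · exact step _ _ (fun g hg => (hg.1 v hv).2) (H0.2 v hv).2
  · intro y hy
    exact ⟨r y, rs y, by simp [hy]⟩

theorem partB [Fintype V] [DecidableEq V] {d : Dat V} {ord C : List V} (hB : Build d ord C)
    (U : Finset V) (hU : ∀ y ∈ U, y ∈ ord) (s R : ℕ) :
    ∃ (h x : V → ℝ) (l k : ℕ), PlaneInv d ord C h x ∧ l * (s + 1) ≤ U.card ∧
      R * k ≤ l * (R * R) + 2 * U.card ∧ Lines h x U (k + (s + 1)) := by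
  classical
  obtain ⟨S, l, col, a1, a2, a3, a4, a5⟩ := greedy d ord s U
  obtain ⟨h, H, hA⟩ := heights hB s (U \ S) a5
  set ρ : V → ℕ := fun y => ((S.filter (fun y' => Cov d ord y' y)).image col).card with hρ
  have notin : ∀ y ∈ S, col y ∉ (S.filter (fun y' => Cov d ord y' y)).image col := by
    intro y hy hm
    obtain ⟨y', h1, h2⟩ := Finset.mem_image.1 hm
    rw [Finset.mem_filter] at h1
    have := hB.F2 h1.2
    rcases a4 y' h1.1 y hy h2 with q | q
    · exact this.1 q
    · exact this.2 q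
  have ρ1 : ∀ y ∈ S, ∀ y' ∈ S, Cov d ord y y' → ρ y < ρ y' := by
    intro y hy y' _ hc
    refine Finset.card_lt_card ⟨Finset.image_subset_image ?_, fun hsub => ?_⟩
    · intro w hw
      rw [Finset.mem_filter] at hw ⊢
      exact ⟨hw.1, hw.2.trans_below hc.below⟩
    · exact notin y hy (hsub (Finset.mem_image_of_mem _ (Finset.mem_filter.2 ⟨hy, hc⟩)))
  have ρ2 : ∀ y ∈ S, ρ y < l := by
    intro y hy
    have : (S.filter (fun y' => Cov d ord y' y)).image col ⊂ Finset.range l := by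
      refine ⟨?_, fun hsub => notin y hy (hsub (Finset.mem_range.2 (a3 y hy)))⟩
      intro j hj
      obtain ⟨y', h1, rfl⟩ := Finset.mem_image.1 hj
      exact Finset.mem_range.2 (a3 y' (Finset.mem_filter.1 h1).1)
    simpa using Finset.card_lt_card this
  obtain ⟨D, x, k, G, b1, b2⟩ := layers hB H (fun y hy => hU y (a1 hy)) R ρ ρ1 l
  obtain ⟨x', c1, c2⟩ := free_ext hB H (D' := Finset.univ) ⟨by simp, by simp, by simp⟩ _ D x rfl
    G.cl G.val
  have hSD : S ∩ D = S := Finset.inter_eq_left.2 fun y hy => b1 y hy (ρ2 y hy)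
  refine ⟨h, x', l, k, hB.plane H fun z hz => c1 z hz (Finset.mem_univ _), a2, ?_, ?_⟩
  · have := Finset.card_le_card a1
    rw [hSD] at b2; omega
  · refine G.cov.add (fun y hy => c2 y (Finset.mem_inter.1 hy).2) ?_
    rw [hSD]
    refine ⟨(Finset.range (s + 1)).image (fun j : ℕ => ((0 : ℝ), (1 : ℝ), (j : ℝ))),
      Finset.card_image_le.trans (by simp), ?_, ?_⟩
    · intro l hl
      obtain ⟨j, -, rfl⟩ := Finset.mem_image.1 hl
      simp
    · intro y hy
      obtain ⟨j, hj, e⟩ := hA y hy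
      exact ⟨(0, 1, (j : ℝ)), Finset.mem_image_of_mem _ (Finset.mem_range.2 (by omega)),
        by simp [e]⟩

/-- Part A: every plane straight-line drawing embeds in a canonical ordering. -/
def PartA : Prop :=
  ∀ (n : ℕ) (G : SimpleGraph (Fin n)) (p : Fin n → ℝ × ℝ), Plane G p →
    ∃ (K : ℕ) (d : Dat (Fin K)) (ord ctr : List (Fin K)) (φ : Fin n → Fin K),
      Build d ord ctr ∧ Function.Injective φ ∧ (∀ v, φ v ∈ ord) ∧
        ∀ u v, G.Adj u v → φ u ∈ d.N (φ v) ∨ φ v ∈ d.N (φ u)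

theorem few_lines (hA : PartA) (n : ℕ) (G : SimpleGraph (Fin n)) (p : Fin n → ℝ × ℝ)
    (hp : Plane G p) (s R : ℕ) :
    ∃ (q : Fin n → ℝ × ℝ) (l k m : ℕ), Plane G q ∧ l * (s + 1) ≤ n ∧
      R * k ≤ l * (R * R) + 2 * n ∧ m ≤ k + (s + 1) ∧
      ∃ a b c : Fin m → ℝ, (∀ i, a i ≠ 0 ∨ b i ≠ 0) ∧
        ∀ v : Fin n, ∃ i : Fin m, a i * (q v).1 + b i * (q v).2 = c i := by
  classical
  obtain ⟨K, d, ord, ctr, φ, hB, hφ, hmem, hadj⟩ := hA n G p hp
  obtain ⟨h, x, l, k, I, a1, a2, Ls, b1, b2, b3⟩ := partB hB (Finset.univ.image φ)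
    (by intro y hy; obtain ⟨v, -, rfl⟩ := Finset.mem_image.1 hy; exact hmem v) s R
  rw [Finset.card_image_of_injective _ hφ, Finset.card_univ, Fintype.card_fin] at a1 a2
  have hE : ∀ u v, G.Adj u v → Ed d ord (φ u) (φ v) ∨ Ed d ord (φ v) (φ u) := by
    intro u v huv
    rcases hadj u v huv with q | q
    · exact Or.inl (Or.inl ⟨hmem v, q⟩)
    · exact Or.inr (Or.inl ⟨hmem u, q⟩)
  refine ⟨fun v => pos h x (φ v), l, k, Ls.card, ⟨?_, ?_, ?_⟩, a1, a2, b1,
    fun i => (Ls.equivFin.symm i).1.1, fun i => (Ls.equivFin.symm i).1.2.1,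
    fun i => (Ls.equivFin.symm i).1.2.2, fun i => b2 _ (Ls.equivFin.symm i).2, ?_⟩
  · intro u v e
    exact hφ (I.inj _ _ (Or.inl (hmem u)) (Or.inl (hmem v)) e)
  · intro u v w huv h1 h2
    rcases hE u v huv with e | e
    · exact I.off _ _ _ e (Or.inl (hmem w)) (hφ.ne h1) (hφ.ne h2)
    · rw [segment_symm]
      exact I.off _ _ _ e (Or.inl (hmem w)) (hφ.ne h2) (hφ.ne h1)
  · have key : ∀ u v u' v', Ed d ord (φ u) (φ v) → Ed d ord (φ u') (φ v') → s(u, v) ≠ s(u', v') →
        ∀ z ∈ segment ℝ (pos h x (φ u)) (pos h x (φ v)),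
          z ∈ segment ℝ (pos h x (φ u')) (pos h x (φ v')) →
          ∃ w : Fin n, (w = u ∨ w = v) ∧ (w = u' ∨ w = v') ∧ z = pos h x (φ w) := by
      intro u v u' v' e e' hne z hz hz'
      obtain ⟨w, q1, q2, q3⟩ := I.cross _ _ _ _ e e' (by
        intro hs
        apply hne
        rcases Sym2.eq_iff.1 hs with ⟨r1, r2⟩ | ⟨r1, r2⟩
        · rw [hφ r1, hφ r2]
        · rw [hφ r1, hφ r2, Sym2.eq_swap]) z hz hz'
      rcases q1 with rfl | rfl
      · exact ⟨u, Or.inl rfl, q2.imp (fun r => hφ r) (fun r => hφ r), q3⟩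
      · exact ⟨v, Or.inr rfl, q2.imp (fun r => hφ r) (fun r => hφ r), q3⟩
    intro u v u' v' huv huv' hne z hz hz'
    rcases hE u v huv with e | e <;> rcases hE u' v' huv' with e' | e'
    · exact key u v u' v' e e' hne z hz hz'
    · obtain ⟨w, q1, q2, q3⟩ := key u v v' u' e e' (by rwa [Sym2.eq_swap (a := v')]) z hz
        (by rwa [segment_symm])
      exact ⟨w, q1, q2.symm, q3⟩
    · obtain ⟨w, q1, q2, q3⟩ := key v u u' v' e e' (by rwa [Sym2.eq_swap (a := v)]) z
        (by rwa [segment_symm]) hz'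
      exact ⟨w, q1.symm, q2, q3⟩
    · obtain ⟨w, q1, q2, q3⟩ := key v u v' u' e e'
        (by rwa [Sym2.eq_swap (a := v), Sym2.eq_swap (a := v')]) z
        (by rwa [segment_symm]) (by rwa [segment_symm])
      exact ⟨w, q1.symm, q2.symm, q3⟩
  · intro v
    obtain ⟨l, hl, e⟩ := b3 (φ v) (Finset.mem_image_of_mem _ (Finset.mem_univ v))
    exact ⟨Ls.equivFin ⟨l, hl⟩, by simpa [pos] using e⟩

theorem sublinear (hA : PartA) :
    ∀ ε : ℝ, 0 < ε → ∃ N : ℕ, ∀ n : ℕ, N ≤ n → ∀ G : SimpleGraph (Fin n),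
      (∃ p : Fin n → ℝ × ℝ, Plane G p) →
      ∃ p : Fin n → ℝ × ℝ, Plane G p ∧
        ∃ k : ℕ, (k : ℝ) ≤ ε * n ∧ ∃ a b c : Fin k → ℝ, (∀ i, a i ≠ 0 ∨ b i ≠ 0) ∧
          ∀ v : Fin n, ∃ i : Fin k, a i * (p v).1 + b i * (p v).2 = c i := by
  intro ε hε
  obtain ⟨R, hR⟩ := exists_nat_gt (6 / ε)
  obtain ⟨s, hs⟩ := exists_nat_gt (3 * R / ε)
  obtain ⟨N, hN⟩ := exists_nat_gt (3 * (s + 1) / ε)
  refine ⟨N, fun n hn G ⟨p, hp⟩ => ?_⟩
  obtain ⟨q, l, k, m, hq, a1, a2, a3, hl⟩ := few_lines hA n G p hp s R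
  refine ⟨q, hq, m, ?_, hl⟩
  have b1 : (l : ℝ) * (s + 1) ≤ n := by exact_mod_cast a1
  have b2 : (R : ℝ) * k ≤ l * (R * R) + 2 * n := by exact_mod_cast a2
  have b3 : (m : ℝ) ≤ k + (s + 1) := by exact_mod_cast a3
  have b4 : (N : ℝ) ≤ n := by exact_mod_cast hn
  rw [div_lt_iff₀ hε] at hR hs hN
  have n0 : (0 : ℝ) ≤ n := Nat.cast_nonneg _
  have l0 : (0 : ℝ) ≤ l := Nat.cast_nonneg _
  have R0 : (0 : ℝ) < R := by
    by_contra hn; push Not at hn; nlinarith
  have c1 : 3 * ((s : ℝ) + 1) ≤ ε * n := by nlinarith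
  have c2 : 3 * ((l : ℝ) * R) ≤ ε * n := by
    have : (l : ℝ) * (3 * R) ≤ l * (s * ε) := mul_le_mul_of_nonneg_left hs.le l0
    nlinarith
  have c3 : (R : ℝ) * (3 * k) ≤ R * (2 * (ε * n)) := by
    have := mul_le_mul_of_nonneg_left c2 R0.le
    have := mul_le_mul_of_nonneg_right hR.le n0
    nlinarith
  have c4 := le_of_mul_le_mul_left c3 R0
  linarith

end Pool.Agent.MP_d347ac_co.H31
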