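import Pool.Agent.MP_d347ac_co.H31Basic

set_option autoImplicit false

namespace Pool.Agent.MP_d347ac_co.H31

open List

variable {V : Type}

/-- positive iff the point `p` lies strictly to the right of the line through `c, c'`
(when `h c < h c'`). -/
def LfP (h x : V → ℝ) (c c' : V) (p : ℝ × ℝ) : ℝ :=
  (h c' - h c) * p.1 - (h c' - p.2) * x c - (p.2 - h c) * x c'

def Lf (h x : V → ℝ) (c c' z : V) : ℝ :=
  (h c' - h c) * x z - (h c' - h z) * x c - (h z - h c) * x c'

def pos (h x : V → ℝ) (y : V) : ℝ × ℝ := (x y, h y)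

theorem Lf_neg (h x : V → ℝ) (c c' z : V) : Lf (fun y => - h y) x c' c z = Lf h x c c' z := by
  unfold Lf; ring

/-- every vertex of `S` sees its earlier neighbours -/
def Sees (d : Dat V) (h x : V → ℝ) (z : V) : Prop :=
  IsChain (fun c c' => 0 < Lf h x c c' z) (d.N z)

theorem up_aux (h x : V → ℝ) (v a : V) (hav : h a < h v) :
    ∀ (L : List V) (y : V), (y :: L).Pairwise (fun a b => h a < h b) →
      IsChain (fun c c' => 0 < Lf h x c c' v) (y :: L) → h a ≤ h y → Lf h x a v y ≤ 0 →
      ∀ c ∈ L, h c ≤ h v → Lf h x a v c < 0 := by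
  intro L
  induction L with
  | nil => simp
  | cons z L ih =>
    intro y hs hc hay hy c hcm hcv
    rw [isChain_cons_cons] at hc
    have hyz : h y < h z := (pairwise_cons.1 hs).1 z (by simp)
    have hs' := (pairwise_cons.1 hs).2
    have hzc : h z ≤ h c := by
      rcases mem_cons.1 hcm with rfl | hcm
      · exact le_rfl
      · exact ((pairwise_cons.1 hs').1 c hcm).le
    have hz : Lf h x a v z < 0 := by
      have id : (h v - h y) * Lf h x a v z =
          (h v - h z) * Lf h x a v y - (h v - h a) * Lf h x y z v := by unfold Lf; ring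
      have h1 : (h v - h z) * Lf h x a v y ≤ 0 :=
        mul_nonpos_of_nonneg_of_nonpos (by linarith) hy
      have h2 : 0 < (h v - h a) * Lf h x y z v := mul_pos (by linarith) hc.1
      by_contra hn
      push Not at hn
      have : 0 ≤ (h v - h y) * Lf h x a v z := mul_nonneg (by linarith) hn
      linarith
    rcases mem_cons.1 hcm with rfl | hcm
    · exact hz
    · exact ih z hs' hc.2 (by linarith) hz.le c hcm hcv

theorem up_lemma (h x : V → ℝ) (v : V) :
    ∀ (L : List V), L.Pairwise (fun a b => h a < h b) →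
      IsChain (fun c c' => 0 < Lf h x c c' v) L →
      ∀ w ∈ L, ∀ c ∈ L, h w < h c → h c ≤ h v → Lf h x w v c < 0 := by
  intro L
  induction L with
  | nil => simp
  | cons y L ih =>
    intro hs hc w hw c hcm hwc hcv
    have hcL : c ∈ L := by
      rcases mem_cons.1 hcm with rfl | hcm
      · rcases mem_cons.1 hw with rfl | hw
        · exact absurd hwc (lt_irrefl _)
        · exact absurd ((pairwise_cons.1 hs).1 w hw) (by linarith)
      · exact hcm
    rcases mem_cons.1 hw with rfl | hw
    · exact up_aux h x v w (by linarith) L w hs hc le_rfl (by unfold Lf; linarith) c hcL hcv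
    · exact ih (pairwise_cons.1 hs).2 hc.tail w hw c hcL hwc hcv

theorem rev_hyp {h x : V → ℝ} {v : V} {L : List V} (hs : L.Pairwise (fun a b => h a < h b))
    (hc : IsChain (fun c c' => 0 < Lf h x c c' v) L) :
    L.reverse.Pairwise (fun a b => (fun y => - h y) a < (fun y => - h y) b) ∧
      IsChain (fun c c' => 0 < Lf (fun y => - h y) x c c' v) L.reverse := by
  constructor
  · rw [pairwise_reverse]
    exact hs.imp fun hab => by simpa using hab
  · rw [isChain_reverse]
    exact hc.imp fun a b hab => by rw [Lf_neg]; exact hab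

theorem down_lemma (h x : V → ℝ) (v : V) (L : List V) (hs : L.Pairwise (fun a b => h a < h b))
    (hc : IsChain (fun c c' => 0 < Lf h x c c' v) L) :
    ∀ w ∈ L, ∀ c ∈ L, h c < h w → h v ≤ h c → Lf h x v w c < 0 := by
  intro w hw c hcm hcw hvc
  obtain ⟨h1, h2⟩ := rev_hyp hs hc
  have := up_lemma (fun y => - h y) x v L.reverse h1 h2 w (by simpa using hw) c
    (by simpa using hcm) (by simpa using hcw) (by simpa using hvc)
  rwa [Lf_neg] at this

theorem sorted_inj {h : V → ℝ} {L : List V} (hs : L.Pairwise (fun a b => h a < h b)) {a b : V}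
    (ha : a ∈ L) (hb : b ∈ L) (e : h a = h b) : a = b := by
  induction L with
  | nil => simp at ha
  | cons y L ih =>
    rw [pairwise_cons] at hs
    rcases mem_cons.1 ha with ha' | ha' <;> rcases mem_cons.1 hb with hb' | hb'
    · rw [ha', hb']
    · have := hs.1 b hb'; rw [← ha'] at this; linarith
    · have := hs.1 a ha'; rw [← hb'] at this; linarith
    · exact ih hs.2 ha' hb'

theorem pair_lt {h : V → ℝ} {L : List V} (hs : L.Pairwise (fun a b => h a < h b)) {c c' : V}
    (hc : [c, c'] <:+: L) : h c < h c' := by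
  have := hs.sublist hc.sublist
  simpa using this

theorem pair_between {h : V → ℝ} {L : List V} (hs : L.Pairwise (fun a b => h a < h b))
    {c c' w : V} (hc : [c, c'] <:+: L) (hw : w ∈ L) : h w ≤ h c ∨ h c' ≤ h w := by
  obtain ⟨P, Q, rfl⟩ := hc
  simp only [mem_append, mem_cons, not_mem_nil, or_false] at hw
  rw [pairwise_append] at hs
  obtain ⟨h1, h2, h3⟩ := hs
  rw [pairwise_append] at h1
  rcases hw with (hw | rfl | rfl) | hw
  · exact Or.inl (h1.2.2 w hw c (by simp)).le
  · exact Or.inl le_rfl
  · exact Or.inr le_rfl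
  · exact Or.inr (h3 c' (by simp) w hw).le

theorem half_fan (h x : V → ℝ) (v : V) (L : List V) (hs : L.Pairwise (fun a b => h a < h b))
    (hc : IsChain (fun c c' => 0 < Lf h x c c' v) L) {w c c' : V} (hw : w ∈ L) (hcm : c ∈ L)
    (hcc : h c < h c') (hF : 0 < Lf h x c c' v) (hwc : h w ≤ h c) {s : ℝ} (s0 : 0 < s)
    (s1 : s ≤ 1) (hy : h c ≤ (1 - s) * h w + s * h v) :
    0 < (1 - s) * Lf h x c c' w + s * Lf h x c c' v := by
  rcases hwc.eq_or_lt with e | hlt
  · have := sorted_inj hs hw hcm e
    subst this
    have : Lf h x w c' w = 0 := by unfold Lf; ring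
    rw [this]; simpa using mul_pos s0 hF
  · rcases s1.eq_or_lt with rfl | s1'
    · simpa using hF
    have hv : h c < h v := by
      by_contra hn
      push Not at hn
      nlinarith
    have hl := up_lemma h x v L hs hc w hw c hcm hlt hv.le
    have id : (h v - h c) * ((1 - s) * Lf h x c c' w + s * Lf h x c c' v) =
        (1 - s) * ((h c' - h c) * (- Lf h x w v c)) +
          Lf h x c c' v * ((1 - s) * h w + s * h v - h c) := by unfold Lf; ring
    have h1 : 0 < (1 - s) * ((h c' - h c) * (- Lf h x w v c)) :=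
      mul_pos (by linarith) (mul_pos (by linarith) (by linarith))
    have h2 : 0 ≤ Lf h x c c' v * ((1 - s) * h w + s * h v - h c) :=
      mul_nonneg hF.le (by linarith)
    by_contra hn
    push Not at hn
    have : (h v - h c) * ((1 - s) * Lf h x c c' w + s * Lf h x c c' v) ≤ 0 :=
      mul_nonpos_of_nonneg_of_nonpos (by linarith) hn
    linarith

theorem fan (h x : V → ℝ) (v : V) (L : List V) (hs : L.Pairwise (fun a b => h a < h b))
    (hc : IsChain (fun c c' => 0 < Lf h x c c' v) L) {w c c' : V} (hw : w ∈ L)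
    (hcc : [c, c'] <:+: L) {s : ℝ} (s0 : 0 < s) (s1 : s ≤ 1)
    (hy : h c ≤ (1 - s) * h w + s * h v) (hy' : (1 - s) * h w + s * h v ≤ h c') :
    0 < (1 - s) * Lf h x c c' w + s * Lf h x c c' v := by
  have hlt := pair_lt hs hcc
  have hF : 0 < Lf h x c c' v := by simpa using chain_sub hc hcc
  have m1 : c ∈ L := hcc.subset (by simp)
  have m2 : c' ∈ L := hcc.subset (by simp)
  rcases pair_between hs hcc hw with h1 | h1
  · exact half_fan h x v L hs hc hw m1 hlt hF h1 s0 s1 hy
  · obtain ⟨r1, r2⟩ := rev_hyp hs hc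
    have := half_fan (fun y => - h y) x v L.reverse r1 r2 (w := w) (c := c') (c' := c)
      (by simpa using hw) (by simpa using m2) (by simpa using hlt) (by rw [Lf_neg]; exact hF)
      (by simpa using h1) s0 s1 (by linarith)
    rwa [Lf_neg, Lf_neg] at this

/-- edges, directed from the earlier to the later endpoint -/
def Ed (d : Dat V) (ord : List V) (u v : V) : Prop :=
  (v ∈ ord ∧ u ∈ d.N v) ∨ (u = d.b ∧ v = d.t)

def WL (h x : V → ℝ) (C : List V) (p : ℝ × ℝ) : Prop :=
  ∃ c c', [c, c'] <:+: C ∧ h c ≤ p.2 ∧ p.2 ≤ h c' ∧ LfP h x c c' p ≤ 0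

theorem seg_param {h x : V → ℝ} {u v : V} {p : ℝ × ℝ} (hp : p ∈ segment ℝ (pos h x u) (pos h x v)) :
    ∃ s : ℝ, 0 ≤ s ∧ s ≤ 1 ∧ p.1 = (1 - s) * x u + s * x v ∧ p.2 = (1 - s) * h u + s * h v := by
  obtain ⟨a, b, ha, hb, hab, rfl⟩ := hp
  refine ⟨b, hb, by linarith, ?_, ?_⟩
  · have : a = 1 - b := by linarith
    simp [pos, this]
  · have : a = 1 - b := by linarith
    simp [pos, this]

theorem LfP_comb {h x : V → ℝ} {c c' u v : V} {p : ℝ × ℝ} {s : ℝ}
    (h1 : p.1 = (1 - s) * x u + s * x v) (h2 : p.2 = (1 - s) * h u + s * h v) :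
    LfP h x c c' p = (1 - s) * Lf h x c c' u + s * Lf h x c c' v := by
  unfold LfP Lf; rw [h1, h2]; ring

structure PlaneInv (d : Dat V) (ord C : List V) (h x : V → ℝ) : Prop where
  wl : ∀ u v, Ed d ord u v → ∀ p ∈ segment ℝ (pos h x u) (pos h x v), WL h x C p
  inj : ∀ u v, In d ord u → In d ord v → pos h x u = pos h x v → u = v
  off : ∀ u v w, Ed d ord u v → In d ord w → w ≠ u → w ≠ v →
    pos h x w ∉ segment ℝ (pos h x u) (pos h x v)
  cross : ∀ u v u' v', Ed d ord u v → Ed d ord u' v' → s(u, v) ≠ s(u', v') →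
    ∀ z ∈ segment ℝ (pos h x u) (pos h x v), z ∈ segment ℝ (pos h x u') (pos h x v') →
      ∃ w, (w = u ∨ w = v) ∧ (w = u' ∨ w = v') ∧ z = pos h x w

theorem PlaneInv.wlv {d : Dat V} {ord C : List V} {h x : V → ℝ} (I : PlaneInv d ord C h x)
    {y : V} (hy : In d ord y) : WL h x C (pos h x y) := by
  rcases hy with hy | rfl | rfl
  · exact I.wl (d.lo y) y (Or.inl ⟨hy, by simp [Dat.N]⟩) _ (right_mem_segment _ _ _)
  · exact I.wl d.b d.t (Or.inr ⟨rfl, rfl⟩) _ (left_mem_segment _ _ _)
  · exact I.wl d.b d.t (Or.inr ⟨rfl, rfl⟩) _ (right_mem_segment _ _ _)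

theorem N_bounds {d : Dat V} {h : V → ℝ} {v w : V}
    (hs : (d.N v).Pairwise (fun a b => h a < h b)) (hw : w ∈ d.N v) :
    h (d.lo v) ≤ h w ∧ h w ≤ h (d.hi v) := by
  constructor
  · rcases mem_cons.1 hw with rfl | hw
    · exact le_rfl
    · exact ((pairwise_cons.1 hs).1 w hw).le
  · have e : d.N v = (d.lo v :: d.mid v) ++ [d.hi v] := rfl
    rw [e] at hs hw
    rcases mem_append.1 hw with hw | hw
    · exact ((pairwise_append.1 hs).2.2 w hw _ (by simp)).le
    · simp at hw; rw [hw]

theorem Build.plane {d : Dat V} {ord C : List V} (hB : Build d ord C) {h x : V → ℝ}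
    (H : Mono d ord h) (hx : ∀ z ∈ ord, Sees d h x z) : PlaneInv d ord C h x := by
  induction hB with
  | base hne =>
    have hE : ∀ u v, Ed d [] u v → u = d.b ∧ v = d.t := by
      rintro u v (h | h)
      · simp at h
      · exact h
    have hI : ∀ u, In d [] u → u = d.b ∨ u = d.t := by
      rintro u (h | h)
      · simp at h
      · exact h
    have hbt := H.1
    refine ⟨?_, ?_, ?_, ?_⟩
    · intro u v e p hp
      obtain ⟨rfl, rfl⟩ := hE u v e
      obtain ⟨s, s0, s1, e1, e2⟩ := seg_param hp
      refine ⟨d.b, d.t, infix_refl _, by nlinarith, by nlinarith, ?_⟩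
      rw [LfP_comb e1 e2]
      unfold Lf; nlinarith
    · intro u v hu hv e
      have e2 : h u = h v := congrArg Prod.snd e
      rcases hI u hu with rfl | rfl <;> rcases hI v hv with rfl | rfl <;>
        first | rfl | (exfalso; linarith)
    · intro u v w e hw h1 h2
      obtain ⟨rfl, rfl⟩ := hE u v e
      rcases hI w hw with rfl | rfl <;> contradiction
    · intro u v u' v' e e' hne
      obtain ⟨rfl, rfl⟩ := hE u v e
      obtain ⟨rfl, rfl⟩ := hE u' v' e'
      exact absurd rfl hne
  | @step ord A B v hB h1 h2 h3 ih =>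
    have I := ih H.tail fun z hz => hx z (mem_cons_of_mem _ hz)
    have hsC := hB.sorted H.tail
    have hinf : d.N v <:+: A ++ d.lo v :: (d.mid v ++ d.hi v :: B) :=
      ⟨A, B, by simp [Dat.N]⟩
    have hsN : (d.N v).Pairwise (fun a b => h a < h b) := hsC.sublist hinf.sublist
    have hsee : IsChain (fun c c' => 0 < Lf h x c c' v) (d.N v) := hx v mem_cons_self
    obtain ⟨hlo, hhi⟩ := H.2 v mem_cons_self
    have hvI : ¬ In d ord v := not_in_of h1 h2 h3
    have hNI : ∀ w ∈ d.N v, In d ord w := fun w hw => hB.mem w (mem_N_sub hw)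
    have mlo : d.lo v ∈ d.N v := by simp [Dat.N]
    have mhi : d.hi v ∈ d.N v := by simp [Dat.N]
    -- localisation of contour pairs
    have loc : ∀ c c', [c, c'] <:+: A ++ d.lo v :: (d.mid v ++ d.hi v :: B) →
        ([c, c'] <:+: A ++ [d.lo v] ∧ h c' ≤ h (d.lo v)) ∨ [c, c'] <:+: d.N v ∨
          ([c, c'] <:+: d.hi v :: B ∧ h (d.hi v) ≤ h c) := by
      intro c c' hc
      rcases pair_infix_split hc with hc | hc
      · refine Or.inl ⟨hc, ?_⟩
        have m : c' ∈ A ++ [d.lo v] := hc.subset (by simp)
        rcases mem_append.1 m with m | m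
        · exact ((pairwise_append.1 hsC).2.2 c' m _ (by simp)).le
        · simp at m; rw [m]
      · have : d.lo v :: (d.mid v ++ d.hi v :: B) = (d.lo v :: d.mid v) ++ d.hi v :: B := rfl
        rw [this] at hc
        rcases pair_infix_split hc with hc | hc
        · exact Or.inr (Or.inl hc)
        · refine Or.inr (Or.inr ⟨hc, ?_⟩)
          have m : c ∈ d.hi v :: B := hc.subset (by simp)
          rcases mem_cons.1 m with m | m
          · rw [m]
          · have e : A ++ d.lo v :: (d.mid v ++ d.hi v :: B) =
                (A ++ d.lo v :: d.mid v) ++ d.hi v :: B := by simp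
            rw [e] at hsC
            exact ((pairwise_cons.1 (pairwise_append.1 hsC).2.1).1 c m).le
    -- new half-open segments avoid the old drawing
    have avoid : ∀ w ∈ d.N v, ∀ p ∈ segment ℝ (pos h x w) (pos h x v),
        WL h x (A ++ d.lo v :: (d.mid v ++ d.hi v :: B)) p → p = pos h x w := by
      intro w hw p hp ⟨c, c', hc, y1, y2, hL⟩
      obtain ⟨s, s0, s1, e1, e2⟩ := seg_param hp
      rcases s0.eq_or_lt with rfl | s0'
      · ext
        · simpa [pos] using e1
        · simpa [pos] using e2
      exfalso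
      obtain ⟨b1, b2⟩ := N_bounds hsN hw
      rcases loc c c' hc with ⟨_, hc⟩ | hc | ⟨_, hc⟩
      · nlinarith
      · have := fan h x v _ hsN hsee hw hc s0' s1 (e2 ▸ y1) (e2 ▸ y2)
        rw [LfP_comb e1 e2] at hL
        linarith
      · nlinarith
    have iA : [d.lo v, v] <:+: A ++ d.lo v :: v :: d.hi v :: B := ⟨A, d.hi v :: B, by simp⟩
    have iB : [v, d.hi v] <:+: A ++ d.lo v :: v :: d.hi v :: B := ⟨A ++ [d.lo v], B, by simp⟩
    have upd : ∀ p, WL h x (A ++ d.lo v :: (d.mid v ++ d.hi v :: B)) p →
        WL h x (A ++ d.lo v :: v :: d.hi v :: B) p := by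
      rintro p ⟨c, c', hc, y1, y2, hL⟩
      rcases loc c c' hc with ⟨hc, _⟩ | hc | ⟨hc, _⟩
      · exact ⟨c, c', hc.trans ⟨[], v :: d.hi v :: B, by simp⟩, y1, y2, hL⟩
      · have m1 : c ∈ d.N v := hc.subset (by simp)
        have m2 : c' ∈ d.N v := hc.subset (by simp)
        have hlt := pair_lt hsN hc
        have b1 := (N_bounds hsN m1).1
        have b2 := (N_bounds hsN m2).2
        -- generic step
        have gen : ∀ w ∈ d.N v, ∀ s : ℝ, 0 ≤ s → s ≤ 1 → p.2 = (1 - s) * h w + s * h v →
            p.1 ≤ (1 - s) * x w + s * x v := by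
          intro w hw s s0 s1 e2
          have hq : 0 ≤ (1 - s) * Lf h x c c' w + s * Lf h x c c' v := by
            rcases s0.eq_or_lt with rfl | s0'
            · simp only [sub_zero, one_mul, zero_mul, add_zero] at e2 ⊢
              rcases pair_between hsN hc hw with q | q
              · have := sorted_inj hsN hw m1 (by linarith)
                subst this; unfold Lf; linarith
              · have := sorted_inj hsN hw m2 (by linarith)
                subst this; unfold Lf; linarith
            · exact (fan h x v _ hsN hsee hw hc s0' s1 (e2 ▸ y1) (e2 ▸ y2)).le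
          have id : (1 - s) * Lf h x c c' w + s * Lf h x c c' v - LfP h x c c' p =
              (h c' - h c) * ((1 - s) * x w + s * x v - p.1) := by
            unfold Lf LfP; rw [e2]; ring
          by_contra hn
          push Not at hn
          have : (h c' - h c) * ((1 - s) * x w + s * x v - p.1) < 0 :=
            mul_neg_of_pos_of_neg (by linarith) (by linarith)
          linarith
        rcases le_total p.2 (h v) with hp | hp
        · refine ⟨d.lo v, v, iA, by linarith, hp, ?_⟩
          have hd : 0 < h v - h (d.lo v) := by linarith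
          have := gen _ mlo ((p.2 - h (d.lo v)) / (h v - h (d.lo v)))
            (div_nonneg (by linarith) hd.le) ((div_le_one hd).2 (by linarith))
            (by field_simp; ring)
          have h5 := mul_le_mul_of_nonneg_left this hd.le
          have id : (h v - h (d.lo v)) * ((1 - (p.2 - h (d.lo v)) / (h v - h (d.lo v))) *
              x (d.lo v) + (p.2 - h (d.lo v)) / (h v - h (d.lo v)) * x v) =
              (h v - p.2) * x (d.lo v) + (p.2 - h (d.lo v)) * x v := by
            field_simp; ring
          unfold LfP; linarith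
        · refine ⟨v, d.hi v, iB, hp, by linarith, ?_⟩
          have hd : 0 < h (d.hi v) - h v := by linarith
          have := gen _ mhi ((h (d.hi v) - p.2) / (h (d.hi v) - h v))
            (div_nonneg (by linarith) hd.le) ((div_le_one hd).2 (by linarith))
            (by field_simp; ring)
          have h5 := mul_le_mul_of_nonneg_left this hd.le
          have id : (h (d.hi v) - h v) * ((1 - (h (d.hi v) - p.2) / (h (d.hi v) - h v)) *
              x (d.hi v) + (h (d.hi v) - p.2) / (h (d.hi v) - h v) * x v) =
              (p.2 - h v) * x (d.hi v) + (h (d.hi v) - p.2) * x v := by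
            field_simp; ring
          unfold LfP; linarith
      · exact ⟨c, c', hc.trans ⟨A ++ [d.lo v, v], [], by simp⟩, y1, y2, hL⟩
    have hE : ∀ u w, Ed d (v :: ord) u w → Ed d ord u w ∨ (w = v ∧ u ∈ d.N v) := by
      rintro u w (⟨e1, e2⟩ | e)
      · rcases mem_cons.1 e1 with rfl | e1
        · exact Or.inr ⟨rfl, e2⟩
        · exact Or.inl (Or.inl ⟨e1, e2⟩)
      · exact Or.inl (Or.inr e)
    have hI : ∀ u, In d (v :: ord) u → In d ord u ∨ u = v := by
      rintro u (e | e)
      · rcases mem_cons.1 e with rfl | e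
        · exact Or.inr rfl
        · exact Or.inl (Or.inl e)
      · exact Or.inl (Or.inr e)
    have vnot : ¬ WL h x (A ++ d.lo v :: (d.mid v ++ d.hi v :: B)) (pos h x v) := by
      intro hw
      have := avoid _ mlo _ (right_mem_segment _ _ _) hw
      have e2 : h v = h (d.lo v) := congrArg Prod.snd this
      linarith
    -- an old edge and a new edge
    have oldnew : ∀ u u' w, Ed d ord u u' → w ∈ d.N v →
        ∀ z ∈ segment ℝ (pos h x u) (pos h x u'), z ∈ segment ℝ (pos h x w) (pos h x v) →
          (w = u ∨ w = u') ∧ z = pos h x w := by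
      intro u u' w e hw z hz hz'
      have := avoid w hw z hz' (I.wl u u' e z hz)
      refine ⟨?_, this⟩
      by_contra hn
      push Not at hn
      exact I.off u u' w e (hNI w hw) hn.1 hn.2 (this ▸ hz)
    have offnew : ∀ w ∈ d.N v, ∀ y, In d ord y → pos h x y ∈ segment ℝ (pos h x w) (pos h x v) →
        y = w := by
      intro w hw y hy hm
      exact I.inj _ _ hy (hNI w hw) (avoid w hw _ hm (I.wlv hy))
    refine ⟨?_, ?_, ?_, ?_⟩
    · intro u w e p hp
      rcases hE u w e with e | ⟨rfl, e⟩
      · exact upd p (I.wl u w e p hp)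
      · obtain ⟨s, s0, s1, e1, e2⟩ := seg_param hp
        obtain ⟨b1, b2⟩ := N_bounds hsN e
        rcases le_total (h u) (h w) with q | q
        · refine ⟨d.lo w, w, iA, by nlinarith, by nlinarith, ?_⟩
          rw [LfP_comb e1 e2]
          have z1 : Lf h x (d.lo w) w w = 0 := by unfold Lf; ring
          have z2 : Lf h x (d.lo w) w u ≤ 0 := by
            rcases b1.eq_or_lt with b1 | b1
            · have := sorted_inj hsN mlo e b1
              rw [← this]; unfold Lf; linarith
            · exact (up_lemma h x w _ hsN hsee _ mlo u e b1 q).le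
          rw [z1]; nlinarith
        · refine ⟨w, d.hi w, iB, by nlinarith, by nlinarith, ?_⟩
          rw [LfP_comb e1 e2]
          have z1 : Lf h x w (d.hi w) w = 0 := by unfold Lf; ring
          have z2 : Lf h x w (d.hi w) u ≤ 0 := by
            rcases b2.eq_or_lt with b2 | b2
            · have := sorted_inj hsN e mhi b2
              rw [this]; unfold Lf; linarith
            · exact (down_lemma h x w _ hsN hsee _ mhi u e b2 q).le
          rw [z1]; nlinarith
    · intro u w hu hw e
      rcases hI u hu with hu1 | rfl <;> rcases hI w hw with hw1 | rfl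
      · exact I.inj u w hu1 hw1 e
      · exact absurd (e ▸ I.wlv hu1) vnot
      · exact absurd (e ▸ I.wlv hw1) vnot
      · rfl
    · intro u u' w e hw n1 n2 hm
      rcases hE u u' e with e0 | ⟨rfl, e0⟩
      · rcases hI w hw with hw1 | rfl
        · exact I.off u u' w e0 hw1 n1 n2 hm
        · exact vnot (I.wl u u' e0 _ hm)
      · rcases hI w hw with hw1 | rfl
        · exact n1 (offnew u e0 w hw1 hm)
        · exact n2 rfl
    · intro u w u' w' e0 e0' hne z hz hz'
      rcases hE u w e0 with e | ⟨rfl, e⟩ <;> rcases hE u' w' e0' with e' | ⟨rfl, e'⟩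
      · exact I.cross u w u' w' e e' hne z hz hz'
      · obtain ⟨q1, q2⟩ := oldnew u w u' e e' z hz hz'
        exact ⟨u', q1, Or.inl rfl, q2⟩
      · obtain ⟨q1, q2⟩ := oldnew u' w' u e' e z hz' hz
        exact ⟨u, Or.inl rfl, q1, q2⟩
      · have hne' : u ≠ u' := fun q => hne (by rw [q])
        obtain ⟨s, s0, s1, e1, e2⟩ := seg_param hz
        obtain ⟨r, r0, r1, f1, f2⟩ := seg_param hz'
        by_cases hs1 : s = 1
        · refine ⟨w', Or.inr rfl, Or.inr rfl, ?_⟩
          ext
          · simpa [pos, hs1] using e1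
          · simpa [pos, hs1] using e2
        by_cases hr1 : r = 1
        · refine ⟨w', Or.inr rfl, Or.inr rfl, ?_⟩
          ext
          · simpa [pos, hr1] using f1
          · simpa [pos, hr1] using f2
        exfalso
        have s1' : 0 < 1 - s := sub_pos.2 (lt_of_le_of_ne s1 hs1)
        have r1' : 0 < 1 - r := sub_pos.2 (lt_of_le_of_ne r1 hr1)
        rcases le_total s r with q | q
        · apply hne'
          apply offnew u' e' u (hNI u e)
          refine ⟨(1 - r) / (1 - s), (r - s) / (1 - s), by positivity,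
            div_nonneg (by linarith) s1'.le, by field_simp; ring, ?_⟩
          ext
          · simp only [pos, Prod.fst_add, Prod.smul_fst, smul_eq_mul]
            field_simp; linarith
          · simp only [pos, Prod.snd_add, Prod.smul_snd, smul_eq_mul]
            field_simp; linarith
        · apply hne'
          symm
          apply offnew u e u' (hNI u' e')
          refine ⟨(1 - s) / (1 - r), (s - r) / (1 - r), by positivity,
            div_nonneg (by linarith) r1'.le, by field_simp; ring, ?_⟩
          ext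
          · simp only [pos, Prod.fst_add, Prod.smul_fst, smul_eq_mul]
            field_simp; linarith
          · simp only [pos, Prod.snd_add, Prod.smul_snd, smul_eq_mul]
            field_simp; linarith

end Pool.Agent.MP_d347ac_co.H31
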