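import Pool.Agent.MP_d347ac_co.H31Plane

set_option autoImplicit false

namespace Pool.Agent.MP_d347ac_co.H31

open List

variable {V : Type}

def Tri3 (P : V → V → V → Prop) : List V → Prop
  | a :: y :: c :: L => P a y c ∧ Tri3 P (y :: c :: L)
  | _ => True

theorem tri3_cons {P : V → V → V → Prop} {a y c : V} {L : List V} :
    Tri3 P (a :: y :: c :: L) ↔ P a y c ∧ Tri3 P (y :: c :: L) := Iff.rfl

@[simp] theorem tri3_pair {P : V → V → V → Prop} {a y : V} : Tri3 P [a, y] := trivial

theorem tri3_split {P : V → V → V → Prop} {a y : V} {L : List V} :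
    ∀ A : List V, Tri3 P (A ++ a :: y :: L) ↔ Tri3 P (A ++ [a, y]) ∧ Tri3 P (a :: y :: L)
  | [] => by simp
  | [p] => by simp [tri3_cons]
  | [p, q] => by simp [tri3_cons, and_assoc]
  | p :: q :: r :: A => by
    have := tri3_split (P := P) (a := a) (y := y) (L := L) (q :: r :: A)
    simp only [cons_append] at this ⊢
    rw [tri3_cons, tri3_cons, this, and_assoc]

theorem tri3_imp {P P' : V → V → V → Prop} :
    ∀ L : List V, (∀ a y c, a ∈ L → y ∈ L → c ∈ L → P a y c → P' a y c) → Tri3 P L → Tri3 P' L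
  | [] => fun _ _ => trivial
  | [_] => fun _ _ => trivial
  | [_, _] => fun _ _ => trivial
  | a :: y :: c :: L => fun H h =>
    ⟨H a y c (by simp) (by simp) (by simp) h.1,
      tri3_imp (y :: c :: L) (fun a' y' c' ha hy hc =>
        H a' y' c' (mem_cons_of_mem _ ha) (mem_cons_of_mem _ hy) (mem_cons_of_mem _ hc)) h.2⟩

theorem tri3_last {P P' : V → V → V → Prop} {l z w : V} :
    ∀ A : List V, (∀ a y c, a ∈ A → y ∈ A → c ∈ A ++ [l] → P a y c → P' a y c) →
      (∀ a ∈ A, P a l z → P' a l w) → Tri3 P (A ++ [l, z]) → Tri3 P' (A ++ [l, w])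
  | [] => fun _ _ _ => trivial
  | [p] => fun _ H h => ⟨H p (by simp) h.1, trivial⟩
  | [p, q] => fun H0 H h =>
    ⟨H0 p q l (by simp) (by simp) (by simp) h.1, H q (by simp) h.2.1, trivial⟩
  | p :: q :: r :: A => fun H0 H h =>
    ⟨H0 p q r (by simp) (by simp) (by simp) h.1,
      tri3_last (q :: r :: A) (fun a y c ha hy hc =>
        H0 a y c (mem_cons_of_mem _ ha) (mem_cons_of_mem _ hy) (mem_cons_of_mem _ hc))
        (fun a ha => H a (mem_cons_of_mem _ ha)) h.2⟩

theorem tri3_first {P P' : V → V → V → Prop} {r z w : V} :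
    ∀ B : List V, (∀ a y c, a ∈ r :: B → y ∈ B → c ∈ B → P a y c → P' a y c) →
      (∀ c ∈ B, P z r c → P' w r c) → Tri3 P (z :: r :: B) → Tri3 P' (w :: r :: B)
  | [] => fun _ _ _ => trivial
  | [c] => fun _ H h => ⟨H c (by simp) h.1, trivial⟩
  | c :: e :: B => fun H0 H h =>
    ⟨H c (by simp) h.1, H0 r c e (by simp) (by simp) (by simp) h.2.1,
      tri3_imp (c :: e :: B) (fun a y c' ha hy hc => H0 a y c' (mem_cons_of_mem _ ha) hy hc)
        h.2.2⟩

theorem tri3_of_sorted {P : V → V → V → Prop} {h : V → ℝ} :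
    ∀ L : List V, L.Pairwise (fun a b => h a < h b) →
      (∀ a y c, a ∈ L → y ∈ L → c ∈ L → h a < h y → h y < h c → P a y c) → Tri3 P L
  | [] => fun _ _ => trivial
  | [_] => fun _ _ => trivial
  | [_, _] => fun _ _ => trivial
  | a :: y :: c :: L => fun hs H =>
    ⟨H a y c (by simp) (by simp) (by simp) ((pairwise_cons.1 hs).1 y (by simp))
        ((pairwise_cons.1 (pairwise_cons.1 hs).2).1 c (by simp)),
      tri3_of_sorted (y :: c :: L) (pairwise_cons.1 hs).2 (fun a' y' c' ha hy hc =>
        H a' y' c' (mem_cons_of_mem _ ha) (mem_cons_of_mem _ hy) (mem_cons_of_mem _ hc))⟩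

def anc (D : V → Prop) [DecidablePred D] (r : V) : List V → V
  | [] => r
  | y :: M => if D y then y else anc D r M

theorem anc_spec (D : V → Prop) [DecidablePred D] (r : V) :
    ∀ M : List V, anc D r M = r ∨ (anc D r M ∈ M ∧ D (anc D r M))
  | [] => Or.inl rfl
  | y :: M => by
    unfold anc
    split_ifs with hy
    · exact Or.inr ⟨by simp, hy⟩
    · rcases anc_spec D r M with h | h
      · exact Or.inl h
      · exact Or.inr ⟨mem_cons_of_mem _ h.1, h.2⟩

theorem small3 {P1 P2 P3 : ℝ} (h1 : 0 < P1) (h2 : 0 < P2) (h3 : 0 < P3) (k1 k2 k3 : ℝ) :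
    ∃ ε : ℝ, 0 < ε ∧ ε * k1 < P1 ∧ ε * k2 < P2 ∧ ε * k3 < P3 := by
  have key : ∀ P k : ℝ, 0 < P → ∀ᶠ ε in nhdsWithin (0 : ℝ) (Set.Ioi 0), ε * k < P := by
    intro P k hP
    apply Filter.Eventually.filter_mono nhdsWithin_le_nhds
    have : ContinuousAt (fun ε : ℝ => ε * k) 0 := by fun_prop
    exact this.eventually_lt continuousAt_const (by simpa using hP)
  have := ((key P1 k1 h1).and ((key P2 k2 h2).and (key P3 k3 h3))).and self_mem_nhdsWithin
  obtain ⟨ε, h, hε⟩ := this.exists
  exact ⟨ε, hε, h⟩

theorem append_single_eq (M : List V) (r : V) :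
    ∃ L, M ++ [r] = M.headD r :: L := by
  cases M with
  | nil => exact ⟨[], rfl⟩
  | cons y M => exact ⟨M ++ [r], rfl⟩

theorem bump [DecidableEq V] (h : V → ℝ) (D : V → Prop) [DecidablePred D] (z r : V) :
    ∀ (M : List V) (l : V) (ξ : V → ℝ) (σ : ℝ),
      (l :: (M ++ [r])).Pairwise (fun a b => h a < h b) → z ∉ M → (∀ y, D y → ξ y = 0) →
      0 ≤ ξ l → 0 ≤ ξ r → 0 < ξ z → 0 < Lf h ξ l (anc D r M) z →
      (∀ y ∈ M, D y → 0 < (h r - h y) * ξ z - (h z - h y) * ξ r) →
      ξ (anc D r M) - ξ l < σ * (h (anc D r M) - h l) →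
      ∃ ξ' : V → ℝ, (∀ y, y ∉ M ∨ D y → ξ' y = ξ y) ∧ (∀ y ∈ M, ¬ D y → 0 < ξ' y) ∧
        IsChain (fun c c' => 0 < Lf h ξ' c c' z) (l :: (M ++ [r])) ∧
        Tri3 (fun a y c => ¬ D y → 0 < Lf h ξ' a c y) (l :: (M ++ [r])) ∧
        ξ' (M.headD r) - ξ' l < σ * (h (M.headD r) - h l) := by
  intro M
  induction M with
  | nil =>
    intro l ξ σ _ _ _ _ _ _ hv _ hσ
    exact ⟨ξ, fun _ _ => rfl, by simp, by simpa [anc] using hv, trivial, by simpa [anc] using hσ⟩
  | cons y M ih =>
    intro l ξ σ hs hz hD hl hr hzp hv hDv hσ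
    have hs' : (y :: (M ++ [r])).Pairwise (fun a b => h a < h b) := (pairwise_cons.1 hs).2
    have hly : h l < h y := (pairwise_cons.1 hs).1 y (by simp)
    have hyM : ∀ c ∈ M ++ [r], h y < h c := (pairwise_cons.1 hs').1
    have hyM' : y ∉ M := fun hm => lt_irrefl _ (hyM y (by simp [hm]))
    have hlM : l ∉ M := fun hm => by have := hyM l (by simp [hm]); linarith
    have hzM : z ∉ M := fun hm => hz (mem_cons_of_mem _ hm)
    have hzy : z ≠ y := fun e => hz (e ▸ mem_cons_self)
    have hya : h y < h (anc D r M) := by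
      rcases anc_spec D r M with e | e
      · rw [e]; exact hyM r (by simp)
      · exact hyM _ (by simp [e.1])
    have ha0 : 0 ≤ ξ (anc D r M) := by
      rcases anc_spec D r M with e | e
      · rw [e]; exact hr
      · rw [hD _ e.2]
    obtain ⟨L, hL⟩ := append_single_eq M r
    have hw : h y < h (M.headD r) := hyM _ (by rw [hL]; simp)
    by_cases hy : D y
    · have e : anc D r (y :: M) = y := by simp [anc, hy]
      rw [e] at hv hσ
      have hv' : 0 < Lf h ξ y (anc D r M) z := by
        rcases anc_spec D r M with e | e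
        · rw [e]; unfold Lf; rw [hD y hy]
          have := hDv y (by simp) hy; linarith
        · unfold Lf; rw [hD y hy, hD _ e.2]
          have := mul_pos (sub_pos.2 hya) hzp; linarith
      obtain ⟨ξ', a1, a2, a3, a4, -⟩ := ih y ξ
        ((ξ (anc D r M) - ξ y) / (h (anc D r M) - h y) + 1) hs' hzM hD (by rw [hD y hy]) hr hzp hv'
        (fun c hc => hDv c (mem_cons_of_mem _ hc))
        (by
          have : 0 < h (anc D r M) - h y := by linarith
          rw [add_mul, div_mul_cancel₀ _ this.ne']; linarith)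
      have b1 : ξ' l = ξ l := a1 l (Or.inl hlM)
      have b2 : ξ' y = ξ y := a1 y (Or.inl hyM')
      have b3 : ξ' z = ξ z := a1 z (Or.inl hzM)
      refine ⟨ξ', ?_, ?_, ?_, ?_, ?_⟩
      · rintro c (hc | hc)
        · exact a1 c (Or.inl fun hm => hc (mem_cons_of_mem _ hm))
        · exact a1 c (Or.inr hc)
      · intro c hc hn
        rcases mem_cons.1 hc with rfl | hc
        · exact absurd hy hn
        · exact a2 c hc hn
      · rw [cons_append, isChain_cons_cons]
        refine ⟨?_, a3⟩
        unfold Lf at hv ⊢; rw [b1, b2, b3]; exact hv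
      · rw [cons_append, hL, tri3_cons, ← hL]
        exact ⟨fun hn => absurd hy hn, a4⟩
      · simp only [headD_cons]; rw [b1, b2]; exact hσ
    · have e : anc D r (y :: M) = anc D r M := by simp [anc, hy]
      rw [e] at hv hσ
      set a := anc D r M with ha
      have hla : 0 < h a - h l := by linarith
      set v0 := ((h a - h y) * ξ l + (h y - h l) * ξ a) / (h a - h l) with hv0
      have hv0' : (h a - h l) * v0 = (h a - h y) * ξ l + (h y - h l) * ξ a := by
        rw [hv0]; field_simp
      have v0n : 0 ≤ v0 := div_nonneg (add_nonneg (mul_nonneg (by linarith) hl)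
        (mul_nonneg (by linarith) ha0)) hla.le
      have P1 : 0 < σ * (h y - h l) - (v0 - ξ l) := by
        have : (h a - h l) * (σ * (h y - h l) - (v0 - ξ l)) =
            (h y - h l) * (σ * (h a - h l) - (ξ a - ξ l)) := by
          linear_combination (-1) * hv0'
        have h2 : 0 < (h y - h l) * (σ * (h a - h l) - (ξ a - ξ l)) :=
          mul_pos (by linarith) (by linarith)
        rw [← this] at h2
        exact (pos_iff_pos_of_mul_pos h2).1 hla
      have P2 : 0 < (h y - h l) * ξ z - (h y - h z) * ξ l - (h z - h l) * v0 := by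
        have : (h a - h l) * ((h y - h l) * ξ z - (h y - h z) * ξ l - (h z - h l) * v0) =
            (h y - h l) * Lf h ξ l a z := by
          unfold Lf; linear_combination (-(h z - h l)) * hv0'
        have h2 : 0 < (h y - h l) * Lf h ξ l a z := mul_pos (by linarith) hv
        rw [← this] at h2
        exact (pos_iff_pos_of_mul_pos h2).1 hla
      have P3 : 0 < (h a - h y) * ξ z - (h a - h z) * v0 - (h z - h y) * ξ a := by
        have : (h a - h l) * ((h a - h y) * ξ z - (h a - h z) * v0 - (h z - h y) * ξ a) =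
            (h a - h y) * Lf h ξ l a z := by
          unfold Lf; linear_combination (-(h a - h z)) * hv0'
        have h2 : 0 < (h a - h y) * Lf h ξ l a z := mul_pos (by linarith) hv
        rw [← this] at h2
        exact (pos_iff_pos_of_mul_pos h2).1 hla
      obtain ⟨ε, ε0, q1, q2, q3⟩ := small3 P1 P2 P3 1 (h z - h l) (h a - h z)
      have hly' : l ≠ y := fun e => by rw [e] at hly; exact lt_irrefl _ hly
      have hay : a ≠ y := fun e => by rw [e] at hya; exact lt_irrefl _ hya
      have hry : r ≠ y := fun e => by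
        have := hyM r (by simp); rw [e] at this; exact lt_irrefl _ this
      have u1 : Function.update ξ y (v0 + ε) y = v0 + ε := Function.update_self _ _ _
      have u2 : Function.update ξ y (v0 + ε) z = ξ z := Function.update_of_ne hzy _ _
      have u3 : Function.update ξ y (v0 + ε) a = ξ a := Function.update_of_ne hay _ _
      have u4 : Function.update ξ y (v0 + ε) r = ξ r := Function.update_of_ne hry _ _
      have u5 : Function.update ξ y (v0 + ε) l = ξ l := Function.update_of_ne hly' _ _
      have hyl : 0 < h y - h l := by linarith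
      obtain ⟨ξ', a1, a2, a3, a4, a5⟩ := ih y (Function.update ξ y (v0 + ε))
        ((v0 + ε - ξ l) / (h y - h l)) hs' hzM
        (fun c hc => by
          rw [Function.update_of_ne (fun e : c = y => hy (e ▸ hc))]; exact hD c hc)
        (by rw [u1]; linarith) (by rw [u4]; exact hr) (by rw [u2]; exact hzp)
        (by unfold Lf; rw [u1, u2, u3]; linarith)
        (fun c hc hc' => by rw [u2, u4]; exact hDv c (mem_cons_of_mem _ hc) hc')
        (by
          rw [u1, u3, div_mul_eq_mul_div, lt_div_iff₀ hyl]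
          have : 0 < ε * (h a - h l) := mul_pos ε0 hla
          linarith)
      have b1 : ξ' l = ξ l := (a1 l (Or.inl hlM)).trans u5
      have b2 : ξ' y = v0 + ε := (a1 y (Or.inl hyM')).trans u1
      have b3 : ξ' z = ξ z := (a1 z (Or.inl hzM)).trans u2
      refine ⟨ξ', ?_, ?_, ?_, ?_, ?_⟩
      · rintro c (hc | hc)
        · rw [a1 c (Or.inl fun hm => hc (mem_cons_of_mem _ hm))]
          exact Function.update_of_ne (fun e : c = y => hc (e ▸ mem_cons_self)) _ _
        · rw [a1 c (Or.inr hc)]
          exact Function.update_of_ne (fun e : c = y => hy (e ▸ hc)) _ _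
      · intro c hc hn
        rcases mem_cons.1 hc with rfl | hc
        · rw [b2]; linarith
        · exact a2 c hc hn
      · rw [cons_append, isChain_cons_cons]
        refine ⟨?_, a3⟩
        unfold Lf; rw [b1, b2, b3]; linarith
      · rw [cons_append, hL, tri3_cons, ← hL]
        refine ⟨fun _ => ?_, a4⟩
        rw [b2, div_mul_eq_mul_div, lt_div_iff₀ hyl] at a5
        unfold Lf; rw [b1, b2]; linarith
      · simp only [headD_cons]; rw [b1, b2]; linarith

/-- concavity invariant along the contour -/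
def Conc (d : Dat V) (D : V → Prop) (ord : List V) (h ξ : V → ℝ) (a y c : V) : Prop :=
  ¬ D y → 0 ≤ Lf h ξ a c y ∧ ((∀ u ∈ ord, y ∉ d.N u) → 0 < Lf h ξ a c y)

theorem Lf_congr {h ξ ξ' : V → ℝ} {a c y : V} (ha : ξ' a = ξ a) (hc : ξ' c = ξ c)
    (hy : ξ' y = ξ y) : Lf h ξ' a c y = Lf h ξ a c y := by
  unfold Lf; rw [ha, hc, hy]

theorem append_single_eq' (l : V) (M : List V) :
    ∃ L w, l :: M = L ++ [w] := by
  rcases (l :: M).eq_nil_or_concat with e | ⟨L, w, e⟩
  · simp at e
  · exact ⟨L, w, by simpa using e⟩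

theorem Build.topdown [DecidableEq V] {d : Dat V} {ord C : List V} (hB : Build d ord C)
    {h : V → ℝ} (H : Mono d ord h) (D : V → Prop) [DecidablePred D] (Db : D d.b) (Dt : D d.t)
    (hD : ∀ v ∈ ord, D v → ∀ w ∈ d.N v, D w) :
    ∀ ξ : V → ℝ, (∀ y, D y → ξ y = 0) → (∀ y ∈ C, ¬ D y → 0 < ξ y) →
      Tri3 (Conc d D ord h ξ) C →
      ∃ ξ' : V → ℝ, (∀ y, y ∈ C ∨ y ∉ ord ∨ D y → ξ' y = ξ y) ∧
        ∀ z ∈ ord, ¬ D z → Sees d h ξ' z := by
  induction hB with
  | base hne => intro ξ _ _ _; exact ⟨ξ, fun _ _ => rfl, by simp⟩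
  | @step ord A B z hB h1 h2 h3 ih =>
    intro ξ hξ hpos htri
    have ih := ih H.tail fun u hu => hD u (mem_cons_of_mem _ hu)
    have hsC := hB.sorted H.tail
    have hnd := hB.nodup
    have hinf : d.N z <:+: A ++ d.lo z :: (d.mid z ++ d.hi z :: B) :=
      ⟨A, B, by simp [Dat.N]⟩
    have hsN : (d.N z).Pairwise (fun a b => h a < h b) := hsC.sublist hinf.sublist
    obtain ⟨hlo, hhi⟩ := H.2 z mem_cons_self
    have hzI : ¬ In d ord z := not_in_of h1 h2 h3
    have hNI : ∀ w ∈ d.N z, In d ord w := fun w hw => hB.mem w (mem_N_sub hw)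
    have mlo : d.lo z ∈ d.N z := by simp [Dat.N]
    have mhi : d.hi z ∈ d.N z := by simp [Dat.N]
    have mmid : ∀ y ∈ d.mid z, y ∈ d.N z := fun y hy => by simp [Dat.N, hy]
    have hzM : z ∉ d.mid z := fun hm => hzI (hNI z (mmid z hm))
    have dA : ∀ y ∈ A, y ∉ d.N z := by
      intro y hy hn
      refine (nodup_append.1 hnd).2.2 y hy y ?_ rfl
      simp only [Dat.N, mem_cons, mem_append, not_mem_nil, or_false] at hn ⊢
      tauto
    have dB : ∀ y ∈ B, y ∉ d.N z := by
      intro y hy hn
      have e : A ++ d.lo z :: (d.mid z ++ d.hi z :: B) = (A ++ d.N z) ++ B := by simp [Dat.N]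
      rw [e] at hnd
      exact (nodup_append.1 hnd).2.2 y (mem_append_right _ hn) y hy rfl
    have hlM : d.lo z ∉ d.mid z := fun hm => by
      have := (pairwise_cons.1 hsN).1 (d.lo z) (by simp [hm]); exact lt_irrefl _ this
    have hrM : d.hi z ∉ d.mid z := fun hm => by
      have := (pairwise_append.1 (pairwise_cons.1 hsN).2).2.2 _ hm (d.hi z) (by simp)
      exact lt_irrefl _ this
    have hAl : ∀ a ∈ A, h a < h (d.lo z) := fun a ha =>
      (pairwise_append.1 hsC).2.2 a ha _ (by simp)
    have hBr : ∀ c ∈ B, h (d.hi z) < h c := by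
      intro c hc
      have e : A ++ d.lo z :: (d.mid z ++ d.hi z :: B) =
        (A ++ d.lo z :: d.mid z) ++ d.hi z :: B := by simp
      rw [e] at hsC
      exact (pairwise_cons.1 (pairwise_append.1 hsC).2.1).1 c hc
    rw [tri3_split, tri3_cons] at htri
    obtain ⟨t1, t2, t3⟩ := htri
    have nonneg : ∀ y ∈ A ++ d.lo z :: z :: d.hi z :: B, 0 ≤ ξ y := by
      intro y hy
      by_cases hy' : D y
      · rw [hξ y hy']
      · exact (hpos y hy hy').le
    -- step 1: the new values on the covered vertices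
    have step1 : ∃ ξ1 : V → ℝ, (∀ y, y ∉ d.mid z ∨ D y → ξ1 y = ξ y) ∧
        (∀ y ∈ d.mid z, ¬ D y → 0 < ξ1 y) ∧
        (¬ D z → IsChain (fun c c' => 0 < Lf h ξ1 c c' z) (d.N z)) ∧
        Tri3 (fun a y c => ¬ D y → 0 < Lf h ξ1 a c y) (d.N z) := by
      by_cases hz : D z
      · refine ⟨ξ, fun _ _ => rfl, fun y hy hn => absurd (hD z mem_cons_self hz y (mmid y hy)) hn,
          fun hn => absurd hz hn, ?_⟩
        exact tri3_of_sorted _ hsN fun a y c _ hy _ _ _ hn =>
          absurd (hD z mem_cons_self hz y hy) hn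
      · have hst : 0 < Lf h ξ (d.lo z) (d.hi z) z := by
          refine (t2 hz).2 ?_
          intro u hu hm
          rcases mem_cons.1 hu with rfl | hu
          · exact hzI (hNI _ hm)
          · exact hzI (hB.memN u hu z hm)
        have l0 := nonneg (d.lo z) (by simp)
        have r0 := nonneg (d.hi z) (by simp)
        have z0 := hpos z (by simp) hz
        have hmid : ∀ y ∈ d.mid z, h (d.lo z) < h y ∧ h y < h (d.hi z) := fun y hy =>
          ⟨(pairwise_cons.1 hsN).1 y (by simp [hy]),
            (pairwise_append.1 (pairwise_cons.1 hsN).2).2.2 _ hy (d.hi z) (by simp)⟩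
        have hv : 0 < Lf h ξ (d.lo z) (anc D (d.hi z) (d.mid z)) z := by
          rcases anc_spec D (d.hi z) (d.mid z) with e | e
          · rw [e]; exact hst
          · obtain ⟨q1, q2⟩ := hmid _ e.1
            have e0 := hξ _ e.2
            generalize anc D (d.hi z) (d.mid z) = a at *
            unfold Lf at hst ⊢
            rw [e0]
            rcases le_total (h a) (h z) with q | q
            · have := mul_pos (sub_pos.2 q1) z0
              have := mul_nonneg (sub_nonneg.2 q) l0
              linarith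
            · have i1 : (h (d.hi z) - h z) * ((h a - h (d.lo z)) * ξ z - (h a - h z) * ξ (d.lo z))
                  = (h a - h z) * ((h (d.hi z) - h (d.lo z)) * ξ z - (h (d.hi z) - h z) * ξ (d.lo z)
                    - (h z - h (d.lo z)) * ξ (d.hi z))
                    + (h a - h z) * ((h z - h (d.lo z)) * ξ (d.hi z))
                    + (h (d.hi z) - h a) * ((h z - h (d.lo z)) * ξ z) := by ring
              have j1 := mul_nonneg (sub_nonneg.2 q) hst.le
              have j2 := mul_nonneg (sub_nonneg.2 q) (mul_nonneg (sub_nonneg.2 hlo.le) r0)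
              have j3 := mul_pos (sub_pos.2 q2) (mul_pos (sub_pos.2 hlo) z0)
              have j4 : 0 < (h (d.hi z) - h z) *
                  ((h a - h (d.lo z)) * ξ z - (h a - h z) * ξ (d.lo z)) := by linarith
              have := (pos_iff_pos_of_mul_pos j4).1 (sub_pos.2 hhi)
              linarith
        have hDv : ∀ y ∈ d.mid z, D y →
            0 < (h (d.hi z) - h y) * ξ z - (h z - h y) * ξ (d.hi z) := by
          intro a ha _
          obtain ⟨q1, q2⟩ := hmid _ ha
          unfold Lf at hst
          rcases le_total (h z) (h a) with q | q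
          · have := mul_pos (sub_pos.2 q2) z0
            have := mul_nonneg (sub_nonneg.2 q) r0
            linarith
          · have i1 : (h z - h (d.lo z)) * ((h (d.hi z) - h a) * ξ z - (h z - h a) * ξ (d.hi z))
                = (h z - h a) * ((h (d.hi z) - h (d.lo z)) * ξ z - (h (d.hi z) - h z) * ξ (d.lo z)
                  - (h z - h (d.lo z)) * ξ (d.hi z))
                  + (h z - h a) * ((h (d.hi z) - h z) * ξ (d.lo z))
                  + (h a - h (d.lo z)) * ((h (d.hi z) - h z) * ξ z) := by ring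
            have j1 := mul_nonneg (sub_nonneg.2 q) hst.le
            have j2 := mul_nonneg (sub_nonneg.2 q) (mul_nonneg (sub_nonneg.2 hhi.le) l0)
            have j3 := mul_pos (sub_pos.2 q1) (mul_pos (sub_pos.2 hhi) z0)
            have j4 : 0 < (h z - h (d.lo z)) *
                ((h (d.hi z) - h a) * ξ z - (h z - h a) * ξ (d.hi z)) := by linarith
            exact (pos_iff_pos_of_mul_pos j4).1 (sub_pos.2 hlo)
        have hla : 0 < h (anc D (d.hi z) (d.mid z)) - h (d.lo z) := by
          rcases anc_spec D (d.hi z) (d.mid z) with e | e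
          · rw [e]; linarith
          · have := (hmid _ e.1).1; linarith
        obtain ⟨ξ1, a1, a2, a3, a4, -⟩ := bump h D z (d.hi z) (d.mid z) (d.lo z) ξ
          ((ξ (anc D (d.hi z) (d.mid z)) - ξ (d.lo z)) /
            (h (anc D (d.hi z) (d.mid z)) - h (d.lo z)) + 1) hsN hzM hξ l0 r0 z0 hv hDv
          (by rw [add_mul, div_mul_cancel₀ _ hla.ne']; linarith)
        exact ⟨ξ1, a1, a2, fun _ => a3, a4⟩
    obtain ⟨ξ1, a1, a2, a3, a4⟩ := step1
    have b1 : ξ1 (d.lo z) = ξ (d.lo z) := a1 _ (Or.inl hlM)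
    have b2 : ξ1 (d.hi z) = ξ (d.hi z) := a1 _ (Or.inl hrM)
    have b3 : ξ1 z = ξ z := a1 _ (Or.inl hzM)
    have bA : ∀ y ∈ A, ξ1 y = ξ y := fun y hy => a1 y (Or.inl fun hm => dA y hy (mmid y hm))
    have bB : ∀ y ∈ B, ξ1 y = ξ y := fun y hy => a1 y (Or.inl fun hm => dB y hy (mmid y hm))
    have same : ∀ a y c, ξ1 a = ξ a → ξ1 y = ξ y → ξ1 c = ξ c → y ∉ d.N z →
        Conc d D (z :: ord) h ξ a y c → Conc d D ord h ξ1 a y c := by
      intro a y c ea ey ec hy hc hn
      rw [Lf_congr ea ec ey]
      refine ⟨(hc hn).1, fun hm => (hc hn).2 ?_⟩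
      intro u hu
      rcases mem_cons.1 hu with rfl | hu
      · exact hy
      · exact hm u hu
    obtain ⟨L1, hL1⟩ := append_single_eq (d.mid z) (d.hi z)
    obtain ⟨L2, w2, hL2⟩ := append_single_eq' (d.lo z) (d.mid z)
    set w1 := (d.mid z).headD (d.hi z) with hw1
    have hN1 : d.N z = d.lo z :: w1 :: L1 := by unfold Dat.N; rw [hL1]
    have hN2 : d.N z = L2 ++ [w2, d.hi z] := by
      have : d.N z = (d.lo z :: d.mid z) ++ [d.hi z] := rfl
      rw [this, hL2]; simp
    have htri1 : Tri3 (Conc d D ord h ξ1) (A ++ d.lo z :: (d.mid z ++ d.hi z :: B)) := by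
      have e1 : A ++ d.lo z :: (d.mid z ++ d.hi z :: B) = A ++ d.lo z :: w1 :: (L1 ++ B) := by
        have : d.mid z ++ d.hi z :: B = (d.mid z ++ [d.hi z]) ++ B := by simp
        rw [this, hL1]; simp
      have e2 : d.lo z :: w1 :: (L1 ++ B) = L2 ++ w2 :: d.hi z :: B := by
        have : d.lo z :: w1 :: (L1 ++ B) = d.N z ++ B := by rw [hN1]; simp
        rw [this, hN2]; simp
      rw [e1]
      refine (tri3_split A).2 ⟨?_, ?_⟩
      swap
      rw [e2]
      refine (tri3_split L2).2 ⟨?_, ?_⟩
      rotate_left 2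
      · refine tri3_last A ?_ ?_ t1
        · intro a y c ha hy hc
          refine same a y c (bA a ha) (bA y hy) ?_ (dA y hy)
          rcases mem_append.1 hc with hc | hc
          · exact bA c hc
          · simp at hc; rw [hc]; exact b1
        · intro a ha hc hn
          have hz : ¬ D z := fun hz => hn (hD z mem_cons_self hz _ mlo)
          have k1 := (hc hn).1
          have k2 : 0 < Lf h ξ1 (d.lo z) w1 z := by
            have := a3 hz; rw [hN1, isChain_cons_cons] at this; exact this.1
          have k3 : h (d.lo z) < h w1 := by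
            rw [hN1] at hsN; exact (pairwise_cons.1 hsN).1 w1 (by simp)
          have k4 := hAl a ha
          rw [← Lf_congr (bA a ha) b3 b1] at k1
          have : 0 < Lf h ξ1 a w1 (d.lo z) := by
            have i1 : (h z - h (d.lo z)) * Lf h ξ1 a w1 (d.lo z) =
                (h w1 - h (d.lo z)) * Lf h ξ1 a z (d.lo z) +
                  (h (d.lo z) - h a) * Lf h ξ1 (d.lo z) w1 z := by unfold Lf; ring
            have j1 := mul_nonneg (sub_nonneg.2 k3.le) k1
            have j2 := mul_pos (sub_pos.2 k4) k2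
            have j4 : 0 < (h z - h (d.lo z)) * Lf h ξ1 a w1 (d.lo z) := by linarith
            exact (pos_iff_pos_of_mul_pos j4).1 (sub_pos.2 hlo)
          exact ⟨this.le, fun _ => this⟩
      · rw [← hN2]
        exact tri3_imp _ (fun a y c _ _ _ hc hn => ⟨(hc hn).le, fun _ => hc hn⟩) a4
      · refine tri3_first B ?_ ?_ t3
        · intro a y c ha hy hc
          refine same a y c ?_ (bB y hy) (bB c hc) (dB y hy)
          rcases mem_cons.1 ha with ha | ha
          · rw [ha]; exact b2
          · exact bB a ha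
        · intro c hc' hc hn
          have hz : ¬ D z := fun hz => hn (hD z mem_cons_self hz _ mhi)
          have k1 := (hc hn).1
          have k2 : 0 < Lf h ξ1 w2 (d.hi z) z := by
            have := chain_sub (a3 hz) (l₁ := [w2, d.hi z]) ⟨L2, [], by rw [hN2]; simp⟩
            simpa using this
          have k3 : h w2 < h (d.hi z) :=
            pair_lt hsN (c := w2) (c' := d.hi z) ⟨L2, [], by rw [hN2]; simp⟩
          have k4 := hBr c hc'
          rw [← Lf_congr b3 (bB c hc') b2] at k1
          have : 0 < Lf h ξ1 w2 c (d.hi z) := by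
            have i1 : (h (d.hi z) - h z) * Lf h ξ1 w2 c (d.hi z) =
                (h (d.hi z) - h w2) * Lf h ξ1 z c (d.hi z) +
                  (h c - h (d.hi z)) * Lf h ξ1 w2 (d.hi z) z := by unfold Lf; ring
            have j1 := mul_nonneg (sub_nonneg.2 k3.le) k1
            have j2 := mul_pos (sub_pos.2 k4) k2
            have j4 : 0 < (h (d.hi z) - h z) * Lf h ξ1 w2 c (d.hi z) := by linarith
            exact (pos_iff_pos_of_mul_pos j4).1 (sub_pos.2 hhi)
          exact ⟨this.le, fun _ => this⟩
    obtain ⟨ξ', c1, c2⟩ := ih ξ1 (fun y hy => (a1 y (Or.inr hy)).trans (hξ y hy))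
      (by
        intro y hy hn
        by_cases hm : y ∈ d.mid z
        · exact a2 y hm hn
        · rw [a1 y (Or.inl hm)]
          apply hpos y _ hn
          simp only [mem_append, mem_cons] at hy ⊢
          tauto) htri1
    refine ⟨ξ', ?_, ?_⟩
    · rintro y (hy | hy | hy)
      · by_cases hyz : y = z
        · subst hyz; rw [c1 y (Or.inr (Or.inl h1))]; exact b3
        · have hy' : y ∈ A ∨ y = d.lo z ∨ y = d.hi z ∨ y ∈ B := by
            simp only [mem_append, mem_cons] at hy
            tauto
          rw [c1 y (Or.inl (by simp only [mem_append, mem_cons]; tauto))]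
          rcases hy' with q | q | q | q
          · exact bA y q
          · rw [q]; exact b1
          · rw [q]; exact b2
          · exact bB y q
      · have hy1 : y ∉ ord := fun hm => hy (mem_cons_of_mem _ hm)
        rw [c1 y (Or.inr (Or.inl hy1))]
        by_cases hm : y ∈ d.mid z
        · rcases hNI y (mmid y hm) with q | q | q
          · exact absurd q hy1
          · exact a1 y (Or.inr (q ▸ Db))
          · exact a1 y (Or.inr (q ▸ Dt))
        · exact a1 y (Or.inl hm)
      · rw [c1 y (Or.inr (Or.inr hy))]; exact a1 y (Or.inr hy)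
    · intro u hu hn
      rcases mem_cons.1 hu with rfl | hu
      · refine IsChain.imp_of_mem_imp ?_ (a3 hn)
        intro a b ha hb hab
        rw [Lf_congr (c1 a (Or.inl (mem_N_sub ha))) (c1 b (Or.inl (mem_N_sub hb)))
          (c1 u (Or.inr (Or.inl h1)))]
        exact hab
      · exact c2 u hu hn

end Pool.Agent.MP_d347ac_co.H31
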