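import Pool.Agent.MP_d347ac_co.Geom
import Pool.Agent.MP_d347ac_co.Canon
import Pool.Agent.MP_d347ac_co.H31Main

set_option autoImplicit false

namespace Pool.Agent.MP_d347ac_co

theorem partA : H31.PartA := fun n G p h => exists_build_of partI n G p h

end Pool.Agent.MP_d347ac_co
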