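import Pool.Agent.MP_d347ac_co.Cell

set_option autoImplicit false

namespace Pool.Agent.MP_d347ac_co

open Relation

universe u
variable {V : Type u}

theorem exists_path {r : V → V → Prop} (X : Set V) {x y : V} (hx : x ∈ X)
    (h : ReflTransGen r x y) :
    ∃ s m, s ∈ X ∧ (s :: m).Nodup ∧ (∀ a b, Cons (s :: m) a b → r a b) ∧
      (∃ i, s :: m = i ++ [y]) ∧ ∀ v ∈ m, v ∉ X := by
  induction h with
  | refl => exact ⟨x, [], hx, by simp, by simp, ⟨[], rfl⟩, by simp⟩
  | @tail y z _ hyz ih =>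
    obtain ⟨s, m, hs, hn, hc, ⟨i, hi⟩, hX⟩ := ih
    by_cases hz : z ∈ X
    · exact ⟨z, [], hz, by simp, by simp, ⟨[], rfl⟩, by simp⟩
    by_cases hzm : z ∈ m
    · obtain ⟨L, R, rfl⟩ := List.append_of_mem hzm
      refine ⟨s, L ++ [z], hs, hn.sublist (by simp), fun a b hab => hc a b ?_, ⟨s :: L, rfl⟩,
        fun v hv => hX v (by simp at hv ⊢; tauto)⟩
      have := hab.append_right R
      simpa using this
    · refine ⟨s, m ++ [z], hs, ?_, fun a b hab => ?_, ⟨s :: m, rfl⟩, fun v hv => ?_⟩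
      · have : s :: (m ++ [z]) = (s :: m) ++ [z] := rfl
        rw [this, List.nodup_append]
        refine ⟨hn, by simp, fun a ha b hb e => ?_⟩
        simp only [List.mem_singleton] at hb
        subst hb e
        rcases List.mem_cons.1 ha with e | e
        · exact hz (e ▸ hs)
        · exact hzm e
      · have e : s :: (m ++ [z]) = i ++ y :: [z] := by
          have : s :: (m ++ [z]) = (s :: m) ++ [z] := rfl
          rw [this, hi]; simp
        rw [e, cons_append_cons, ← hi] at hab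
        rcases hab with hab | hab
        · exact hc _ _ hab
        · simp at hab; obtain ⟨rfl, rfl⟩ := hab; exact hyz
      · rcases List.mem_append.1 hv with hv | hv
        · exact hX v hv
        · simp at hv; exact hv ▸ hz

theorem reach_symm {r : V → V → Prop} (hs : ∀ a b, r a b → r b a) {W : V → Prop} {x y : V}
    (hx : W x) (h : ReflTransGen (fun a b => r a b ∧ W b) x y) :
    W y ∧ ReflTransGen (fun a b => r a b ∧ W b) y x := by
  induction h with
  | refl => exact ⟨hx, ReflTransGen.refl⟩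
  | tail _ hyz ih => exact ⟨hyz.2, ReflTransGen.head ⟨hs _ _ hyz.1, ih.1⟩ ih.2⟩

theorem reach_list {r : V → V → Prop} {x : V} {l : List V}
    (h : ∀ a b, Cons (x :: l) a b → r a b) : ∀ v ∈ x :: l, ReflTransGen r x v :=
  cons_all (P := fun v => ReflTransGen r x v) ReflTransGen.refl
    (fun a b hab ha => ha.tail (h a b hab))

section
variable [Finite V] {T : Reg V} (hT : Amb T) {D : Reg V} (hle : Le D T) {C : List V}
  (hD : Cell D C)
include hT hle hD

theorem reach_bd {v w : V} (hw : vx D w) (hwv : w ≠ v) :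
    ∃ c ∈ C, ReflTransGen (fun a b => adj D a b ∧ b ≠ v) w c := by
  by_contra hcon
  push Not at hcon
  let A : V → Prop := fun u => ReflTransGen (fun a b => adj D a b ∧ b ≠ v) w u
  let S : Reg V := fun a b c => D a b c ∧ (A a ∨ A b ∨ A c)
  have hS : Rot S := fun a b c h => ⟨hD.rot _ _ _ h.1, by tauto⟩
  have hSD : Le S D := fun a b c h => h.1
  obtain ⟨b, c, hw⟩ := hw
  obtain ⟨a, b, ⟨c, h1, h2⟩, h3⟩ := hT.nz S hS (hSD.trans hle)
    ⟨w, b, c, hw, Or.inl ReflTransGen.refl⟩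
  have hab : ¬ A a ∧ ¬ A b := by
    by_cases hr : he D b a
    · obtain ⟨c', hc'⟩ := hr
      exact ⟨fun x => h3 ⟨c', hc', by tauto⟩, fun x => h3 ⟨c', hc', by tauto⟩⟩
    · have := (hD.bdry _ _).1 ⟨⟨c, h1⟩, hr⟩
      exact ⟨hcon _ this.mem_left, hcon _ this.mem_right⟩
  have hc : A c := by tauto
  have e1 : a = v := by
    by_contra e
    exact hab.1 (hc.tail ⟨Or.inl ⟨b, hD.rot.two h1⟩, e⟩)
  have e2 : b = v := by
    by_contra e
    exact hab.2 (hc.tail ⟨Or.inr ⟨a, hD.rot _ _ _ h1⟩, e⟩)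
  exact hT.ne _ _ _ (hle _ _ _ h1) (e1.trans e2.symm)

theorem reach_avoid {v w w' : V} (hw : vx D w) (hwv : w ≠ v) (hw' : vx D w') (hwv' : w' ≠ v) :
    ReflTransGen (fun a b => adj D a b ∧ b ≠ v) w w' := by
  obtain ⟨c, hc, h⟩ := reach_bd hT hle hD hw hwv
  obtain ⟨c', hc', h'⟩ := reach_bd hT hle hD hw' hwv'
  have s := reach_symm (r := adj D) (fun _ _ => adj.symm) (W := fun b => b ≠ v) hwv h
  have s' := reach_symm (r := adj D) (fun _ _ => adj.symm) (W := fun b => b ≠ v) hwv' h'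
  refine h.trans (ReflTransGen.trans ?_ s'.2)
  obtain ⟨E, hE, hE1, hE2⟩ : ∃ E : List V, (∀ a b, Cons E a b → Nx C a b) ∧
      (∀ u ∈ C, u ≠ v → u ∈ E) ∧ v ∉ E := by
    by_cases hv : v ∈ C
    · obtain ⟨L, R, rfl⟩ := List.append_of_mem hv
      refine ⟨R ++ L, fun a b hab => ?_, fun u hu huv => ?_, ?_⟩
      · rw [nx_rot]
        exact Cons.nx (by simpa using hab.append_left [v])
      · simp [huv] at hu ⊢; tauto
      · have := hD.rotate.nodup
        simp only [List.cons_append, List.nodup_cons] at this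
        exact this.1
    · exact ⟨C, fun a b => Cons.nx, fun u hu _ => hu, hv⟩
  have m := hE1 c hc s.1
  have m' := hE1 c' hc' s'.1
  obtain ⟨e, E', rfl⟩ := List.exists_cons_of_ne_nil (List.ne_nil_of_mem m)
  have key := reach_list (r := fun a b => adj D a b ∧ b ≠ v) (x := e) (l := E') (fun a b hab =>
    ⟨hD.adj_of_nx (hE _ _ hab), fun x => hE2 (x ▸ hab.mem_right)⟩)
  have k1 := reach_symm (r := adj D) (fun _ _ => adj.symm) (W := fun b => b ≠ v)
    (fun x => hE2 (by simp [x])) (key c m)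
  exact k1.2.trans (key c' m')

theorem star_closed {E : Reg V} (hE : Rot E) (hED : Le E D) {v : V} (hv : vx E v)
    (h1 : ∀ w, ¬ bd E v w) (h2 : ∀ w, ¬ bd E w v) : ∀ b c, D v b c → E v b c := by
  intro x2 y2 ht
  by_contra hn
  have hET := hED.trans hle
  have hx2 : ¬ he E v x2 := fun x => hn (he.mem hT hET x (hle _ _ _ ht))
  obtain ⟨x0, y0, h0⟩ := hv
  have a0 : he D v x0 := ⟨_, hED _ _ _ h0⟩
  have a2 : he D v x2 := ⟨_, ht⟩
  have hr := reach_avoid hT hle hD (v := v) (a0.vx_right hD.rot) (he.ne hT hle a0).symm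
    (a2.vx_right hD.rot) (he.ne hT hle a2).symm
  obtain ⟨x1, m, hx1, hnd, hc, ⟨i, hi⟩, hX⟩ := exists_path {x | he E v x} (x := x0) ⟨_, h0⟩ hr
  have hx1 : he E v x1 := hx1
  have hm : m ≠ [] := by
    rintro rfl
    cases i with
    | nil => simp at hi; exact hx2 (hi ▸ hx1)
    | cons _ i => simp at hi
  have hvm : v ∉ x1 :: m := by
    intro hv
    rcases List.mem_cons.1 hv with e | e
    · exact he.ne hT hET hx1 e
    · obtain ⟨a, ha⟩ := exists_cons_pred (s := x1) e
      exact (hc _ _ ha).2 rfl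
  have hg : (v :: x1 :: m).Nodup := List.nodup_cons.2 ⟨hvm, hnd⟩
  have hl : 3 ≤ (v :: x1 :: m).length := by
    have := List.length_pos_iff.2 hm; simp; omega
  have n1 : Nx (v :: x1 :: m) v x1 := Cons.nx (by simp)
  have n2 : Nx (v :: x1 :: m) x2 v := (nx_iff _ _ _).2 (Or.inr ⟨⟨v :: i, by simp [hi]⟩, _, rfl⟩)
  obtain ⟨R, hR, hRD, hbd⟩ := hD.sc _ hg hl (fun a b hab => by
    rcases (nx_iff _ _ _).1 hab with h | ⟨⟨L, e⟩, R, e'⟩
    · rcases (cons_cons _ _ _ _ _).1 h with ⟨rfl, rfl⟩ | h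
      · exact Or.inl (hx1.mono hED)
      · exact (hc _ _ h).1
    · have e1 : b = v := by simp at e'; exact e'.1.symm
      subst e1
      rw [← n2.pred_uniq hg hab]
      exact Or.inr a2)
  have hRT := hRD.trans hle
  let W : Reg V := fun a b c => E a b c ∧ R a b c
  have hW : Rot W := fun a b c h => ⟨hE _ _ _ h.1, hR _ _ _ h.2⟩
  have hWE : Le W E := fun a b c h => h.1
  have hWR : Le W R := fun a b c h => h.2
  have hWT := hWE.trans hET
  have mk : ∀ a b, he E a b → he R a b → he W a b := fun a b ⟨c, hc⟩ x =>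
    ⟨c, hc, he.mem hT hRT x (hET _ _ _ hc)⟩
  have r1 : ∀ w, he E v w → he E w v := fun w x => by by_contra y; exact h1 w ⟨x, y⟩
  have r2 : ∀ w, he E w v → he E v w := fun w x => by by_contra y; exact h2 w ⟨x, y⟩
  rcases hbd with hbd | hbd
  · have b1 := (hbd _ _).2 n1
    obtain ⟨u, hu⟩ := bd_prev hT hW hWT (a := v) (b := x1)
      ⟨mk _ _ hx1 b1.1, fun x => b1.2 (x.mono hWR)⟩
    have e1 := r2 _ (hu.1.mono hWE)
    have b2 : bd R u v := ⟨hu.1.mono hWR, fun x => hu.2 (mk _ _ e1 x)⟩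
    have := ((hbd _ _).1 b2).pred_uniq hg n2
    exact hx2 (this ▸ e1)
  · have b1 := (hbd _ _).2 n1
    obtain ⟨u, hu⟩ := bd_next hT hW hWT (a := x1) (b := v)
      ⟨mk _ _ (r1 _ hx1) b1.1, fun x => b1.2 (x.mono hWR)⟩
    have e1 := hu.1.mono hWE
    have b2 : bd R v u := ⟨hu.1.mono hWR, fun x => hu.2 (mk _ _ (r1 _ e1) x)⟩
    have := ((hbd _ _).1 b2).pred_uniq hg n2
    exact hx2 (this ▸ e1)

/-- all triangles at an interior vertex of a subcell belong to the subcell -/
theorem int_closed {E : Reg V} {C' : List V} (hE : WCell E C') (hED : Le E D) {v : V}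
    (hv : vx E v) (hn : v ∉ C') : ∀ b c, D v b c → E v b c := by
  rcases hE with hE | hE
  · obtain ⟨b, c, h⟩ := hv
    exact absurd h (hE.2 _ _ _)
  · exact star_closed hT hle hD hE.rot hED hv
      (fun w h => hn ((hE.bdry _ _).1 h).mem_left) (fun w h => hn ((hE.bdry _ _).1 h).mem_right)

/-- a vertex common to the two parts of a split lies on both boundaries -/
theorem common_mem {D1 D2 : Reg V} {C1 C2 : List V} (h1 : WCell D1 C1) (h2 : WCell D2 C2)
    (hor : ∀ a b c, D a b c ↔ D1 a b c ∨ D2 a b c) (hdis : ∀ a b c, D1 a b c → ¬ D2 a b c)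
    {v : V} (v1 : vx D1 v) (v2 : vx D2 v) : v ∈ C1 ∧ v ∈ C2 := by
  have l1 : Le D1 D := fun a b c x => (hor a b c).2 (Or.inl x)
  have l2 : Le D2 D := fun a b c x => (hor a b c).2 (Or.inr x)
  constructor
  · by_contra hn
    obtain ⟨b, c, h⟩ := v2
    exact hdis _ _ _ (int_closed hT hle hD h1 l1 v1 hn _ _ (l2 _ _ _ h)) h
  · by_contra hn
    obtain ⟨b, c, h⟩ := v1
    exact hdis _ _ _ h (int_closed hT hle hD h2 l2 v2 hn _ _ (l1 _ _ _ h))

end

end Pool.Agent.MP_d347ac_co
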