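import Pool.Agent.MP_d347ac_co.Conv

set_option autoImplicit false

namespace Pool.Agent.MP_d347ac_co

/-- Shape of the frontier: gaps of auxiliary vertices separated by the entries of `A`. -/
inductive Sh : List ℕ → List ℕ → List ℕ → Prop
  | gap (G : List ℕ) : 2 ≤ G.length → Sh G [] G
  | cons (G : List ℕ) (e : ℕ) (F A S : List ℕ) :
      2 ≤ G.length → Sh F A S → Sh (G ++ e :: F) (e :: A) (G ++ S)

theorem Sh.perm {F A S : List ℕ} (h : Sh F A S) : F.Perm (S ++ A) := by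
  induction h with
  | gap G _ => simp
  | cons G e F A S _ _ ih =>
    rw [List.append_assoc]
    exact List.Perm.append_left _ ((List.Perm.cons _ ih).trans List.perm_middle.symm)

theorem Sh.ends {F A S : List ℕ} (h : Sh F A S) :
    ∃ g M z N, F = g :: (M ++ [z]) ∧ S = g :: (N ++ [z]) := by
  induction h with
  | gap G hG =>
    cases G with
    | nil => simp at hG
    | cons g G =>
      rcases List.eq_nil_or_concat G with rfl | ⟨M, z, rfl⟩
      · simp at hG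
      · exact ⟨g, M, z, M, by simp, by simp⟩
  | cons G e F A S hG _ ih =>
    obtain ⟨g, M, z, N, rfl, rfl⟩ := ih
    cases G with
    | nil => simp at hG
    | cons x G => exact ⟨x, G ++ e :: g :: M, z, G ++ g :: N, by simp, by simp⟩

theorem Sh.glue {F A S F' A' S' : List ℕ} (h : Sh F A S) (e : ℕ) (h' : Sh F' A' S') :
    Sh (F ++ e :: F') (A ++ e :: A') (S ++ S') := by
  induction h with
  | gap G hG => exact Sh.cons G e _ _ _ hG h'
  | cons G x F A S hG _ ih => simpa using Sh.cons G x _ _ _ hG ih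

theorem Sh.inv_cons {F A S : List ℕ} {e : ℕ} (h : Sh F (e :: A) S) :
    ∃ G F' S', F = G ++ e :: F' ∧ S = G ++ S' ∧ 2 ≤ G.length ∧ Sh F' A S' := by
  cases h with
  | cons G _ F' _ S' hG h' => exact ⟨G, F', S', rfl, rfl, hG, h'⟩

theorem Sh.left (L : List ℕ) : ∀ {F A S : List ℕ}, Sh F (L ++ A) S →
    ∃ P F₁ S₀ S₁, F = P ++ F₁ ∧ S = S₀ ++ S₁ ∧ Sh F₁ A S₁ ∧
      ∀ F' A' S', Sh F' A' S' → Sh (P ++ F') (L ++ A') (S₀ ++ S') := by
  induction L with
  | nil => exact fun h => ⟨[], _, [], _, rfl, rfl, h, fun _ _ _ h' => h'⟩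
  | cons e L ih =>
    intro F A S h
    obtain ⟨G, F', S', rfl, rfl, hG, h'⟩ := Sh.inv_cons h
    obtain ⟨P, F₁, S₀, S₁, rfl, rfl, h1, h2⟩ := ih h'
    refine ⟨G ++ e :: P, F₁, G ++ S₀, S₁, by simp, by simp, h1, fun F' A' S' q => ?_⟩
    simpa using Sh.cons G e _ _ _ hG (h2 _ _ _ q)

theorem Sh.right (R : List ℕ) (A : List ℕ) : ∀ {F S : List ℕ}, Sh F (A ++ R) S →
    ∃ F₁ Q S₁ S₂, F = F₁ ++ Q ∧ S = S₁ ++ S₂ ∧ Sh F₁ A S₁ ∧
      ∀ F' A' S', Sh F' A' S' → Sh (F' ++ Q) (A' ++ R) (S' ++ S₂) := by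
  induction A with
  | nil =>
    intro F S h
    cases R with
    | nil => exact ⟨F, [], S, [], by simp, by simp, h, fun _ _ _ q => by simpa using q⟩
    | cons e R =>
      obtain ⟨G, F', S', rfl, rfl, hG, h'⟩ := Sh.inv_cons h
      exact ⟨G, e :: F', G, S', rfl, rfl, Sh.gap G hG, fun _ _ _ q => q.glue e h'⟩
  | cons e A ih =>
    intro F S h
    obtain ⟨G, F', S', rfl, rfl, hG, h'⟩ := Sh.inv_cons h
    obtain ⟨F₁, Q, S₁, S₂, rfl, rfl, h1, h2⟩ := ih h'
    exact ⟨G ++ e :: F₁, Q, G ++ S₁, S₂, by simp, by simp, Sh.cons G e _ _ _ hG h1, h2⟩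

def used (E : ℕ → ℕ → Prop) (x : ℕ) : Prop := ∃ y, E x y

/-- `E'` extends `E` using only the new auxiliary vertices, among them those of `N`. -/
structure Ext (n : ℕ) (E E' : ℕ → ℕ → Prop) (N : List ℕ) : Prop where
  mono : ∀ x y, E x y → E' x y
  real : ∀ x, x < n → used E' x → used E x
  nd : N.Nodup
  new : ∀ s ∈ N, n ≤ s ∧ ¬ used E s ∧ used E' s

theorem Ext.used {n : ℕ} {E E' : ℕ → ℕ → Prop} {N : List ℕ} (h : Ext n E E' N) {x : ℕ}
    (q : used E x) : used E' x := let ⟨y, hy⟩ := q; ⟨y, h.mono _ _ hy⟩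

theorem Ext.refl (n : ℕ) (E : ℕ → ℕ → Prop) : Ext n E E [] :=
  ⟨fun _ _ q => q, fun _ _ q => q, by simp, by simp⟩

theorem Ext.trans {n : ℕ} {E E' E'' : ℕ → ℕ → Prop} {N N' N'' : List ℕ} (h : Ext n E E' N)
    (h' : Ext n E' E'' N') (hp : N''.Perm (N ++ N')) : Ext n E E'' N'' := by
  refine ⟨fun x y q => h'.mono _ _ (h.mono _ _ q), fun x hx q => h.real x hx (h'.real x hx q),
    hp.nodup_iff.2 (List.nodup_append.2 ⟨h.nd, h'.nd, ?_⟩), fun s hs => ?_⟩
  · rintro a ha b hb rfl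
    exact (h'.new a hb).2.1 (h.new a ha).2.2
  · rcases List.mem_append.1 (hp.mem_iff.1 hs) with q | q
    · exact ⟨(h.new s q).1, (h.new s q).2.1, h'.used (h.new s q).2.2⟩
    · exact ⟨(h'.new s q).1, fun r => (h'.new s q).2.1 (h.used r), (h'.new s q).2.2⟩

theorem St.fresh {T : Reg ℕ} {E : ℕ → ℕ → Prop} {G : List ℕ} (h : St T E G) (n : ℕ) :
    ∃ w, n ≤ w ∧ ∀ x, ¬ E w x := by
  obtain ⟨K, hK⟩ := h.fin
  exact ⟨K + n, by omega, fun x e => by have := hK _ _ (h.symm _ _ e); omega⟩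

theorem St.scone (n : ℕ) {T : Reg ℕ} {E : ℕ → ℕ → Prop} {L M R : List ℕ} {g z : ℕ}
    (h : St T E (L ++ g :: (M ++ z :: R))) (hn : (g :: (M ++ [z])).Nodup) :
    ∃ w T' E', St T' E' (L ++ g :: w :: z :: R) ∧ Ext n E E' [w] := by
  obtain ⟨w, hw, hw'⟩ := h.fresh n
  obtain ⟨us, T', E', h', e⟩ := h.cone hn hw'
  refine ⟨w, T', E', h', fun x y q => (e _ _).2 (Or.inl q), ?_, by simp, ?_⟩
  · rintro x hx ⟨y, q⟩
    rcases (e _ _).1 q with q | q | q
    · exact ⟨y, q⟩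
    · omega
    · exact us x q.2
  · intro s hs
    obtain rfl := List.mem_singleton.1 hs
    exact ⟨hw, fun ⟨y, q⟩ => hw' y q, g, (e _ _).2 (Or.inr (Or.inl ⟨rfl, by simp⟩))⟩

theorem St.spend (n : ℕ) {T : Reg ℕ} {E : ℕ → ℕ → Prop} {L R : List ℕ} {a : ℕ}
    (h : St T E (L ++ a :: R)) (ha : used E a) :
    ∃ w E', St T E' (L ++ a :: w :: a :: R) ∧ Ext n E E' [w] := by
  obtain ⟨w, hw, hw'⟩ := h.fresh n
  have hwa : w ≠ a := by
    rintro rfl
    obtain ⟨y, q⟩ := ha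
    exact hw' y q
  refine ⟨w, _, h.pend hw' hwa, fun x y q => Or.inl q, ?_, by simp, ?_⟩
  · rintro x hx ⟨y, q | q | q⟩
    · exact ⟨y, q⟩
    · exact q.1 ▸ ha
    · omega
  · intro s hs
    obtain rfl := List.mem_singleton.1 hs
    exact ⟨hw, fun ⟨y, q⟩ => hw' y q, a, Or.inr (Or.inr ⟨rfl, rfl⟩)⟩

theorem St.fan (n : ℕ) {R : List ℕ} {v : ℕ} (k : ℕ) :
    ∀ {T : Reg ℕ} {E : ℕ → ℕ → Prop} {L : List ℕ}, St T E (L ++ v :: R) → used E v →
    ∃ T' E' X N, St T' E' (L ++ (X ++ R)) ∧ Ext n E E' N ∧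
      ∀ G F A S, 2 ≤ G.length → Sh F A S →
        Sh (G ++ (X ++ F)) (List.replicate (k + 1) v ++ A) (G ++ (N ++ S)) := by
  induction k with
  | zero =>
    intro T E L h _
    exact ⟨T, E, [v], [], h, Ext.refl n E, fun G F A S hG q => Sh.cons G v F A S hG q⟩
  | succ k ih =>
    intro T E L h hv
    obtain ⟨c, E₁, h1, x1⟩ := h.spend n hv
    have hc : v ≠ c := fun q => (x1.new c (by simp)).2.1 (q ▸ hv)
    obtain ⟨b, T₂, E₂, h2, x2⟩ := St.scone n (M := []) h1 (by simp [hc])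
    obtain ⟨T₃, E₃, X, N, h3, x3, s3⟩ := ih (L := L ++ [v, b, c]) (by simpa using h2)
      (x2.used (x1.used hv))
    refine ⟨T₃, E₃, v :: b :: c :: X, b :: c :: N, by simpa using h3,
      (x1.trans x2 (N'' := [b, c]) (List.Perm.swap _ _ _)).trans x3 (List.Perm.refl _),
      fun G F A S hG q => ?_⟩
    exact Sh.cons G v _ _ _ hG (s3 [b, c] F A S (by simp) q)

theorem St.open (n : ℕ) {T : Reg ℕ} {E : ℕ → ℕ → Prop} {L R : List ℕ} {g v z : ℕ} (k : ℕ)
    (h : St T E (L ++ g :: v :: z :: R)) (hn : [g, v, z].Nodup) (hv : used E v) :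
    ∃ T' E' X N, St T' E' (L ++ g :: (X ++ z :: R)) ∧ Ext n E E' N ∧
      Sh (g :: (X ++ [z])) (List.replicate k v) (g :: (N ++ [z])) := by
  cases k with
  | zero =>
    obtain ⟨c, T₁, E₁, h1, x1⟩ := St.scone n (M := [v]) h hn
    exact ⟨T₁, E₁, [c], [c], h1, x1, Sh.gap _ (by simp)⟩
  | succ k =>
    simp only [List.nodup_cons, List.mem_cons, not_or] at hn
    obtain ⟨a, T₁, E₁, h1, x1⟩ := St.scone n (M := []) h (by simp [hn.1.1])
    obtain ⟨b, T₂, E₂, h2, x2⟩ := St.scone n (L := L ++ [g, a]) (g := v) (M := []) (z := z)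
      (R := R) (by simpa using h1) (by simp [hn.2.1.1])
    obtain ⟨T₃, E₃, X, N, h3, x3, s3⟩ := St.fan n k h2 (x2.used (x1.used hv))
    refine ⟨T₃, E₃, a :: (X ++ [b]), a :: (N ++ [b]), by simpa using h3,
      (x1.trans x2 (List.Perm.refl _)).trans x3 ?_, ?_⟩
    · exact List.Perm.cons _ (List.perm_append_comm)
    · simpa using s3 [g, a] [b, z] [] [b, z] (by simp) (Sh.gap _ (by simp))

/-- Combinatorial record of a left-to-right sweep: the processed set and the list of the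
sources of the edges meeting the sweep line. -/
inductive Sweep {n : ℕ} (G : SimpleGraph (Fin n)) : Finset (Fin n) → List (Fin n) → Prop
  | nil : Sweep G ∅ []
  | step (D : Finset (Fin n)) (L I R : List (Fin n)) (v : Fin n) (k : ℕ) :
      Sweep G D (L ++ (I ++ R)) → v ∉ D → I.Nodup → (∀ u ∈ D, G.Adj u v → u ∈ I) →
      Sweep G (insert v D) (L ++ (List.replicate k v ++ R))

theorem Sweep.st {n : ℕ} {G : SimpleGraph (Fin n)} {D : Finset (Fin n)} {A : List (Fin n)}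
    (h : Sweep G D A) : ∃ T E F S, St T E (F ++ [n]) ∧ F.head? = some n ∧
      Sh F (A.map Fin.val) S ∧ S.Nodup ∧ (∀ s ∈ S, n ≤ s ∧ used E s) ∧
      (∀ v : Fin n, used E v.val ↔ v ∈ D) ∧
      ∀ u ∈ D, ∀ v ∈ D, G.Adj u v → E u.val v.val := by
  induction h with
  | nil =>
    refine ⟨_, _, [n, n + 1], [n, n + 1], St.init n (n + 1) (by omega), rfl, Sh.gap _ (by simp),
      by simp, ?_, ?_, by simp⟩
    · intro s hs
      simp only [List.mem_cons, List.not_mem_nil, or_false] at hs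
      rcases hs with rfl | rfl
      · exact ⟨le_rfl, _, Or.inr (Or.inl ⟨rfl, rfl⟩)⟩
      · exact ⟨by omega, _, Or.inr (Or.inr ⟨rfl, rfl⟩)⟩
    · intro v
      have := v.isLt
      simp only [used, addE, false_or, Finset.notMem_empty, iff_false, not_exists]
      omega
  | step D L I R v k _ hv hI hadj ih =>
    obtain ⟨T, E, F, S, h, hd, sh, nd, hS, hu, hE⟩ := ih
    simp only [List.map_append] at sh
    obtain ⟨P, F₁, S₀, S₁, rfl, rfl, sh1, k1⟩ := Sh.left _ sh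
    obtain ⟨F₂, Q, S₂, S₃, rfl, rfl, sh2, k2⟩ := Sh.right _ _ sh1
    have pm := sh2.perm
    obtain ⟨g, M, z, N, rfl, rfl⟩ := sh2.ends
    have hn : (g :: (M ++ [z])).Nodup := by
      rw [pm.nodup_iff, List.nodup_append]
      refine ⟨(List.nodup_append.1 (List.nodup_append.1 nd).2.1).1,
        hI.map Fin.val_injective, ?_⟩
      rintro a ha b hb rfl
      obtain ⟨u, _, rfl⟩ := List.mem_map.1 hb
      have := (hS _ (List.mem_append_right _ (List.mem_append_left _ ha))).1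
      have := u.isLt
      omega
    have hw : ∀ x, ¬ E v.val x := fun x e => hv ((hu v).1 ⟨x, e⟩)
    obtain ⟨us, T₁, E₁, h1, e1⟩ := St.cone (L := P) (M := M) (R := Q ++ [n]) (g := g) (z := z)
      (by simpa using h) hn hw
    have hg := (hS g (by simp)).1
    have hz := (hS z (by simp)).1
    have hvn := v.isLt
    have hgz : g ≠ z := by
      rintro rfl
      simp at hn
    have uv : used E₁ v.val := ⟨g, (e1 _ _).2 (Or.inr (Or.inl ⟨rfl, by simp⟩))⟩
    obtain ⟨T₂, E₂, X, N', h2, x2, s2⟩ := St.open n k h1 (by simp [hgz]; omega) uv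
    have m1 : ∀ x, used E x → used E₁ x := fun x ⟨y, q⟩ => ⟨y, (e1 _ _).2 (Or.inl q)⟩
    refine ⟨T₂, E₂, P ++ ((g :: (X ++ [z])) ++ Q), S₀ ++ ((g :: (N' ++ [z])) ++ S₃),
      by simpa using h2, ?_, ?_, ?_, ?_, ?_, ?_⟩
    · cases P <;> simpa using hd
    · simpa using k1 _ _ _ (k2 _ _ _ s2)
    · have p1 : (S₀ ++ ((g :: (N' ++ [z])) ++ S₃)).Perm (N' ++ (S₀ ++ g :: z :: S₃)) := by
        rw [List.perm_iff_count]; intro a; simp [List.count_cons]; omega
      have p2 : (S₀ ++ g :: z :: S₃).Sublist (S₀ ++ ((g :: (N ++ [z])) ++ S₃)) := by simp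
      rw [p1.nodup_iff, List.nodup_append]
      refine ⟨x2.nd, nd.sublist p2, ?_⟩
      rintro a ha b hb rfl
      exact (x2.new a ha).2.1 (m1 _ (hS a (p2.subset hb)).2)
    · intro s hs
      by_cases q : s ∈ N'
      · exact ⟨(x2.new s q).1, (x2.new s q).2.2⟩
      · have := hS s (by simp at hs ⊢; tauto)
        exact ⟨this.1, x2.used (m1 _ this.2)⟩
    · intro u
      rw [Finset.mem_insert]
      constructor
      · intro q
        obtain ⟨y, q⟩ := x2.real _ u.isLt q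
        rcases (e1 _ _).1 q with q | q | q
        · exact Or.inr ((hu u).1 ⟨y, q⟩)
        · exact Or.inl (Fin.ext q.1)
        · exact Or.inr ((hu u).1 (us _ q.2))
      · rintro (rfl | q)
        · exact x2.used uv
        · exact x2.used (m1 _ ((hu u).2 q))
    · have key : ∀ u ∈ D, G.Adj u v → E₂ u.val v.val := fun u hu' a =>
        x2.mono _ _ ((e1 _ _).2 (Or.inr (Or.inr ⟨rfl, pm.mem_iff.2
          (List.mem_append_right _ (List.mem_map_of_mem (hadj u hu' a)))⟩)))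
      intro u hu' w hw' a
      rcases Finset.mem_insert.1 hu' with q | q <;> rcases Finset.mem_insert.1 hw' with r | r
      · rw [q, r] at a; exact absurd a G.irrefl
      · subst q; exact h2.symm _ _ (key w r a.symm)
      · subst r; exact key u q a
      · exact x2.mono _ _ ((e1 _ _).2 (Or.inl (hE u q w r a)))

theorem Sweep.cell {n : ℕ} {G : SimpleGraph (Fin n)} (h : Sweep G Finset.univ []) :
    ∃ (N : ℕ) (T : Reg (Fin N)) (a b c : Fin N) (φ : Fin n → Fin N),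
      Amb T ∧ Cell T [a, b, c] ∧ Function.Injective φ ∧
      (∀ v, φ v ∉ [a, b, c] ∧ vx T (φ v)) ∧ ∀ u v, G.Adj u v → adj T (φ u) (φ v) := by
  obtain ⟨T, E, F, S, h, hd, sh, nd, hS, hu, hE⟩ := h.st
  have pm := sh.perm
  obtain ⟨g, M, z, N, rfl, rfl⟩ := sh.ends
  obtain rfl : n = g := by simpa [eq_comm] using hd
  have hn : (n :: (M ++ [z])).Nodup := pm.nodup_iff.2 (by simpa using nd)
  obtain ⟨c, T₁, E₁, h1, x1⟩ := St.scone n (L := []) (M := M) (R := [n]) (g := n) (z := z)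
    (by simpa using h) hn
  obtain ⟨K, hK⟩ := h1.fin
  have uK : ∀ x, used E₁ x → x < K := fun x ⟨y, q⟩ => hK _ _ (h1.symm _ _ q)
  have un := hS n (by simp)
  have uz := hS z (by simp)
  have uc := x1.new c (by simp)
  have uv : ∀ v : Fin n, used E₁ v.val := fun v => x1.used ((hu v).2 (Finset.mem_univ v))
  have fin := St.final (a := ⟨n, uK _ (x1.used un.2)⟩) (b := ⟨c, uK _ uc.2.2⟩)
    (c := ⟨z, uK _ (x1.used uz.2)⟩) h1 hK
    (by intro q; exact uc.2.1 ((Fin.mk.inj q) ▸ un.2))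
    (by intro q; exact uc.2.1 ((Fin.mk.inj q) ▸ uz.2))
    (by intro q; have := Fin.mk.inj q; subst this; simp at hn)
  refine ⟨K, res K T₁, _, _, _, fun v => ⟨v.val, uK _ (uv v)⟩, h1.amb_res, fin.1,
    fun u v q => Fin.ext (Fin.mk.inj q), fun v => ⟨?_, ?_⟩, fun u v a => fin.2 _ _ ?_⟩
  · have := v.isLt
    have := uz.1
    have := uc.1
    simp only [List.mem_cons, Fin.mk.injEq, List.not_mem_nil, or_false]
    omega
  · obtain ⟨y, q⟩ := uv v
    exact (fin.2 ⟨v.val, uK _ (uv v)⟩ ⟨y, hK _ _ q⟩ q).vx_left fin.1.rot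
  · exact x1.mono _ _ (hE u (Finset.mem_univ _) v (Finset.mem_univ _) a)

end Pool.Agent.MP_d347ac_co
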